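import Mathlib

/-!
The count of the free pairs for a family of intervals (helper82, after the paper proof of helper3).
-/

set_option autoImplicit false

namespace Pool.Agent.H3.AP

open Finset

open scoped Classical

/-- the pairs `y < z` of `G` -/
noncomputable def lt2 (G : Finset ℤ) : Finset (ℤ × ℤ) := (G ×ˢ G).filter fun q => q.1 < q.2

theorem lt2_card (G : Finset ℤ) : 2 * (lt2 G).card + G.card = G.card * G.card := by
  have h1 := card_filter_add_card_filter_not (s := G ×ˢ G) (fun q : ℤ × ℤ => q.1 < q.2)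
  rw [card_product] at h1
  have h2 := card_filter_add_card_filter_not (s := (G ×ˢ G).filter fun q : ℤ × ℤ => ¬ q.1 < q.2)
    (fun q : ℤ × ℤ => q.2 < q.1)
  have h3 : (((G ×ˢ G).filter fun q : ℤ × ℤ => ¬ q.1 < q.2).filter fun q => q.2 < q.1).card =
      (lt2 G).card := by
    refine card_bij (fun q _ => (q.2, q.1)) ?_ ?_ ?_
    · intro q hq
      rw [mem_filter, mem_filter, mem_product] at hq
      unfold lt2
      rw [mem_filter, mem_product]
      exact ⟨⟨hq.1.1.2, hq.1.1.1⟩, hq.2⟩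
    · intro q _ q' _ h
      obtain ⟨e1, e2⟩ := Prod.mk.inj h
      exact Prod.ext e2 e1
    · intro q hq
      unfold lt2 at hq
      rw [mem_filter, mem_product] at hq
      refine ⟨(q.2, q.1), ?_, rfl⟩
      rw [mem_filter, mem_filter, mem_product]
      exact ⟨⟨⟨hq.1.2, hq.1.1⟩, not_lt.2 hq.2.le⟩, hq.2⟩
  have h4 : (((G ×ˢ G).filter fun q : ℤ × ℤ => ¬ q.1 < q.2).filter fun q => ¬ q.2 < q.1).card =
      G.card := by
    refine card_bij (fun q _ => q.1) ?_ ?_ ?_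
    · intro q hq
      rw [mem_filter, mem_filter, mem_product] at hq
      exact hq.1.1.1
    · intro q hq q' hq' h
      rw [mem_filter, mem_filter, mem_product] at hq hq'
      have e1 : q.1 = q.2 := le_antisymm (not_lt.1 hq.2) (not_lt.1 hq.1.2)
      have e2 : q'.1 = q'.2 := le_antisymm (not_lt.1 hq'.2) (not_lt.1 hq'.1.2)
      have h' : q.1 = q'.1 := h
      exact Prod.ext h' (by rw [← e1, ← e2, h'])
    · intro y hy
      refine ⟨(y, y), ?_, rfl⟩
      rw [mem_filter, mem_filter, mem_product]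
      exact ⟨⟨⟨hy, hy⟩, lt_irrefl _⟩, lt_irrefl _⟩
  rw [h3, h4] at h2
  have h5 : ((G ×ˢ G).filter fun q : ℤ × ℤ => q.1 < q.2).card = (lt2 G).card := rfl
  rw [h5] at h1
  omega

theorem free_count (N : ℕ) (x m : ℤ) (hx : 1 ≤ x) (hxm : x ≤ m) (hm : m ≤ N) (P : Finset (ℤ × ℤ))
    (hP : ∀ q ∈ P, 1 ≤ q.1 ∧ q.1 ≤ m ∧ m ≤ q.2 ∧ q.2 ≤ N) (FR : Finset (ℤ × ℤ))
    (h1 : ∀ q ∈ P, q.1 ≤ x → ∀ y z : ℤ, y ≠ x → z ≠ x → q.1 ≤ y → y < z → z ≤ q.2 → (y, z) ∈ FR)
    (h2 : ∀ q ∈ P, x < q.1 → ∀ y z : ℤ, x < y → y < z → z < q.1 → (y, z) ∈ FR)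
    (h3 : ∀ q ∈ P, x < q.1 → ∀ y z : ℤ, q.2 < y → y < z → z ≤ N → (y, z) ∈ FR)
    (h4 : ∀ q ∈ P, x < q.1 → ∀ k : ℤ, 1 ≤ k → (q.1 + k, q.2 - k) ∈ P → (q.1, q.2) ∈ FR) :
    2 * P.card ≤ FR.card + 20 * N := by
  obtain ⟨S1, hS1⟩ : ∃ S1, S1 = P.filter fun q => q.1 ≤ x := ⟨_, rfl⟩
  obtain ⟨S0, hS0⟩ : ∃ S0, S0 = P.filter fun q => ¬ q.1 ≤ x := ⟨_, rfl⟩
  have m1 : ∀ r ∈ S1, r ∈ P ∧ r.1 ≤ x := fun r hr => by rwa [hS1, mem_filter] at hr
  have m0 : ∀ r ∈ S0, r ∈ P ∧ x < r.1 := fun r hr => by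
    rw [hS0, mem_filter] at hr
    exact ⟨hr.1, not_le.1 hr.2⟩
  have hcard : S1.card + S0.card = P.card := by
    rw [hS1, hS0, card_filter_add_card_filter_not]
  -- the first two sets
  obtain ⟨T1, hT1⟩ : ∃ T1, T1 = S1.filter fun q => q.1 < x ∧ x < q.2 := ⟨_, rfl⟩
  obtain ⟨T0, hT0⟩ : ∃ T0, T0 = S0.filter fun q => ∃ k : ℤ, 1 ≤ k ∧ (q.1 + k, q.2 - k) ∈ P :=
    ⟨_, rfl⟩
  have t1 : S1.card ≤ T1.card + 2 * N := by
    have e := card_filter_add_card_filter_not (s := S1) (fun q : ℤ × ℤ => q.1 < x ∧ x < q.2)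
    rw [← hT1] at e
    have e2 : (S1.filter fun q => ¬ (q.1 < x ∧ x < q.2)) ⊆
        (({x} : Finset ℤ) ×ˢ Icc 1 (N : ℤ)) ∪ (Icc 1 (N : ℤ) ×ˢ ({x} : Finset ℤ)) := by
      intro r hr
      obtain ⟨r1, r2⟩ := mem_filter.1 hr
      obtain ⟨r3, r4⟩ := m1 r r1
      obtain ⟨r5, r6, r7, r8⟩ := hP r r3
      rw [mem_union, mem_product, mem_product, mem_singleton, mem_singleton, mem_Icc, mem_Icc]
      by_cases h : r.1 < x
      · right
        have : ¬ x < r.2 := fun h' => r2 ⟨h, h'⟩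
        exact ⟨⟨r5, by linarith⟩, by linarith⟩
      · left
        exact ⟨by linarith, by linarith, r8⟩
    have e3 := (card_le_card e2).trans (card_union_le _ _)
    rw [card_product, card_product, card_singleton, Int.card_Icc, add_sub_cancel_right,
      Int.toNat_natCast] at e3
    omega
  have t0 : S0.card ≤ T0.card + 2 * N := by
    have e := card_filter_add_card_filter_not (s := S0)
      (fun q : ℤ × ℤ => ∃ k : ℤ, 1 ≤ k ∧ (q.1 + k, q.2 - k) ∈ P)
    rw [← hT0] at e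
    have e2 : (S0.filter fun q => ¬ ∃ k : ℤ, 1 ≤ k ∧ (q.1 + k, q.2 - k) ∈ P).card ≤
        (Icc 1 ((2 * N : ℕ) : ℤ)).card := by
      refine card_le_card_of_injOn (fun q => q.1 + q.2) ?_ ?_
      · intro r hr
        obtain ⟨r1, r2⟩ := mem_filter.1 hr
        obtain ⟨r3, r4⟩ := m0 r r1
        obtain ⟨r5, r6, r7, r8⟩ := hP r r3
        rw [mem_coe, mem_Icc]
        push_cast
        exact ⟨by linarith, by linarith⟩
      · have key : ∀ r ∈ S0.filter (fun q => ¬ ∃ k : ℤ, 1 ≤ k ∧ (q.1 + k, q.2 - k) ∈ P),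
            ∀ r' ∈ S0.filter (fun q => ¬ ∃ k : ℤ, 1 ≤ k ∧ (q.1 + k, q.2 - k) ∈ P),
            r.1 + r.2 = r'.1 + r'.2 → ¬ r.1 < r'.1 := by
          intro r hr r' hr' h hlt
          apply (mem_filter.1 hr).2
          refine ⟨r'.1 - r.1, by linarith, ?_⟩
          have e5 : ((r.1 + (r'.1 - r.1), r.2 - (r'.1 - r.1)) : ℤ × ℤ) = r' :=
            Prod.ext (by show r.1 + (r'.1 - r.1) = r'.1; ring)
              (by show r.2 - (r'.1 - r.1) = r'.2; linarith)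
          rw [e5]
          exact (m0 r' (mem_filter.1 hr').1).1
        intro r hr r' hr' h
        have h' : r.1 + r.2 = r'.1 + r'.2 := h
        have a1 := key r hr r' hr' h'
        have a2 := key r' hr' r hr h'.symm
        have a3 : r.1 = r'.1 := le_antisymm (not_lt.1 a2) (not_lt.1 a1)
        exact Prod.ext a3 (by linarith)
    rw [Int.card_Icc, add_sub_cancel_right, Int.toNat_natCast] at e2
    omega
  -- the extreme values
  have ex1 : ∃ p s : ℤ, 1 ≤ p ∧ p ≤ x ∧ 0 ≤ s ∧ m + s ≤ N ∧ (∀ r ∈ S1, p ≤ r.1 ∧ r.2 ≤ m + s) ∧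
      ((S1 = ∅ ∧ p = x ∧ s = 0) ∨ ((∃ r ∈ S1, r.1 = p) ∧ ∃ r ∈ S1, r.2 = m + s)) := by
    rcases S1.eq_empty_or_nonempty with h | h
    · exact ⟨x, 0, hx, le_rfl, le_rfl, by linarith, by rw [h]; simp, Or.inl ⟨h, rfl, rfl⟩⟩
    · obtain ⟨r, hr, hmin⟩ := exists_min_image S1 (fun r => r.1) h
      obtain ⟨r', hr', hmax⟩ := exists_max_image S1 (fun r => r.2) h
      have b1 := hP r (m1 r hr).1
      have b2 := hP r' (m1 r' hr').1
      exact ⟨r.1, r'.2 - m, b1.1, (m1 r hr).2, by linarith, by linarith,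
        fun u hu => ⟨hmin u hu, by have := hmax u hu; linarith⟩,
        Or.inr ⟨⟨r, hr, rfl⟩, r', hr', by ring⟩⟩
  have ex0 : ∃ q t : ℤ, x ≤ q ∧ q ≤ m ∧ 0 ≤ t ∧ m ≤ N - t ∧ (∀ r ∈ S0, r.1 ≤ q ∧ N - t ≤ r.2) ∧
      ((S0 = ∅ ∧ q = x ∧ t = 0) ∨ ((∃ r ∈ S0, r.1 = q) ∧ ∃ r ∈ S0, r.2 = N - t)) := by
    rcases S0.eq_empty_or_nonempty with h | h
    · exact ⟨x, 0, le_rfl, hxm, le_rfl, by linarith, by rw [h]; simp, Or.inl ⟨h, rfl, rfl⟩⟩
    · obtain ⟨r, hr, hmax⟩ := exists_max_image S0 (fun r => r.1) h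
      obtain ⟨r', hr', hmin⟩ := exists_min_image S0 (fun r => r.2) h
      have b1 := hP r (m0 r hr).1
      have b2 := hP r' (m0 r' hr').1
      exact ⟨r.1, N - r'.2, (m0 r hr).2.le, b1.2.1, by linarith, by linarith,
        fun u hu => ⟨hmax u hu, by have := hmin u hu; linarith⟩,
        Or.inr ⟨⟨r, hr, rfl⟩, r', hr', by ring⟩⟩
  obtain ⟨p, s, p1, p2, s1, s2, hb1, hc1⟩ := ex1
  obtain ⟨q, t, q1, q2, t2, t3, hb0, hc0⟩ := ex0
  -- the upper bounds for the family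
  have u1 : (S1.card : ℤ) ≤ (x - p + 1) * (s + 1) := by
    have e : S1 ⊆ Icc p x ×ˢ Icc m (m + s) := by
      intro r hr
      have b1 := hP r (m1 r hr).1
      rw [mem_product, mem_Icc, mem_Icc]
      exact ⟨⟨(hb1 r hr).1, (m1 r hr).2⟩, b1.2.2.1, (hb1 r hr).2⟩
    have e2 := card_le_card e
    rw [card_product, Int.card_Icc, Int.card_Icc] at e2
    have e3 : ((S1.card : ℕ) : ℤ) ≤ (((x + 1 - p).toNat * (m + s + 1 - m).toNat : ℕ) : ℤ) := by
      exact_mod_cast e2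
    rw [Nat.cast_mul, Int.toNat_of_nonneg (by linarith), Int.toNat_of_nonneg (by linarith)] at e3
    calc ((S1.card : ℕ) : ℤ) ≤ (x + 1 - p) * (m + s + 1 - m) := e3
      _ = (x - p + 1) * (s + 1) := by ring
  have u0 : (S0.card : ℤ) ≤ (q - x) * (t + 1) := by
    have e : S0 ⊆ Icc (x + 1) q ×ˢ Icc (N - t) (N : ℤ) := by
      intro r hr
      have b1 := hP r (m0 r hr).1
      have b2 := (m0 r hr).2
      rw [mem_product, mem_Icc, mem_Icc]
      exact ⟨⟨by linarith, (hb0 r hr).1⟩, (hb0 r hr).2, b1.2.2.2⟩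
    have e2 := card_le_card e
    rw [card_product, Int.card_Icc, Int.card_Icc] at e2
    have e3 : ((S0.card : ℕ) : ℤ) ≤ (((q + 1 - (x + 1)).toNat * ((N : ℤ) + 1 - (N - t)).toNat : ℕ) : ℤ) := by
      exact_mod_cast e2
    rw [Nat.cast_mul, Int.toNat_of_nonneg (by linarith), Int.toNat_of_nonneg (by linarith)] at e3
    calc ((S0.card : ℕ) : ℤ) ≤ (q + 1 - (x + 1)) * ((N : ℤ) + 1 - (N - t)) := e3
      _ = (q - x) * (t + 1) := by ring
  -- the pairs on the left side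
  obtain ⟨LL, hLL⟩ : ∃ LL, LL = lt2 ((Ico p q).erase x) := ⟨_, rfl⟩
  have mLL : ∀ r ∈ LL, (p ≤ r.1 ∧ r.1 < q ∧ r.1 ≠ x) ∧ (p ≤ r.2 ∧ r.2 < q ∧ r.2 ≠ x) ∧ r.1 < r.2 := by
    intro r hr
    rw [hLL] at hr
    unfold lt2 at hr
    rw [mem_filter, mem_product, mem_erase, mem_erase, mem_Ico, mem_Ico] at hr
    exact ⟨⟨hr.1.1.2.1, hr.1.1.2.2, hr.1.1.1⟩, ⟨hr.1.2.2.1, hr.1.2.2.2, hr.1.2.1⟩, hr.2⟩
  have fLL : LL ⊆ FR := by
    rintro ⟨y, z⟩ hr
    obtain ⟨⟨a1, a2, a3⟩, ⟨a4, a5, a6⟩, a7⟩ := mLL _ hr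
    dsimp only at a1 a2 a3 a4 a5 a6 a7
    rcases hc1 with ⟨-, b1, -⟩ | ⟨⟨r, hr1, hr2⟩, -⟩
    · rcases hc0 with ⟨-, b2, -⟩ | ⟨⟨r, hr1, hr2⟩, -⟩
      · exfalso
        linarith
      · have hy : x < y := lt_of_le_of_ne (by linarith) (Ne.symm a3)
        exact h2 r (m0 r hr1).1 (m0 r hr1).2 y z hy a7 (by rw [hr2]; exact a5)
    · have b3 := hP r (m1 r hr1).1
      exact h1 r (m1 r hr1).1 (m1 r hr1).2 y z a3 a6 (by rw [hr2]; exact a1) a7 (by linarith)
  have cLL : (q - p) ^ 2 - 3 * (q - p) ≤ 2 * (LL.card : ℤ) := by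
    have e1 := lt2_card ((Ico p q).erase x)
    rw [← hLL] at e1
    have e2 : (Ico p q).card ≤ ((Ico p q).erase x).card + 1 := by
      have := pred_card_le_card_erase (s := Ico p q) (a := x)
      omega
    rw [Int.card_Ico] at e2
    obtain ⟨g, hg⟩ : ∃ g, g = ((Ico p q).erase x).card := ⟨_, rfl⟩
    rw [← hg] at e1 e2
    have e3 : q - p ≤ (g : ℤ) + 1 := by omega
    have e4 : 2 * (LL.card : ℤ) + g = g * g := by exact_mod_cast e1
    have e5 : (0 : ℤ) ≤ g := Nat.cast_nonneg _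
    rcases le_or_gt (q - p) 1 with h | h
    · have h0 : 0 ≤ q - p := by linarith
      have e6 : (0 : ℤ) ≤ (LL.card : ℤ) := Nat.cast_nonneg _
      nlinarith
    · nlinarith
  -- the pairs on the right side
  have exR : ∃ RR : Finset (ℤ × ℤ), RR ⊆ FR ∧ (∀ r ∈ RR, m < r.1 ∧ m < r.2) ∧
      (max s t) ^ 2 - max s t ≤ 2 * (RR.card : ℤ) := by
    rcases le_total t s with h | h
    · refine ⟨lt2 (Ioc m (m + s)), ?_, ?_, ?_⟩
      · rintro ⟨y, z⟩ hr
        unfold lt2 at hr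
        rw [mem_filter, mem_product, mem_Ioc, mem_Ioc] at hr
        obtain ⟨⟨⟨a1, a2⟩, a3, a4⟩, a5⟩ := hr
        dsimp only at a1 a2 a3 a4 a5
        rcases hc1 with ⟨-, -, b1⟩ | ⟨-, ⟨r, hr1, hr2⟩⟩
        · exfalso
          linarith
        · have b3 := m1 r hr1
          exact h1 r b3.1 b3.2 y z (by linarith [a1] |> ne_of_gt) (by linarith |> ne_of_gt)
            (by linarith) a5 (by rw [hr2]; exact a4)
      · intro r hr
        unfold lt2 at hr
        rw [mem_filter, mem_product, mem_Ioc, mem_Ioc] at hr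
        exact ⟨hr.1.1.1, hr.1.2.1⟩
      · rw [max_eq_left h]
        have e1 := lt2_card (Ioc m (m + s))
        rw [Int.card_Ioc, add_sub_cancel_left] at e1
        have e4 : 2 * ((lt2 (Ioc m (m + s))).card : ℤ) + s.toNat = s.toNat * s.toNat := by
          exact_mod_cast e1
        rw [Int.toNat_of_nonneg s1] at e4
        nlinarith
    · refine ⟨lt2 (Ioc (N - t) (N : ℤ)), ?_, ?_, ?_⟩
      · rintro ⟨y, z⟩ hr
        unfold lt2 at hr
        rw [mem_filter, mem_product, mem_Ioc, mem_Ioc] at hr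
        obtain ⟨⟨⟨a1, a2⟩, a3, a4⟩, a5⟩ := hr
        dsimp only at a1 a2 a3 a4 a5
        rcases hc0 with ⟨-, -, b1⟩ | ⟨-, ⟨r, hr1, hr2⟩⟩
        · exfalso
          linarith
        · have b3 := m0 r hr1
          exact h3 r b3.1 b3.2 y z (by rw [hr2]; exact a1) a5 a4
      · intro r hr
        unfold lt2 at hr
        rw [mem_filter, mem_product, mem_Ioc, mem_Ioc] at hr
        exact ⟨by linarith [hr.1.1.1], by linarith [hr.1.2.1]⟩
      · rw [max_eq_right h]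
        have e1 := lt2_card (Ioc (N - t) (N : ℤ))
        rw [Int.card_Ioc, sub_sub_cancel] at e1
        have e4 : 2 * ((lt2 (Ioc (N - t) (N : ℤ))).card : ℤ) + t.toNat = t.toNat * t.toNat := by
          exact_mod_cast e1
        rw [Int.toNat_of_nonneg t2] at e4
        nlinarith
  obtain ⟨RR, fRR, mRR, cRR⟩ := exR
  -- the four sets are disjoint
  have fT1 : T1 ⊆ FR := by
    intro r hr
    rw [hT1, mem_filter] at hr
    obtain ⟨r1, r2, r3⟩ := hr
    exact h1 r (m1 r r1).1 (m1 r r1).2 r.1 r.2 r2.ne r3.ne' le_rfl (r2.trans r3) le_rfl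
  have fT0 : T0 ⊆ FR := by
    intro r hr
    rw [hT0, mem_filter] at hr
    obtain ⟨r1, k, hk, hk2⟩ := hr
    exact h4 r (m0 r r1).1 (m0 r r1).2 k hk hk2
  have mT1 : ∀ r ∈ T1, r.1 < x ∧ r.1 ≤ m ∧ m ≤ r.2 := by
    intro r hr
    rw [hT1, mem_filter] at hr
    have b := hP r (m1 r hr.1).1
    exact ⟨hr.2.1, b.2.1, b.2.2.1⟩
  have mT0 : ∀ r ∈ T0, x < r.1 ∧ r.1 ≤ m ∧ m ≤ r.2 := by
    intro r hr
    rw [hT0, mem_filter] at hr
    have b := hP r (m0 r hr.1).1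
    exact ⟨(m0 r hr.1).2, b.2.1, b.2.2.1⟩
  have d1 : Disjoint T1 T0 := by
    rw [Finset.disjoint_left]
    intro r hr hr'
    have := (mT1 r hr).1
    have := (mT0 r hr').1
    linarith
  have d2 : Disjoint (T1 ∪ T0) LL := by
    rw [Finset.disjoint_left]
    intro r hr hr'
    have b1 : m ≤ r.2 := by
      rcases mem_union.1 hr with h | h
      · exact (mT1 r h).2.2
      · exact (mT0 r h).2.2
    have := (mLL r hr').2.1.2.1
    linarith
  have d3 : Disjoint (T1 ∪ T0 ∪ LL) RR := by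
    rw [Finset.disjoint_left]
    intro r hr hr'
    have b2 := (mRR r hr').1
    rcases mem_union.1 hr with h | h
    · have b1 : r.1 ≤ m := by
        rcases mem_union.1 h with h | h
        · exact (mT1 r h).2.1
        · exact (mT0 r h).2.1
      linarith
    · have := (mLL r h).1.2.1
      linarith
  have hFR : T1.card + T0.card + LL.card + RR.card ≤ FR.card := by
    rw [← card_union_of_disjoint d1, ← card_union_of_disjoint d2, ← card_union_of_disjoint d3]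
    exact card_le_card (union_subset (union_subset (union_subset fT1 fT0) fLL) fRR)
  -- the numbers
  obtain ⟨E, hE⟩ : ∃ E, E = max s t := ⟨_, rfl⟩
  rw [← hE] at cRR
  have E1 : s ≤ E := by rw [hE]; exact le_max_left _ _
  have E2 : t ≤ E := by rw [hE]; exact le_max_right _ _
  have E3 : E ≤ N := by rw [hE]; exact max_le (by linarith) (by linarith)
  have E0 : 0 ≤ E := s1.trans E1
  have v1 : (x - p + 1) * (s + 1) ≤ (x - p + 1) * (E + 1) :=
    mul_le_mul_of_nonneg_left (by linarith) (by linarith)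
  have v2 : (q - x) * (t + 1) ≤ (q - x) * (E + 1) :=
    mul_le_mul_of_nonneg_left (by linarith) (by linarith)
  have w1 : (S1.card : ℤ) + S0.card ≤ (q - p + 1) * (E + 1) := by
    calc (S1.card : ℤ) + S0.card ≤ (x - p + 1) * (E + 1) + (q - x) * (E + 1) := by linarith
      _ = (q - p + 1) * (E + 1) := by ring
  have w2 : 2 * ((q - p + 1) * (E + 1)) ≤ (q - p + 1) ^ 2 + (E + 1) ^ 2 := by
    nlinarith [sq_nonneg ((q - p + 1) - (E + 1))]
  have w3 : (P.card : ℤ) = S1.card + S0.card := by exact_mod_cast hcard.symm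
  have w4 : (S1.card : ℤ) ≤ T1.card + 2 * N := by exact_mod_cast t1
  have w5 : (S0.card : ℤ) ≤ T0.card + 2 * N := by exact_mod_cast t0
  have w6 : (T1.card : ℤ) + T0.card + LL.card + RR.card ≤ FR.card := by exact_mod_cast hFR
  have w7 : q - p ≤ N := by linarith
  have w8 : (1 : ℤ) ≤ N := by linarith
  have w9 : (q - p + 1) ^ 2 = (q - p) ^ 2 + 2 * (q - p) + 1 := by ring
  have w10 : (E + 1) ^ 2 = E ^ 2 + 2 * E + 1 := by ring
  have goal : 2 * (P.card : ℤ) ≤ FR.card + 20 * N := by linarith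
  exact_mod_cast goal

end Pool.Agent.H3.AP
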