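import Pool.Agent.H21.AP.Refl

/-!
Reflection and the common point of the intervals (helper82, after helper3 and helper21).
-/

set_option autoImplicit false

namespace Pool.Agent.H3.AP

open Finset

open scoped Classical

/-- the statement for pairs, the centre to the left of the common point -/
def Half : Prop := ∀ (N S : ℕ), 1 ≤ S → ∀ F : Finset (Finset ℤ), (∀ A ∈ F, A ⊆ Icc 1 (N : ℤ)) →
    (∀ A ∈ F, ∀ B ∈ F, A ≠ B → Pool.Agent.H483S.IsAP (A ∩ B)) → ∀ x ∈ Icc 1 (N : ℤ),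
    ∀ G : Finset (Finset ℤ), (∀ A ∈ G, A ∈ F ∧ ¬ Pool.Agent.H483S.IsAP A ∧ x ∈ A ∧ A.card ≤ S) →
    ∀ m ∈ Icc 1 (N : ℤ), x ≤ m →
    ∀ P : Finset (ℤ × ℤ), (∀ q ∈ P, q.1 ≤ m ∧ m ≤ q.2 ∧ Icc q.1 q.2 ∈ F) →
    G.card + 2 * P.card ≤ (N - 1).choose 2 + 10 * N * (2 * S + 1) ^ 6 + 40 * N

theorem refl_mem {c : ℤ} (A : Finset ℤ) (w : ℤ) : w ∈ A.image (fun y => c - y) ↔ c - w ∈ A := by
  rw [mem_image]
  constructor
  · rintro ⟨y, hy, rfl⟩
    simpa using hy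
  · intro h
    exact ⟨c - w, h, by ring⟩

/-- the centre on either side -/
theorem half_both (half : Half) (N S : ℕ) (hS : 1 ≤ S) (F : Finset (Finset ℤ))
    (hsub : ∀ A ∈ F, A ⊆ Icc 1 (N : ℤ))
    (hint : ∀ A ∈ F, ∀ B ∈ F, A ≠ B → Pool.Agent.H483S.IsAP (A ∩ B)) (x : ℤ)
    (hxN : x ∈ Icc 1 (N : ℤ)) (G : Finset (Finset ℤ))
    (hG : ∀ A ∈ G, A ∈ F ∧ ¬ Pool.Agent.H483S.IsAP A ∧ x ∈ A ∧ A.card ≤ S)
    (m : ℤ) (hmN : m ∈ Icc 1 (N : ℤ)) (P : Finset (ℤ × ℤ))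
    (hP : ∀ q ∈ P, q.1 ≤ m ∧ m ≤ q.2 ∧ Icc q.1 q.2 ∈ F) :
    G.card + 2 * P.card ≤ (N - 1).choose 2 + 10 * N * (2 * S + 1) ^ 6 + 40 * N := by
  rcases le_or_gt x m with hxm | hxm
  · exact half N S hS F hsub hint x hxN G hG m hmN hxm P hP
  obtain ⟨c, hc⟩ : ∃ c : ℤ, c = N + 1 := ⟨_, rfl⟩
  have hinj : Function.Injective (fun y : ℤ => c - y) := fun y z h => by
    have : c - y = c - z := h
    linarith
  have hinj2 : Function.Injective (fun A : Finset ℤ => A.image (fun y => c - y)) :=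
    Finset.image_injective hinj
  have hinv : ∀ A : Finset ℤ, (A.image (fun y => c - y)).image (fun y => c - y) = A := by
    intro A
    ext w
    rw [refl_mem, refl_mem, sub_sub_cancel]
  have hG1 : (G.image (fun A => A.image (fun y => c - y))).card = G.card :=
    card_image_of_injective _ hinj2
  have hP1 : (P.image (fun q : ℤ × ℤ => (c - q.2, c - q.1))).card = P.card := by
    refine card_image_of_injective _ ?_
    rintro ⟨u, v⟩ ⟨u', v'⟩ h
    obtain ⟨e1, e2⟩ := Prod.mk.inj h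
    dsimp only at e1 e2
    exact Prod.ext (by dsimp only; linarith) (by dsimp only; linarith)
  rw [← hG1, ← hP1]
  have hx := mem_Icc.1 hxN
  have hm := mem_Icc.1 hmN
  refine half N S hS (F.image (fun A => A.image (fun y => c - y))) ?_ ?_ (c - x)
    (mem_Icc.2 ⟨by linarith, by linarith⟩) _ ?_ (c - m)
    (mem_Icc.2 ⟨by linarith, by linarith⟩) (by linarith) _ ?_
  · intro A hA w hw
    obtain ⟨B, hB, rfl⟩ := mem_image.1 hA
    have := mem_Icc.1 (hsub B hB ((refl_mem B w).1 hw))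
    rw [mem_Icc]
    constructor <;> linarith
  · intro A hA B hB hne
    obtain ⟨A', hA', rfl⟩ := mem_image.1 hA
    obtain ⟨B', hB', rfl⟩ := mem_image.1 hB
    rw [← image_inter _ _ hinj]
    exact Pool.Agent.H21.AP.IsAP.refl' (hint A' hA' B' hB' (fun h => hne (by rw [h]))) c
  · intro A hA
    obtain ⟨A', hA', rfl⟩ := mem_image.1 hA
    obtain ⟨g1, g2, g3, g4⟩ := hG A' hA'
    refine ⟨mem_image_of_mem _ g1, ?_, ?_, ?_⟩
    · intro h
      apply g2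
      have := Pool.Agent.H21.AP.IsAP.refl' h c
      rwa [hinv] at this
    · rw [refl_mem, sub_sub_cancel]
      exact g3
    · rw [card_image_of_injective _ hinj]
      exact g4
  · intro q hq
    obtain ⟨q', hq', rfl⟩ := mem_image.1 hq
    obtain ⟨g1, g2, g3⟩ := hP q' hq'
    refine ⟨by dsimp only; linarith, by dsimp only; linarith, ?_⟩
    have e : Icc (c - q'.2) (c - q'.1) = (Icc q'.1 q'.2).image (fun y => c - y) := by
      ext w
      rw [refl_mem, mem_Icc, mem_Icc]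
      constructor
      · rintro ⟨h1, h2⟩
        exact ⟨by linarith, by linarith⟩
      · rintro ⟨h1, h2⟩
        exact ⟨by linarith, by linarith⟩
    dsimp only
    rw [e]
    exact mem_image_of_mem _ g3

/-- the pairs of the end points, and the common point -/
theorem exists_common (N : ℕ) (hN : 1 ≤ N) (F : Finset (Finset ℤ))
    (hsub : ∀ A ∈ F, A ⊆ Icc 1 (N : ℤ))
    (hint : ∀ A ∈ F, ∀ B ∈ F, A ≠ B → Pool.Agent.H483S.IsAP (A ∩ B))
    (I : Finset (Finset ℤ)) (hI : ∀ J ∈ I, J ∈ F ∧ ∃ a b : ℤ, a ≤ b ∧ J = Icc a b) :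
    ∃ (m : ℤ) (P : Finset (ℤ × ℤ)), m ∈ Icc 1 (N : ℤ) ∧
      (∀ q ∈ P, q.1 ≤ m ∧ m ≤ q.2 ∧ Icc q.1 q.2 ∈ F) ∧ P.card = I.card := by
  rcases I.eq_empty_or_nonempty with h0 | hne
  · refine ⟨1, ∅, mem_Icc.2 ⟨le_rfl, by exact_mod_cast hN⟩, ?_, ?_⟩
    · intro q hq
      exact absurd hq (notMem_empty q)
    · rw [h0]
      rfl
  have hex : ∀ J ∈ I, ∃ q : ℤ × ℤ, q.1 ≤ q.2 ∧ J = Icc q.1 q.2 := by
    intro J hJ
    obtain ⟨-, a, b, hab, h⟩ := hI J hJ
    exact ⟨(a, b), hab, h⟩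
  choose! e he using hex
  obtain ⟨J0, hJ0, hmax⟩ := exists_max_image I (fun J => (e J).1) hne
  have hcom : ∀ J ∈ I, (e J0).1 ≤ (e J).2 := by
    intro J hJ
    by_cases h : J0 = J
    · rw [← h]
      exact (he J0 hJ0).1
    · obtain ⟨v, hv⟩ := Pool.Agent.H483S.IsAP.nonempty (hint J0 (hI J0 hJ0).1 J (hI J hJ).1 h)
      obtain ⟨v1, v2⟩ := mem_inter.1 hv
      rw [(he J0 hJ0).2, mem_Icc] at v1
      rw [(he J hJ).2, mem_Icc] at v2
      linarith
  have hJ0m : (e J0).1 ∈ J0 :=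
    (congrArg (fun s => (e J0).1 ∈ s) (he J0 hJ0).2).mpr (mem_Icc.2 ⟨le_rfl, (he J0 hJ0).1⟩)
  refine ⟨(e J0).1, I.image e, hsub J0 (hI J0 hJ0).1 hJ0m, ?_, ?_⟩
  · intro q hq
    obtain ⟨J, hJ, rfl⟩ := mem_image.1 hq
    refine ⟨hmax J hJ, hcom J hJ, ?_⟩
    rw [← (he J hJ).2]
    exact (hI J hJ).1
  · refine card_image_of_injOn ?_
    intro J hJ J' hJ' h
    rw [(he J hJ).2, (he J' hJ').2, h]

theorem ivl_refl (half : Half) (N S : ℕ) (F : Finset (Finset ℤ))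
    (hsub : ∀ A ∈ F, A ⊆ Icc 1 (N : ℤ))
    (hint : ∀ A ∈ F, ∀ B ∈ F, A ≠ B → Pool.Agent.H483S.IsAP (A ∩ B)) (x : ℤ)
    (hxN : x ∈ Icc 1 (N : ℤ)) (G : Finset (Finset ℤ))
    (hG : ∀ A ∈ G, A ∈ F ∧ ¬ Pool.Agent.H483S.IsAP A ∧ x ∈ A ∧ A.card ≤ S)
    (I : Finset (Finset ℤ)) (hI : ∀ J ∈ I, J ∈ F ∧ ∃ a b : ℤ, a ≤ b ∧ J = Icc a b) :
    G.card + 2 * I.card ≤ (N - 1).choose 2 + 100 * N * (2 * S + 1) ^ 6 + 100 * N := by
  have hx := mem_Icc.1 hxN
  have hN : 1 ≤ N := by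
    have : (1 : ℤ) ≤ N := hx.1.trans hx.2
    exact_mod_cast this
  obtain ⟨m, P, hm, hP, hc⟩ := exists_common N hN F hsub hint I hI
  rw [← hc]
  rcases Nat.eq_zero_or_pos S with hS | hS
  · -- no members of `G`
    have hG0 : G = ∅ := by
      rw [eq_empty_iff_forall_notMem]
      intro A hA
      obtain ⟨-, -, g3, g4⟩ := hG A hA
      rw [hS, Nat.le_zero, card_eq_zero] at g4
      rw [g4] at g3
      exact notMem_empty x g3
    rw [hG0, card_empty, zero_add, hS]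
    have hm' := mem_Icc.1 hm
    have hPc : P ⊆ Icc 1 m ×ˢ Icc m (N : ℤ) := by
      intro q hq
      obtain ⟨q1, q2, q3⟩ := hP q hq
      have a1 := mem_Icc.1 (hsub _ q3 (mem_Icc.2 ⟨le_rfl, q1.trans q2⟩ : q.1 ∈ Icc q.1 q.2))
      have a2 := mem_Icc.1 (hsub _ q3 (mem_Icc.2 ⟨q1.trans q2, le_rfl⟩ : q.2 ∈ Icc q.1 q.2))
      rw [mem_product, mem_Icc, mem_Icc]
      exact ⟨⟨a1.1, q1⟩, q2, a2.2⟩
    have h1 := card_le_card hPc
    rw [card_product, Int.card_Icc, Int.card_Icc] at h1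
    have h2 : ((P.card : ℕ) : ℤ) ≤ (((m + 1 - 1).toNat * ((N : ℤ) + 1 - m).toNat : ℕ) : ℤ) := by
      exact_mod_cast h1
    rw [Nat.cast_mul, Int.toNat_of_nonneg (by linarith), Int.toNat_of_nonneg (by linarith)] at h2
    have h3 : (N - 1).choose 2 * 2 = (N - 1) * (N - 2) := by
      have := Nat.triangle_succ (N - 2)
      rw [Nat.choose_two_right]
      rcases Nat.lt_or_ge N 2 with h | h
      · have e1 : N = 1 := by omega
        rw [e1]
      · have e1 : N - 1 - 1 = N - 2 := by omega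
        rw [e1]
        refine Nat.div_mul_cancel ?_
        have e2 : N - 1 = (N - 2) + 1 := by omega
        rw [e2, mul_comm]
        exact (Nat.even_mul_succ_self (N - 2)).two_dvd
    have h4 : (2 : ℤ) * P.card ≤ ((N - 1).choose 2 : ℕ) + 100 * N := by
      rcases Nat.lt_or_ge N 2 with h | h
      · have e1 : N = 1 := by omega
        subst e1
        push_cast at *
        nlinarith
      · have h5 : (((N - 1).choose 2 : ℕ) : ℤ) * 2 = ((N : ℤ) - 1) * ((N : ℤ) - 2) := by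
          have : (((N - 1).choose 2 * 2 : ℕ) : ℤ) = (((N - 1) * (N - 2) : ℕ) : ℤ) := by rw [h3]
          push_cast [Nat.cast_sub (by omega : 1 ≤ N), Nat.cast_sub h] at this
          exact this
        nlinarith [sq_nonneg (2 * m - (N : ℤ) - 1)]
    have h6 : 2 * P.card ≤ (N - 1).choose 2 + 100 * N := by exact_mod_cast h4
    refine h6.trans ?_
    have : (2 * 0 + 1) ^ 6 = 1 := by norm_num
    rw [this]
    omega
  · refine (half_both half N S hS F hsub hint x hxN G hG m hm P hP).trans ?_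
    have : N * (2 * S + 1) ^ 6 ≥ 0 := Nat.zero_le _
    have e1 : 10 * N * (2 * S + 1) ^ 6 ≤ 100 * N * (2 * S + 1) ^ 6 :=
      Nat.mul_le_mul_right _ (Nat.mul_le_mul_right _ (by norm_num))
    have e2 : 40 * N ≤ 100 * N := Nat.mul_le_mul_right _ (by norm_num)
    omega

end Pool.Agent.H3.AP
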