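import Pool.Agent.H3.AP.Assign

/-!
The assigned own pair, version with the UP-DOWN region.
-/

set_option autoImplicit false

namespace Pool.Agent.H3.AP

open Finset Pool.Agent.H483S Pool.Agent.H21.AP

theorem good_pair2 {N S : ℕ} (hS1 : 1 ≤ S) {F : Finset (Finset ℤ)}
    (hsub : ∀ A ∈ F, A ⊆ Icc 1 (N : ℤ))
    (hint : ∀ A ∈ F, ∀ B ∈ F, A ≠ B → Pool.Agent.H483S.IsAP (A ∩ B)) {x m : ℤ}
    (hxm : x ≤ m) (P : Finset (ℤ × ℤ)) (hPF : ∀ q ∈ P, Icc q.1 q.2 ∈ F)
    (hPm : ∀ q ∈ P, q.1 ≤ m ∧ m ≤ q.2) {B : Finset ℤ} (hB : B ∈ F)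
    (hn : ¬ Pool.Agent.H483S.IsAP B) (hxB : x ∈ B) (hBS : B.card ≤ S)
    (hmB : m ∉ B ∨ ∀ q ∈ P, q.1 ≤ x)
    (hX4 : ¬ ∃ y ∈ Icc 1 (N : ℤ), ∃ z ∈ Zs S x y, ∀ w ∈ B, w ∈ Zs S x y ∨ w ∈ Zs S x z) :
    ∃ y ∈ B, ∃ z ∈ B, y < z ∧ y ≠ x ∧ z ≠ x ∧ Own B x y z ∧
      (∀ q ∈ P, q.1 ≤ x → x ≤ q.2 → ¬ (q.1 ≤ y ∧ z ≤ q.2)) ∧
      (∀ q ∈ P, x < q.1 → ¬ (x < y ∧ z < q.1)) ∧ (∀ q ∈ P, x < q.1 → ¬ q.2 < y) ∧
      (∀ q ∈ P, ∀ q' ∈ P, x < q.1 → x < q'.1 → ¬ (y < q.1 ∧ q.2 < z ∧ q'.1 ≤ y ∧ z ≤ q'.2)) := by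
  classical
  -- intersections with intervals
  have hJne : ∀ q ∈ P, B ≠ Icc q.1 q.2 := by
    intro q hq h
    apply hn
    rw [h]
    exact isAP_Icc ((hPm q hq).1.trans (hPm q hq).2)
  have hJAP : ∀ q ∈ P, Pool.Agent.H483S.IsAP (B ∩ Icc q.1 q.2) := fun q hq =>
    hint B hB _ (hPF q hq) (hJne q hq)
  have hmeet : ∀ q ∈ P, ∃ b ∈ B, q.1 ≤ b ∧ b ≤ q.2 := by
    intro q hq
    obtain ⟨b, hb⟩ := (hJAP q hq).nonempty
    obtain ⟨h1, h2⟩ := mem_inter.1 hb
    exact ⟨b, h1, mem_Icc.1 h2⟩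
  -- own pairs are not inside an interval through x
  have hnot1 : ∀ y ∈ B, ∀ z ∈ B, y < z → Own B x y z →
      ∀ q ∈ P, q.1 ≤ x → x ≤ q.2 → ¬ (q.1 ≤ y ∧ z ≤ q.2) := by
    rintro y hy z hz hyz ho q hq h1 h2 ⟨h3, h4⟩
    exact own_unique (hJAP q hq) hxB hy hz (mem_Icc.2 ⟨h1, h2⟩) (mem_Icc.2 ⟨h3, by omega⟩)
      (mem_Icc.2 ⟨by omega, h4⟩) ho
  by_cases hS0 : ∀ q ∈ P, q.1 ≤ x
  · -- all intervals contain x
    obtain ⟨y, hy, z, hz, hyz, hyx, hzx, ho⟩ := exists_own hn hxB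
    refine ⟨y, hy, z, hz, hyz, hyx, hzx, ho, hnot1 y hy z hz hyz ho, ?_, ?_, ?_⟩
    · intro q hq h; exact absurd (hS0 q hq) (by omega)
    · intro q hq h; exact absurd (hS0 q hq) (by omega)
    · intro q hq q' hq' h; exact absurd (hS0 q hq) (by omega)
  have hmB' : m ∉ B := by
    rcases hmB with h | h
    · exact h
    · exact absurd h hS0
  push Not at hS0
  obtain ⟨q0, hq0, hq0x⟩ := hS0
  have hq0m := hPm q0 hq0
  -- the element y
  have hne1 : (B.filter (fun b => b ≤ m)).Nonempty := ⟨x, mem_filter.2 ⟨hxB, hxm⟩⟩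
  obtain ⟨y, hyM, hymax⟩ : ∃ y ∈ B.filter (fun b => b ≤ m), ∀ b ∈ B.filter (fun b => b ≤ m), b ≤ y :=
    ⟨_, max'_mem _ hne1, fun b hb => le_max' _ b hb⟩
  obtain ⟨hyB, hym⟩ := mem_filter.1 hyM
  have hymax' : ∀ b ∈ B, b ≤ m → b ≤ y := fun b hb hbm => hymax b (mem_filter.2 ⟨hb, hbm⟩)
  have hxy : x ≤ y := hymax' x hxB hxm
  have hym' : y < m := lt_of_le_of_ne hym (fun h => hmB' (h ▸ hyB))
  have hyN := hsub B hB hyB
  -- elements outside of Zs
  have hown : ∀ y0 ∈ B, y0 ≠ x → ∀ w ∈ B, w ∉ Zs S x y0 → Own B x y0 w ∧ w ≠ x ∧ w ≠ y0 := by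
    intro y0 hy0 hy0x w hw hwZ
    refine ⟨?_, ?_, ?_⟩
    · by_contra h
      exact hwZ (mem_Zs hBS hy0x h)
    · rintro rfl; exact hwZ (x_mem_Zs hS1 _ _)
    · rintro rfl; exact hwZ (self_mem_Zs hS1 _ _)
  have hesc : ∀ y0 ∈ B, ∀ z0 ∈ Zs S x y0, ∃ w ∈ B, w ∉ Zs S x y0 ∧ w ∉ Zs S x z0 := by
    intro y0 hy0 z0 hz0
    by_contra hc
    push Not at hc
    apply hX4
    refine ⟨y0, hsub B hB hy0, z0, hz0, fun w hw => ?_⟩
    by_cases h : w ∈ Zs S x y0
    · exact Or.inl h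
    · exact Or.inr (hc w hw h)
  by_cases hz : ∃ z ∈ B, m ≤ z
  swap
  · -- all of B is left of m
    push Not at hz
    have hyq : ∀ q ∈ P, x < q.1 → q.1 ≤ y := by
      intro q hq _
      obtain ⟨b, hb, h1, h2⟩ := hmeet q hq
      exact h1.trans (hymax' b hb (hz b hb).le)
    have hyx : y ≠ x := by
      have := hyq q0 hq0 hq0x
      omega
    obtain ⟨w, hw, hw1, -⟩ := hesc y hyB y (self_mem_Zs hS1 _ _)
    obtain ⟨ho, hwx, hwy⟩ := hown y hyB hyx w hw hw1
    have hwy' : w < y := lt_of_le_of_ne (hymax' w hw (hz w hw).le) hwy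
    refine ⟨w, hw, y, hyB, hwy', hwx, hyx, own_symm ho, hnot1 w hw y hyB hwy' (own_symm ho), ?_, ?_, ?_⟩
    · rintro q hq h1 ⟨h2, h3⟩
      have := hyq q hq h1
      omega
    · intro q hq h1 h2
      have := (hPm q hq).2
      omega
    · rintro q hq q' hq' h1 h2 ⟨h3, h4, h5, h6⟩
      have := (hPm q hq).2
      omega
  -- the element z
  obtain ⟨z1, hz1, hz1m⟩ := hz
  have hne2 : (B.filter (fun b => m ≤ b)).Nonempty := ⟨z1, mem_filter.2 ⟨hz1, hz1m⟩⟩
  obtain ⟨z, hzM, hzmin⟩ : ∃ z ∈ B.filter (fun b => m ≤ b), ∀ b ∈ B.filter (fun b => m ≤ b), z ≤ b :=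
    ⟨_, min'_mem _ hne2, fun b hb => min'_le _ b hb⟩
  obtain ⟨hzB, hzm⟩ := mem_filter.1 hzM
  have hzmin' : ∀ b ∈ B, m ≤ b → z ≤ b := fun b hb hbm => hzmin b (mem_filter.2 ⟨hb, hbm⟩)
  have hzm' : m < z := lt_of_le_of_ne hzm (fun h => hmB' (h ▸ hzB))
  have hgap : ∀ b ∈ B, b ≤ y ∨ z ≤ b := by
    intro b hb
    rcases le_total b m with h | h
    · exact Or.inl (hymax' b hb h)
    · exact Or.inr (hzmin' b hb h)
  have hzx : z ≠ x := by omega
  by_cases hyx : y = x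
  · -- no element between x and m
    have hzq : ∀ q ∈ P, x < q.1 → z ≤ q.2 := by
      intro q hq h
      obtain ⟨b, hb, h1, h2⟩ := hmeet q hq
      rcases hgap b hb with h3 | h3
      · omega
      · omega
    obtain ⟨w, hw, hw1, -⟩ := hesc z hzB z (self_mem_Zs hS1 _ _)
    obtain ⟨ho, hwx, hwz⟩ := hown z hzB hzx w hw hw1
    rcases hgap w hw with h | h
    · have hwx' : w < x := by omega
      have hwz' : w < z := by omega
      refine ⟨w, hw, z, hzB, hwz', hwx, hzx, own_symm ho, hnot1 w hw z hzB hwz' (own_symm ho), ?_, ?_, ?_⟩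
      · rintro q hq h1 ⟨h2, h3⟩; omega
      · intro q hq h1 h2
        have := (hPm q hq).2
        omega
      · rintro q hq q' hq' h1 h2 ⟨h3, h4, h5, h6⟩; omega
    · have hwz' : z < w := lt_of_le_of_ne h (fun h => hwz h.symm)
      refine ⟨z, hzB, w, hw, hwz', hzx, hwx, ho, hnot1 z hzB w hw hwz' ho, ?_, ?_, ?_⟩
      · rintro q hq h1 ⟨h2, h3⟩
        have := (hPm q hq).1
        omega
      · intro q hq h1 h2
        have := hzq q hq h1
        omega
      · rintro q hq q' hq' h1 h2 ⟨h3, h4, h5, h6⟩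
        have := (hPm q hq).1
        omega
  -- x < y < m < z
  have hxy' : x < y := lt_of_le_of_ne hxy (fun h => hyx h.symm)
  have hyz : y < z := by omega
  have hhit : ∀ q ∈ P, x < q.1 → q.1 ≤ y ∨ z ≤ q.2 := by
    intro q hq h
    obtain ⟨b, hb, h1, h2⟩ := hmeet q hq
    rcases hgap b hb with h3 | h3
    · left; omega
    · right; omega
  by_cases ho : Own B x y z
  · refine ⟨y, hyB, z, hzB, hyz, hyx, hzx, ho, hnot1 y hyB z hzB hyz ho, ?_, ?_, ?_⟩
    · rintro q hq h1 ⟨h2, h3⟩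
      have := (hPm q hq).1
      omega
    · intro q hq h1 h2
      have := (hPm q hq).2
      omega
    · rintro q hq q' hq' h1 h2 ⟨h3, h4, h5, h6⟩
      have := hhit q hq h1
      omega
  -- the hull of x, y, z is in B
  set g : ℤ := ((Int.gcd (y - x) (z - x) : ℕ) : ℤ) with hg
  have hgy : g ∣ y - x := Int.gcd_dvd_left ..
  have hgz : g ∣ z - x := Int.gcd_dvd_right ..
  have hg0 : 0 < g := by
    have : 0 < Int.gcd (y - x) (z - x) := Int.gcd_pos_of_ne_zero_left _ (sub_ne_zero.2 hyx)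
    rw [hg]
    exact_mod_cast this
  have hhull : ∀ v : ℤ, g ∣ v - x → x ≤ v → v ≤ z → v ∈ B := by
    intro v h1 h2 h3
    by_contra h4
    refine ho ⟨v, h4, h1, ?_, ?_⟩
    · exact (min_le_left _ _).trans h2
    · exact h3.trans ((le_max_right _ _).trans (le_max_right _ _))
  have hgyz : g ∣ z - y := by
    have := dvd_sub hgz hgy
    have e : z - x - (y - x) = z - y := by ring
    rwa [e] at this
  -- z - y = g
  have hgle : z - y ≤ g := by
    have h1 : z - g ∈ B := by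
      refine hhull _ ?_ ?_ (by omega)
      · have : z - g - x = (z - x) - g := by ring
        rw [this]
        exact dvd_sub hgz (dvd_refl g)
      · have := Int.le_of_dvd (by omega) hgz
        omega
    rcases hgap _ h1 with h2 | h2
    · omega
    · omega
  have hgeq : z - y = g := le_antisymm hgle (Int.le_of_dvd (by omega) hgyz)
  obtain ⟨w, hw, hw1, hw2⟩ := hesc y hyB z (mem_Zs hBS hyx ho)
  obtain ⟨ho1, hwx, hwy⟩ := hown y hyB hyx w hw hw1
  obtain ⟨ho2, -, hwz⟩ := hown z hzB hzx w hw hw2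
  -- if w, y, z are in an interval member, then g ∣ w - y and the intersection has difference g
  have hkey : ∀ q ∈ P, q.1 ≤ w → w ≤ q.2 → q.1 ≤ y → z ≤ q.2 → g ∣ w - y := by
    intro q hq h1 h2 h3 h4
    have hwJ : w ∈ B ∩ Icc q.1 q.2 := mem_inter.2 ⟨hw, mem_Icc.2 ⟨h1, h2⟩⟩
    have hyJ : y ∈ B ∩ Icc q.1 q.2 := mem_inter.2 ⟨hyB, mem_Icc.2 ⟨h3, by omega⟩⟩
    have hzJ : z ∈ B ∩ Icc q.1 q.2 := mem_inter.2 ⟨hzB, mem_Icc.2 ⟨by omega, h4⟩⟩
    set h : ℤ := ((Int.gcd (z - y) (w - y) : ℕ) : ℤ) with hh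
    have hhz : h ∣ z - y := Int.gcd_dvd_left ..
    have hhw : h ∣ w - y := Int.gcd_dvd_right ..
    have hh0 : 0 < h := by
      have : 0 < Int.gcd (z - y) (w - y) := Int.gcd_pos_of_ne_zero_left _ (by omega)
      rw [hh]
      exact_mod_cast this
    have hhle := Int.le_of_dvd (by omega) hhz
    have h5 : y + h ∈ B ∩ Icc q.1 q.2 := by
      refine hull_shift (hJAP q hq) hyJ hzJ hwJ (w := y + h) ?_ ?_ ?_
      · rw [add_sub_cancel_left]
      · exact (min_le_left _ _).trans (by omega)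
      · exact (show y + h ≤ z by omega).trans ((le_max_left _ _).trans (le_max_right _ _))
    have h6 : z - y ≤ h := by
      rcases hgap _ (mem_inter.1 h5).1 with h7 | h7
      · omega
      · omega
    have h7 : h = g := by rw [← hgeq]; omega
    rwa [h7] at hhw
  rcases hgap w hw with hwle | hwge
  · have hwy' : w < y := lt_of_le_of_ne hwle hwy
    have hwz' : w < z := by omega
    refine ⟨w, hw, z, hzB, hwz', hwx, hzx, own_symm ho2, hnot1 w hw z hzB hwz' (own_symm ho2), ?_, ?_, ?_⟩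
    · rintro q hq h1 ⟨h2, h3⟩
      have := (hPm q hq).1
      omega
    · intro q hq h1 h2
      have := (hPm q hq).2
      omega
    · rintro q hq q' hq' h1 h2 ⟨h8, h9, h10, h11⟩
      have h3 := hkey q' hq' h10 (by omega) (by omega) h11
      -- Own B x y w fails
      obtain ⟨v, hvB, hv1, hv2, hv3⟩ := ho1
      apply hvB
      have e1 : g ∣ w - x := by
        have := dvd_add h3 hgy
        have e : w - y + (y - x) = w - x := by ring
        rwa [e] at this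
      have e2 : g ∣ v - x := (Int.dvd_coe_gcd hgy e1).trans hv1
      have e3 : min x (min y w) = x := by omega
      have e4 : max x (max y w) = y := by omega
      rw [e3] at hv2
      rw [e4] at hv3
      exact hhull v e2 hv2 (by omega)
  · have hwz' : z < w := lt_of_le_of_ne hwge (fun h => hwz h.symm)
    have hyw' : y < w := by omega
    refine ⟨y, hyB, w, hw, hyw', hyx, hwx, ho1, hnot1 y hyB w hw hyw' ho1, ?_, ?_, ?_⟩
    · rintro q hq h1 ⟨h2, h3⟩
      have := (hPm q hq).1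
      omega
    · intro q hq h1 h2
      have := (hPm q hq).2
      omega
    · rintro q hq q' hq' h1 h2 ⟨h8, h9, h10, h11⟩
      have h3 := hkey q' hq' (by omega) h11 h10 (by omega)
      obtain ⟨v, hvB, hv1, hv2, hv3⟩ := ho1
      apply hvB
      have e1 : g ∣ w - x := by
        have := dvd_add h3 hgy
        have e : w - y + (y - x) = w - x := by ring
        rwa [e] at this
      have e2 : g ∣ v - x := (Int.dvd_coe_gcd hgy e1).trans hv1
      have e3 : min x (min y w) = x := by omega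
      have e4 : max x (max y w) = w := by omega
      rw [e3] at hv2
      rw [e4] at hv3
      rcases le_total v z with h4 | h4
      · exact hhull v e2 hv2 h4
      · -- v between z and w, in the intersection with the interval
        have hyJ : y ∈ B ∩ Icc q'.1 q'.2 := mem_inter.2 ⟨hyB, mem_Icc.2 ⟨h10, by omega⟩⟩
        have hzJ : z ∈ B ∩ Icc q'.1 q'.2 := mem_inter.2 ⟨hzB, mem_Icc.2 ⟨by omega, by omega⟩⟩
        have hwJ : w ∈ B ∩ Icc q'.1 q'.2 := mem_inter.2 ⟨hw, mem_Icc.2 ⟨by omega, h11⟩⟩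
        have h5 : g ∣ v - y := by
          have := dvd_sub e2 hgy
          have e : v - x - (y - x) = v - y := by ring
          rwa [e] at this
        refine (mem_inter.1 (hull_shift (hJAP q' hq') hyJ hzJ hwJ (w := v) ?_ ?_ ?_)).1
        · have h6 : ((Int.gcd (z - y) (w - y) : ℕ) : ℤ) ∣ z - y := Int.gcd_dvd_left ..
          have h7 : z - y ∣ v - y := by rw [hgeq]; exact h5
          exact h6.trans h7
        · exact (min_le_left _ _).trans (by omega)
        · exact hv3.trans ((le_max_right _ _).trans (le_max_right _ _))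

end Pool.Agent.H3.AP
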