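import Mathlib

/-!
The proportion of coprime points in a finite down-set of positive pairs is at least `0.528`.
-/

set_option autoImplicit false

namespace Pool.Agent.H3.AP

open Finset

/-- a finite down-set of pairs of positive integers -/
def Down (D : Finset (ℕ × ℕ)) : Prop :=
  (∀ p ∈ D, 1 ≤ p.1 ∧ 1 ≤ p.2) ∧
  ∀ p ∈ D, ∀ a b : ℕ, 1 ≤ a → a ≤ p.1 → 1 ≤ b → b ≤ p.2 → (a, b) ∈ D

theorem mult_card {D : Finset (ℕ × ℕ)} (hD : Down D) (r : ℕ) (hr : 1 ≤ r) :
    (D.filter (fun p => r ∣ p.1 ∧ r ∣ p.2)).card * r ^ 2 ≤ D.card := by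
  classical
  obtain ⟨hpos, hdown⟩ := hD
  have key : ((D.filter (fun p => r ∣ p.1 ∧ r ∣ p.2)) ×ˢ ((range r) ×ˢ (range r))).card ≤ D.card := by
    apply card_le_card_of_injOn (fun t => (t.1.1 - t.2.1, t.1.2 - t.2.2))
    · rintro ⟨⟨p, q⟩, a, b⟩ ht
      rw [mem_coe, mem_product, mem_filter, mem_product, mem_range, mem_range] at ht
      obtain ⟨⟨h1, h2, h3⟩, h4, h5⟩ := ht
      dsimp only at h1 h2 h3 h4 h5 ⊢
      obtain ⟨hp, hq⟩ := hpos _ h1
      dsimp only at hp hq
      have hrp : r ≤ p := Nat.le_of_dvd hp h2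
      have hrq : r ≤ q := Nat.le_of_dvd hq h3
      exact hdown (p, q) h1 (p - a) (q - b) (by omega) (by dsimp only; omega) (by omega)
        (by dsimp only; omega)
    · rintro ⟨⟨p, q⟩, a, b⟩ ht ⟨⟨p', q'⟩, a', b'⟩ ht' heq
      rw [mem_coe, mem_product, mem_filter, mem_product, mem_range, mem_range] at ht ht'
      obtain ⟨⟨h1, h2, h3⟩, h4, h5⟩ := ht
      obtain ⟨⟨h1', h2', h3'⟩, h4', h5'⟩ := ht'
      dsimp only at h1 h2 h3 h4 h5 h1' h2' h3' h4' h5' heq
      obtain ⟨hp, hq⟩ := hpos _ h1
      obtain ⟨hp', hq'⟩ := hpos _ h1'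
      dsimp only at hp hq hp' hq'
      obtain ⟨e1, e2⟩ := Prod.mk.inj heq
      have step : ∀ u v c d : ℕ, r ∣ u → r ∣ v → 1 ≤ u → 1 ≤ v → c < r → d < r → u - c = v - d →
          u = v ∧ c = d := by
        rintro u v c d ⟨k, rfl⟩ ⟨l, rfl⟩ hu hv hc hd h
        have hk : 1 ≤ k := by
          rcases Nat.eq_zero_or_pos k with rfl | h
          · simp at hu
          · exact h
        have hl : 1 ≤ l := by
          rcases Nat.eq_zero_or_pos l with rfl | h
          · simp at hv
          · exact h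
        have hkr : r ≤ r * k := Nat.le_mul_of_pos_right _ hk
        have hlr : r ≤ r * l := Nat.le_mul_of_pos_right _ hl
        have hkl : k = l := by
          rcases lt_trichotomy k l with h' | h' | h'
          · exfalso
            have : r * k + r ≤ r * l := by
              calc r * k + r = r * (k + 1) := by ring
                _ ≤ r * l := Nat.mul_le_mul_left _ h'
            omega
          · exact h'
          · exfalso
            have : r * l + r ≤ r * k := by
              calc r * l + r = r * (l + 1) := by ring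
                _ ≤ r * k := Nat.mul_le_mul_left _ h'
            omega
        subst hkl
        exact ⟨rfl, by omega⟩
      obtain ⟨f1, f2⟩ := step p p' a a' h2 h2' hp hp' h4 h4' e1
      obtain ⟨g1, g2⟩ := step q q' b b' h3 h3' hq hq' h5 h5' e2
      subst f1; subst f2; subst g1; subst g2
      rfl
  rw [card_product, card_product, card_range] at key
  calc _ = _ := by ring
    _ ≤ D.card := key

theorem tail_sum (K : ℕ) : ∑ k ∈ Ico 5 (5 + K), (1 : ℚ) / ((2 * k + 1 : ℕ) : ℚ) ^ 2 ≤
    1 / 20 - 1 / (4 * ((5 + K : ℕ) : ℚ)) := by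
  induction K with
  | zero => norm_num
  | succ K ih =>
    rw [← add_assoc, Finset.sum_Ico_succ_top (by omega)]
    have h : (1 : ℚ) / ((2 * (5 + K) + 1 : ℕ) : ℚ) ^ 2 ≤
        1 / (4 * ((5 + K : ℕ) : ℚ)) - 1 / (4 * ((5 + K + 1 : ℕ) : ℚ)) := by
      have hx : (0 : ℚ) < ((5 + K : ℕ) : ℚ) := by positivity
      push_cast
      push_cast at hx
      rw [div_sub_div _ _ (by positivity) (by positivity), div_le_div_iff₀ (by positivity) (by positivity)]
      have hK : (0 : ℚ) ≤ K := Nat.cast_nonneg K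
      nlinarith
    linarith

/-- at least `52.8 %` of the points of a down-set are coprime -/
theorem coprime_down {D : Finset (ℕ × ℕ)} (hD : Down D) :
    528 * D.card ≤ 1000 * (D.filter (fun p => Nat.Coprime p.1 p.2)).card := by
  classical
  set C := D.filter (fun p => Nat.Coprime p.1 p.2) with hC
  set Z := D.filter (fun p => ¬ Nat.Coprime p.1 p.2) with hZ
  have hsplit : C.card + Z.card = D.card := card_filter_add_card_filter_not _
  set E : ℕ → Finset (ℕ × ℕ) := fun r => D.filter (fun p => r ∣ p.1 ∧ r ∣ p.2) with hE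
  have hEc : ∀ r : ℕ, 1 ≤ r → ((E r).card : ℚ) ≤ D.card * (1 / (r : ℚ) ^ 2) := by
    intro r hr
    have h := mult_card hD r hr
    have h' : ((E r).card : ℚ) * (r : ℚ) ^ 2 ≤ D.card := by exact_mod_cast h
    have hr0 : (0 : ℚ) < (r : ℚ) ^ 2 := by
      have : (0 : ℚ) < r := by exact_mod_cast hr
      positivity
    rw [mul_one_div, le_div_iff₀ hr0]
    exact h'
  set M := D.sup (fun p => p.1) with hM
  have hZsub : Z ⊆ ((E 2 ∪ E 3) ∪ (E 5 ∪ E 7)) ∪ (Ico 5 (5 + M)).biUnion (fun k => E (2 * k + 1)) := by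
    intro p hp
    obtain ⟨hpD, hpn⟩ := mem_filter.1 hp
    obtain ⟨r, hr, hr1, hr2⟩ := Nat.Prime.not_coprime_iff_dvd.1 hpn
    have hmem : p ∈ E r := mem_filter.2 ⟨hpD, hr1, hr2⟩
    have hrM : r ≤ M := (Nat.le_of_dvd (hD.1 p hpD).1 hr1).trans
      (le_sup (f := fun p : ℕ × ℕ => p.1) hpD)
    by_cases h11 : r < 11
    · apply mem_union_left
      interval_cases r
      · exact absurd hr (by norm_num)
      · exact absurd hr (by norm_num)
      · exact mem_union_left _ (mem_union_left _ hmem)
      · exact mem_union_left _ (mem_union_right _ hmem)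
      · exact absurd hr (by norm_num)
      · exact mem_union_right _ (mem_union_left _ hmem)
      · exact absurd hr (by norm_num)
      · exact mem_union_right _ (mem_union_right _ hmem)
      · exact absurd hr (by norm_num)
      · exact absurd hr (by norm_num)
      · exact absurd hr (by norm_num)
    · apply mem_union_right
      have hodd : r % 2 = 1 := by
        rcases hr.eq_two_or_odd with h | h
        · omega
        · exact h
      refine mem_biUnion.2 ⟨r / 2, mem_Ico.2 ⟨by omega, by omega⟩, ?_⟩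
      have : 2 * (r / 2) + 1 = r := by omega
      rw [this]
      exact hmem
  have hZc : (Z.card : ℚ) ≤ D.card * (472 / 1000) := by
    have h1 : Z.card ≤ ((E 2).card + (E 3).card + ((E 5).card + (E 7).card)) +
        ∑ k ∈ Ico 5 (5 + M), (E (2 * k + 1)).card := by
      refine (card_le_card hZsub).trans ((card_union_le _ _).trans ?_)
      refine Nat.add_le_add ((card_union_le _ _).trans ?_) card_biUnion_le
      exact Nat.add_le_add (card_union_le _ _) (card_union_le _ _)
    have h2 : (Z.card : ℚ) ≤ (((E 2).card : ℚ) + (E 3).card + ((E 5).card + (E 7).card)) +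
        ∑ k ∈ Ico 5 (5 + M), ((E (2 * k + 1)).card : ℚ) := by exact_mod_cast h1
    have h3 : ∑ k ∈ Ico 5 (5 + M), ((E (2 * k + 1)).card : ℚ) ≤
        D.card * (1 / 20) := by
      calc ∑ k ∈ Ico 5 (5 + M), ((E (2 * k + 1)).card : ℚ)
          ≤ ∑ k ∈ Ico 5 (5 + M), (D.card : ℚ) * (1 / ((2 * k + 1 : ℕ) : ℚ) ^ 2) :=
            sum_le_sum (fun k _ => hEc _ (by omega))
        _ = D.card * ∑ k ∈ Ico 5 (5 + M), (1 : ℚ) / ((2 * k + 1 : ℕ) : ℚ) ^ 2 := by rw [mul_sum]
        _ ≤ D.card * (1 / 20) := by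
            refine mul_le_mul_of_nonneg_left ?_ (Nat.cast_nonneg _)
            have := tail_sum M
            have h0 : (0 : ℚ) ≤ 1 / (4 * ((5 + M : ℕ) : ℚ)) := by positivity
            linarith
    have e2 := hEc 2 (by norm_num)
    have e3 := hEc 3 (by norm_num)
    have e5 := hEc 5 (by norm_num)
    have e7 := hEc 7 (by norm_num)
    have hD0 : (0 : ℚ) ≤ D.card := Nat.cast_nonneg _
    norm_num at e2 e3 e5 e7
    nlinarith
  have h4 : (C.card : ℚ) + Z.card = D.card := by exact_mod_cast hsplit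
  have h5 : (528 : ℚ) * D.card ≤ 1000 * C.card := by linarith
  exact_mod_cast h5

end Pool.Agent.H3.AP
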