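import Mathlib

/-!
Pairwise intersecting progressions with a given difference.
-/

set_option autoImplicit false

namespace Pool.Agent.H3.AP

open Finset

/-- the progression `a, a+d, ..., a+(l-1)d` -/
def stp (d : ℕ) (a : ℤ) (l : ℕ) : Finset ℤ := (range l).image (fun i : ℕ => a + i * (d : ℤ))

theorem mem_stp {d : ℕ} {a : ℤ} {l : ℕ} {w : ℤ} :
    w ∈ stp d a l ↔ ∃ i : ℕ, i < l ∧ a + i * (d : ℤ) = w := by
  unfold stp
  simp only [mem_image, mem_range]

theorem start_mem {d : ℕ} {a : ℤ} {l : ℕ} (hl : 1 ≤ l) : a ∈ stp d a l :=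
  mem_stp.2 ⟨0, by omega, by simp⟩

theorem end_mem {d : ℕ} {a : ℤ} {l : ℕ} (hl : 1 ≤ l) : a + ((l - 1 : ℕ) : ℤ) * d ∈ stp d a l :=
  mem_stp.2 ⟨l - 1, by omega, rfl⟩

theorem card_stp_le (d : ℕ) (a : ℤ) (l : ℕ) : (stp d a l).card ≤ l := by
  unfold stp
  exact card_image_le.trans (by rw [card_range])

/-- `N/d`-type bound for the number of elements -/
theorem len_le {N d : ℕ} (hd : 1 ≤ d) {a : ℤ} {l : ℕ} (hl : 1 ≤ l)
    (hsub : stp d a l ⊆ Icc 1 (N : ℤ)) : (l - 1) * d + 1 ≤ N := by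
  have h1 := mem_Icc.1 (hsub (start_mem (d := d) (a := a) hl))
  have h2 := mem_Icc.1 (hsub (end_mem (d := d) (a := a) hl))
  have h3 : (((l - 1) * d + 1 : ℕ) : ℤ) ≤ N := by
    push_cast
    linarith [h1.1, h2.2]
  exact_mod_cast h3

/-- pairwise intersecting progressions with difference `d` -/
theorem diff_count (N d : ℕ) (hd : 1 ≤ d) (G : Finset (Finset ℤ)) (hsub : ∀ A ∈ G, A ⊆ Icc 1 (N : ℤ))
    (hG : ∀ A ∈ G, ∃ (a : ℤ) (l : ℕ), 1 ≤ l ∧ A = stp d a l)
    (hint : ∀ A ∈ G, ∀ B ∈ G, (A ∩ B).Nonempty) : 4 * G.card ≤ (N / d + 2) ^ 2 := by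
  classical
  rcases G.eq_empty_or_nonempty with rfl | hne
  · simp
  choose! a l hl hA using hG
  obtain ⟨A0, hA0, hmax⟩ := exists_max_image G a hne
  have hd0 : (0 : ℤ) < d := by exact_mod_cast hd
  -- coordinates
  have hco : ∀ A ∈ G, ∃ u v : ℕ, a A = a A0 - u * d ∧ a A + ((l A - 1 : ℕ) : ℤ) * d = a A0 + v * d := by
    intro A hAG
    obtain ⟨w, hw⟩ := hint A hAG A0 hA0
    obtain ⟨hw1, hw2⟩ := mem_inter.1 hw
    rw [hA A hAG] at hw1
    rw [hA A0 hA0] at hw2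
    obtain ⟨i, hi, ei⟩ := mem_stp.1 hw1
    obtain ⟨j, hj, ej⟩ := mem_stp.1 hw2
    have hm := hmax A hAG
    have hji : j ≤ i := by
      by_contra hc
      push Not at hc
      have : (i : ℤ) * d < j * d := by
        have : (i : ℤ) < j := by exact_mod_cast hc
        nlinarith
      linarith
    refine ⟨i - j, l A - 1 - (i - j), ?_, ?_⟩
    · have : ((i - j : ℕ) : ℤ) = (i : ℤ) - j := by omega
      rw [this]; linarith
    · have e1 : ((l A - 1 - (i - j) : ℕ) : ℤ) = ((l A - 1 : ℕ) : ℤ) - ((i : ℤ) - j) := by omega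
      rw [e1]; linarith
  choose! u v hu hv using hco
  have h0 := mem_Icc.1 (hsub A0 hA0 (by rw [hA A0 hA0]; exact start_mem (hl A0 hA0)))
  -- bounds
  set p := ((a A0).toNat - 1) / d with hp
  set q := (N - (a A0).toNat) / d with hq
  have hub : ∀ A ∈ G, u A ≤ p := by
    intro A hAG
    have h1 := mem_Icc.1 (hsub A hAG (by rw [hA A hAG]; exact start_mem (hl A hAG)))
    have h2 := hu A hAG
    rw [hp, Nat.le_div_iff_mul_le hd]
    have : ((u A * d : ℕ) : ℤ) ≤ (((a A0).toNat - 1 : ℕ) : ℤ) := by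
      push_cast
      have : (((a A0).toNat - 1 : ℕ) : ℤ) = a A0 - 1 := by omega
      rw [this]; linarith [h1.1]
    exact_mod_cast this
  have hvb : ∀ A ∈ G, v A ≤ q := by
    intro A hAG
    have h1 := mem_Icc.1 (hsub A hAG (by rw [hA A hAG]; exact end_mem (hl A hAG)))
    have h2 := hv A hAG
    rw [hq, Nat.le_div_iff_mul_le hd]
    have : ((v A * d : ℕ) : ℤ) ≤ ((N - (a A0).toNat : ℕ) : ℤ) := by
      push_cast
      have : ((N - (a A0).toNat : ℕ) : ℤ) = N - a A0 := by omega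
      rw [this]; linarith [h1.2]
    exact_mod_cast this
  have hcard : G.card ≤ ((range (p + 1)) ×ˢ (range (q + 1))).card := by
    apply card_le_card_of_injOn (fun A => (u A, v A))
    · intro A hAG
      rw [mem_coe, mem_product, mem_range, mem_range]
      exact ⟨Nat.lt_succ_of_le (hub A hAG), Nat.lt_succ_of_le (hvb A hAG)⟩
    · intro A hAG B hBG h
      obtain ⟨h1, h2⟩ := Prod.mk.inj h
      have ea : a A = a B := by rw [hu A hAG, hu B hBG, h1]
      have el : l A = l B := by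
        have e1 := hv A hAG
        have e2 := hv B hBG
        rw [h2, ← e2, ea] at e1
        have e3 : ((l A - 1 : ℕ) : ℤ) * d = ((l B - 1 : ℕ) : ℤ) * d := by linarith
        have e4 := mul_right_cancel₀ hd0.ne' e3
        have e5 : l A - 1 = l B - 1 := by exact_mod_cast e4
        have := hl A hAG
        have := hl B hBG
        omega
      rw [hA A hAG, hA B hBG, ea, el]
  rw [card_product, card_range, card_range] at hcard
  have hpq : p + q ≤ N / d := by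
    rw [hp, hq]
    calc ((a A0).toNat - 1) / d + (N - (a A0).toNat) / d ≤ (((a A0).toNat - 1) + (N - (a A0).toNat)) / d :=
          Nat.add_div_le_add_div _ _ _
      _ ≤ N / d := Nat.div_le_div_right (by omega)
  have h5 : 4 * ((p + 1) * (q + 1)) ≤ (p + q + 2) ^ 2 := by
    have : (4 * (((p : ℤ) + 1) * (q + 1))) ≤ ((p : ℤ) + q + 2) ^ 2 := by
      nlinarith [sq_nonneg ((p : ℤ) - q)]
    exact_mod_cast this
  calc 4 * G.card ≤ 4 * ((p + 1) * (q + 1)) := Nat.mul_le_mul_left _ hcard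
    _ ≤ (p + q + 2) ^ 2 := h5
    _ ≤ (N / d + 2) ^ 2 := Nat.pow_le_pow_left (by omega) 2

theorem tele (D K : ℕ) (hD : 1 ≤ D) : ∑ d ∈ Ico D (D + K), (1 : ℚ) / (d : ℚ) ^ 2 ≤
    2 / (2 * D - 1 : ℚ) - 2 / (2 * (D + K : ℕ) - 1 : ℚ) := by
  have hD' : (1 : ℚ) ≤ D := by exact_mod_cast hD
  induction K with
  | zero => simp
  | succ K ih =>
    rw [← add_assoc, Finset.sum_Ico_succ_top (by omega)]
    have hK : (0 : ℚ) ≤ K := Nat.cast_nonneg K
    have h : (1 : ℚ) / ((D + K : ℕ) : ℚ) ^ 2 ≤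
        2 / (2 * (D + K : ℕ) - 1 : ℚ) - 2 / (2 * (D + K + 1 : ℕ) - 1 : ℚ) := by
      push_cast
      set t : ℚ := (D : ℚ) + K with ht
      have ht1 : 1 ≤ t := by linarith
      have e1 : (0 : ℚ) < 2 * t - 1 := by linarith
      have e2 : (0 : ℚ) < 2 * (t + 1) - 1 := by linarith
      rw [div_sub_div _ _ e1.ne' e2.ne', div_le_div_iff₀ (by positivity) (by positivity)]
      nlinarith
    linarith

/-- the sum over the differences `d ≥ D` -/
theorem sum_sq_le (N D : ℕ) (hD : 1 ≤ D) :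
    ((∑ d ∈ Ico D (D + N), (N / d + 2) ^ 2 : ℕ) : ℚ) ≤
      (N : ℚ) ^ 2 * (2 / (2 * D - 1 : ℚ)) + 4 * (∑ d ∈ Ico D (D + N), N / d : ℕ) + 4 * N := by
  have hterm : ∀ d ∈ Ico D (D + N), (((N / d + 2) ^ 2 : ℕ) : ℚ) ≤
      (N : ℚ) ^ 2 * (1 / (d : ℚ) ^ 2) + 4 * ((N / d : ℕ) : ℚ) + 4 := by
    intro d hd
    have hd1 : 1 ≤ d := hD.trans (mem_Ico.1 hd).1
    have hd0 : (0 : ℚ) < d := by exact_mod_cast hd1
    have h1 : ((N / d : ℕ) : ℚ) ≤ N / d := Nat.cast_div_le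
    have h2 : ((N / d : ℕ) : ℚ) ^ 2 ≤ (N : ℚ) ^ 2 * (1 / (d : ℚ) ^ 2) := by
      have : ((N / d : ℕ) : ℚ) ^ 2 ≤ ((N : ℚ) / d) ^ 2 :=
        pow_le_pow_left₀ (Nat.cast_nonneg _) h1 2
      calc _ ≤ _ := this
        _ = _ := by rw [div_pow, mul_one_div]
    push_cast
    nlinarith
  have h := sum_le_sum hterm
  have hcard : (Ico D (D + N)).card = N := by rw [Nat.card_Ico]; omega
  calc ((∑ d ∈ Ico D (D + N), (N / d + 2) ^ 2 : ℕ) : ℚ)
      = ∑ d ∈ Ico D (D + N), (((N / d + 2) ^ 2 : ℕ) : ℚ) := by push_cast; rfl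
    _ ≤ _ := h
    _ = (N : ℚ) ^ 2 * ∑ d ∈ Ico D (D + N), (1 / (d : ℚ) ^ 2) +
        4 * (∑ d ∈ Ico D (D + N), N / d : ℕ) + 4 * N := by
        rw [sum_add_distrib, sum_add_distrib, ← mul_sum, ← mul_sum, sum_const, hcard]
        push_cast
        ring
    _ ≤ _ := by
        have h3 := tele D N hD
        have h4 : (0 : ℚ) ≤ 2 / (2 * (D + N : ℕ) - 1 : ℚ) := by
          have hD' : (1 : ℚ) ≤ D := by exact_mod_cast hD
          have hN' : (0 : ℚ) ≤ N := Nat.cast_nonneg N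
          have : (0 : ℚ) < 2 * (D + N : ℕ) - 1 := by push_cast; linarith
          positivity
        have h5 : (N : ℚ) ^ 2 * ∑ d ∈ Ico D (D + N), (1 / (d : ℚ) ^ 2) ≤
            (N : ℚ) ^ 2 * (2 / (2 * D - 1 : ℚ)) :=
          mul_le_mul_of_nonneg_left (by linarith) (by positivity)
        linarith

end Pool.Agent.H3.AP
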