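import Mathlib

/-!
The count of the free pairs `(y, z)` with `gcd (y - x, z - x) = 1` for a family of intervals (helper82,
after the paper proof of helper3).
-/

set_option autoImplicit false

namespace Pool.Agent.H3.AP

open Finset

open scoped Classical

/-- the count for an UP-DOWN region -/
def Updn : Prop := ∀ (N L D : ℕ), N < 2 ^ L → ∀ S : Finset (ℕ × ℕ), (∀ s ∈ S, s.1 ≤ N ∧ s.2 ≤ N) →
  ∀ R : Finset (ℕ × ℕ), (∀ s ∈ S, ∀ s' ∈ S, ∀ p q : ℕ, s.1 < p → s.2 < q → p ≤ s'.1 → q ≤ s'.2 →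
    (p, q) ∈ R) →
  528 * S.card ≤ 1000 * (R.filter (fun r => Int.gcd ((D : ℤ) - r.1) ((D : ℤ) + r.2) = 1)).card +
    10 ^ 5 * N * (L + 1) + 10 ^ 5

/-- the coprime pairs `y < z` (seen from `x`) in the interval `(a, b]` -/
noncomputable def cp2 (x a b : ℤ) : Finset (ℤ × ℤ) :=
  ((Ioc a b) ×ˢ (Ioc a b)).filter
    (fun r => r.1 < r.2 ∧ r.1 ≠ x ∧ r.2 ≠ x ∧ Int.gcd (r.1 - x) (r.2 - x) = 1)

/-- the count for an interval -/
def TriInt : Prop := ∀ (N L : ℕ), N < 2 ^ L → ∀ x a b : ℤ, a ≤ b → b - a ≤ N →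
  528 * (b - a) ^ 2 ≤ 2000 * ((cp2 x a b).card : ℤ) + 10 ^ 5 * N * (L + 1)

theorem mem_cp2 {x a b : ℤ} {r : ℤ × ℤ} : r ∈ cp2 x a b ↔ ((a < r.1 ∧ r.1 ≤ b) ∧ (a < r.2 ∧ r.2 ≤ b)) ∧
    r.1 < r.2 ∧ r.1 ≠ x ∧ r.2 ≠ x ∧ Int.gcd (r.1 - x) (r.2 - x) = 1 := by
  unfold cp2
  rw [mem_filter, mem_product, mem_Ioc, mem_Ioc]

theorem free_count2 (updn : Updn) (tri : TriInt) (N L : ℕ) (hL : N < 2 ^ L) (x m : ℤ) (hx : 1 ≤ x)
    (hxm : x ≤ m) (hm : m ≤ N) (P : Finset (ℤ × ℤ))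
    (hP : ∀ q ∈ P, 1 ≤ q.1 ∧ q.1 ≤ m ∧ m ≤ q.2 ∧ q.2 ≤ N) (FR : Finset (ℤ × ℤ))
    (h1 : ∀ q ∈ P, q.1 ≤ x → ∀ y z : ℤ, y ≠ x → z ≠ x → q.1 ≤ y → y < z → z ≤ q.2 → (y, z) ∈ FR)
    (h2 : ∀ q ∈ P, x < q.1 → ∀ y z : ℤ, x < y → y < z → z < q.1 → (y, z) ∈ FR)
    (h3 : ∀ q ∈ P, x < q.1 → ∀ y z : ℤ, q.2 < y → y < z → z ≤ N → (y, z) ∈ FR)
    (h4 : ∀ q ∈ P, ∀ q' ∈ P, x < q.1 → x < q'.1 → ∀ y z : ℤ, y < q.1 → q.2 < z → q'.1 ≤ y →
      z ≤ q'.2 → (y, z) ∈ FR) :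
    1056 * P.card ≤ 1000 * (FR.filter (fun r => Int.gcd (r.1 - x) (r.2 - x) = 1)).card +
      10 ^ 6 * N * (L + 1) := by
  obtain ⟨FG, hFG⟩ : ∃ FG, FG = FR.filter (fun r => Int.gcd (r.1 - x) (r.2 - x) = 1) := ⟨_, rfl⟩
  rw [← hFG]
  obtain ⟨S1, hS1⟩ : ∃ S1, S1 = P.filter fun q => q.1 ≤ x := ⟨_, rfl⟩
  obtain ⟨S0, hS0⟩ : ∃ S0, S0 = P.filter fun q => ¬ q.1 ≤ x := ⟨_, rfl⟩
  have m1 : ∀ r ∈ S1, r ∈ P ∧ r.1 ≤ x := fun r hr => by rwa [hS1, mem_filter] at hr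
  have m0 : ∀ r ∈ S0, r ∈ P ∧ x < r.1 := fun r hr => by
    rw [hS0, mem_filter] at hr
    exact ⟨hr.1, not_le.1 hr.2⟩
  have hcard : S1.card + S0.card = P.card := by
    rw [hS1, hS0, card_filter_add_card_filter_not]
  -- the coordinates
  obtain ⟨D, hD⟩ : ∃ D : ℕ, (D : ℤ) = m - x := ⟨(m - x).toNat, Int.toNat_of_nonneg (by linarith)⟩
  have hcoord : ∀ q ∈ P, ∃ s : ℕ × ℕ, (s.1 : ℤ) = m - q.1 ∧ (s.2 : ℤ) = q.2 - m := by
    intro q hq
    have b := hP q hq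
    exact ⟨((m - q.1).toNat, (q.2 - m).toNat), Int.toNat_of_nonneg (by linarith),
      Int.toNat_of_nonneg (by linarith)⟩
  choose! φ hφ using hcoord
  have hφinj : Set.InjOn φ (P : Set (ℤ × ℤ)) := by
    intro q hq q' hq' h
    have a1 := hφ q hq
    have a2 := hφ q' hq'
    rw [h] at a1
    exact Prod.ext (by linarith [a1.1, a2.1]) (by linarith [a1.2, a2.2])
  have hφN : ∀ q ∈ P, (φ q).1 ≤ N ∧ (φ q).2 ≤ N := by
    intro q hq
    have a1 := hφ q hq
    have b := hP q hq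
    constructor
    · have : ((φ q).1 : ℤ) ≤ N := by rw [a1.1]; linarith
      exact_mod_cast this
    · have : ((φ q).2 : ℤ) ≤ N := by rw [a1.2]; linarith
      exact_mod_cast this
  have ψinj : Function.Injective (fun r : ℕ × ℕ => ((m - r.1, m + r.2) : ℤ × ℤ)) := by
    intro r r' h
    obtain ⟨e1, e2⟩ := Prod.mk.inj h
    have e3 : (r.1 : ℤ) = r'.1 := by linarith
    have e4 : (r.2 : ℤ) = r'.2 := by linarith
    exact Prod.ext (by exact_mod_cast e3) (by exact_mod_cast e4)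
  -- the part of the intervals that contain `x`
  obtain ⟨T1, fT1, mT1, cT1⟩ : ∃ T1 : Finset (ℤ × ℤ), T1 ⊆ FG ∧
      (∀ r ∈ T1, r.1 < x ∧ m < r.2) ∧
      528 * S1.card ≤ 1000 * T1.card + 10 ^ 5 * N * (L + 1) + 10 ^ 5 := by
    obtain ⟨R, hR⟩ : ∃ R, R = (range (N + 1) ×ˢ range (N + 1)).filter
      (fun r : ℕ × ℕ => ((m - r.1, m + r.2) : ℤ × ℤ) ∈ FR ∧ m - (r.1 : ℤ) < x ∧ 0 < r.2) := ⟨_, rfl⟩
    have hu := updn N L D hL (insert (D, 0) (S1.image φ)) (by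
      intro s hs
      rcases mem_insert.1 hs with rfl | hs
      · refine ⟨?_, Nat.zero_le _⟩
        have : (D : ℤ) ≤ N := by rw [hD]; linarith
        exact_mod_cast this
      · obtain ⟨q, hq, rfl⟩ := mem_image.1 hs
        exact hφN q (m1 q hq).1) R (by
      intro s hs s' hs' p q h5 h6 h7 h8
      have hpD : (D : ℤ) < p := by
        rcases mem_insert.1 hs with rfl | hs
        · exact_mod_cast h5
        · obtain ⟨u, hu, rfl⟩ := mem_image.1 hs
          have a1 := (hφ u (m1 u hu).1).1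
          have a2 := (m1 u hu).2
          have a3 : ((φ u).1 : ℤ) < p := by exact_mod_cast h5
          linarith
      have hq0 : 0 < q := lt_of_le_of_lt (Nat.zero_le _) h6
      rcases mem_insert.1 hs' with rfl | hs'
      · exfalso
        have : (p : ℤ) ≤ D := by exact_mod_cast h7
        linarith
      · obtain ⟨u, hu, rfl⟩ := mem_image.1 hs'
        have b := m1 u hu
        have a1 := hφ u b.1
        have bN := hφN u b.1
        have c1 : (p : ℤ) ≤ m - u.1 := by rw [← a1.1]; exact_mod_cast h7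
        have c2 : (q : ℤ) ≤ u.2 - m := by rw [← a1.2]; exact_mod_cast h8
        have c3 : (0 : ℤ) < q := by exact_mod_cast hq0
        rw [hR, mem_filter, mem_product, mem_range, mem_range]
        refine ⟨⟨by omega, by omega⟩, ?_, by linarith, hq0⟩
        refine h1 u b.1 b.2 (m - p) (m + q) ?_ ?_ ?_ ?_ ?_
        · intro h
          linarith
        · intro h
          linarith
        · linarith
        · linarith
        · linarith)
    refine ⟨(R.filter (fun r => Int.gcd ((D : ℤ) - r.1) ((D : ℤ) + r.2) = 1)).image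
      (fun r : ℕ × ℕ => ((m - r.1, m + r.2) : ℤ × ℤ)), ?_, ?_, ?_⟩
    · intro r hr
      obtain ⟨r', hr', rfl⟩ := mem_image.1 hr
      rw [mem_filter, hR, mem_filter] at hr'
      rw [hFG, mem_filter]
      refine ⟨hr'.1.2.1, ?_⟩
      dsimp only
      have e1 : m - (r'.1 : ℤ) - x = (D : ℤ) - r'.1 := by rw [hD]; ring
      have e2 : m + (r'.2 : ℤ) - x = (D : ℤ) + r'.2 := by rw [hD]; ring
      rw [e1, e2]
      exact hr'.2
    · intro r hr
      obtain ⟨r', hr', rfl⟩ := mem_image.1 hr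
      rw [mem_filter, hR, mem_filter] at hr'
      have e3 : (0 : ℤ) < r'.2 := by exact_mod_cast hr'.1.2.2.2
      exact ⟨hr'.1.2.2.1, by dsimp only; linarith⟩
    · rw [card_image_of_injective _ ψinj]
      have h5 : S1.card ≤ (insert (D, 0) (S1.image φ)).card := by
        rw [← card_image_of_injOn (s := S1) (f := φ)
          (hφinj.mono fun q hq => (m1 q hq).1)]
        exact card_le_card (subset_insert _ _)
      omega
  -- the part of the others
  obtain ⟨T0, fT0, mT0, cT0⟩ : ∃ T0 : Finset (ℤ × ℤ), T0 ⊆ FG ∧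
      (∀ r ∈ T0, x < r.1 ∧ r.1 < m ∧ m < r.2) ∧
      528 * S0.card ≤ 1000 * T0.card + 10 ^ 5 * N * (L + 1) + 10 ^ 5 := by
    obtain ⟨R, hR⟩ : ∃ R, R = (range (N + 1) ×ˢ range (N + 1)).filter
      (fun r : ℕ × ℕ => ((m - r.1, m + r.2) : ℤ × ℤ) ∈ FR ∧ x < m - (r.1 : ℤ) ∧ 0 < r.1 ∧ 0 < r.2) :=
      ⟨_, rfl⟩
    have hu := updn N L D hL (S0.image φ) (by
      intro s hs
      obtain ⟨q, hq, rfl⟩ := mem_image.1 hs
      exact hφN q (m0 q hq).1) R (by
      intro s hs s' hs' p q h5 h6 h7 h8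
      obtain ⟨w, hw, rfl⟩ := mem_image.1 hs
      obtain ⟨u, hu, rfl⟩ := mem_image.1 hs'
      have bw := m0 w hw
      have aw := hφ w bw.1
      have b := m0 u hu
      have a1 := hφ u b.1
      have bN := hφN u b.1
      have c1 : (p : ℤ) ≤ m - u.1 := by rw [← a1.1]; exact_mod_cast h7
      have c2 : (q : ℤ) ≤ u.2 - m := by rw [← a1.2]; exact_mod_cast h8
      have d1 : m - w.1 < (p : ℤ) := by rw [← aw.1]; exact_mod_cast h5
      have d2 : w.2 - m < (q : ℤ) := by rw [← aw.2]; exact_mod_cast h6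
      rw [hR, mem_filter, mem_product, mem_range, mem_range]
      refine ⟨⟨by omega, by omega⟩, ?_, by linarith [b.2], ?_, ?_⟩
      · exact h4 w bw.1 u b.1 bw.2 b.2 (m - p) (m + q) (by linarith) (by linarith) (by linarith)
          (by linarith)
      · exact lt_of_le_of_lt (Nat.zero_le _) h5
      · exact lt_of_le_of_lt (Nat.zero_le _) h6)
    refine ⟨(R.filter (fun r => Int.gcd ((D : ℤ) - r.1) ((D : ℤ) + r.2) = 1)).image
      (fun r : ℕ × ℕ => ((m - r.1, m + r.2) : ℤ × ℤ)), ?_, ?_, ?_⟩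
    · intro r hr
      obtain ⟨r', hr', rfl⟩ := mem_image.1 hr
      rw [mem_filter, hR, mem_filter] at hr'
      rw [hFG, mem_filter]
      refine ⟨hr'.1.2.1, ?_⟩
      dsimp only
      have e1 : m - (r'.1 : ℤ) - x = (D : ℤ) - r'.1 := by rw [hD]; ring
      have e2 : m + (r'.2 : ℤ) - x = (D : ℤ) + r'.2 := by rw [hD]; ring
      rw [e1, e2]
      exact hr'.2
    · intro r hr
      obtain ⟨r', hr', rfl⟩ := mem_image.1 hr
      rw [mem_filter, hR, mem_filter] at hr'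
      have e3 : (0 : ℤ) < r'.2 := by exact_mod_cast hr'.1.2.2.2.2
      have e4 : (0 : ℤ) < r'.1 := by exact_mod_cast hr'.1.2.2.2.1
      exact ⟨hr'.1.2.2.1, by dsimp only; linarith, by dsimp only; linarith⟩
    · rw [card_image_of_injective _ ψinj]
      rw [card_image_of_injOn (s := S0) (f := φ) (hφinj.mono fun q hq => (m0 q hq).1)] at hu
      exact hu
  -- the extreme values
  have ex1 : ∃ p s : ℤ, 1 ≤ p ∧ p ≤ x ∧ 0 ≤ s ∧ m + s ≤ N ∧ (∀ r ∈ S1, p ≤ r.1 ∧ r.2 ≤ m + s) ∧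
      ((S1 = ∅ ∧ p = x ∧ s = 0) ∨ ((∃ r ∈ S1, r.1 = p) ∧ ∃ r ∈ S1, r.2 = m + s)) := by
    rcases S1.eq_empty_or_nonempty with h | h
    · exact ⟨x, 0, hx, le_rfl, le_rfl, by linarith, by rw [h]; simp, Or.inl ⟨h, rfl, rfl⟩⟩
    · obtain ⟨r, hr, hmin⟩ := exists_min_image S1 (fun r => r.1) h
      obtain ⟨r', hr', hmax⟩ := exists_max_image S1 (fun r => r.2) h
      have b1 := hP r (m1 r hr).1
      have b2 := hP r' (m1 r' hr').1
      exact ⟨r.1, r'.2 - m, b1.1, (m1 r hr).2, by linarith, by linarith,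
        fun u hu => ⟨hmin u hu, by have := hmax u hu; linarith⟩,
        Or.inr ⟨⟨r, hr, rfl⟩, r', hr', by ring⟩⟩
  have ex0 : ∃ q t : ℤ, x ≤ q ∧ q ≤ m ∧ 0 ≤ t ∧ m ≤ N - t ∧ (∀ r ∈ S0, r.1 ≤ q ∧ N - t ≤ r.2) ∧
      ((S0 = ∅ ∧ q = x ∧ t = 0) ∨ ((∃ r ∈ S0, r.1 = q) ∧ ∃ r ∈ S0, r.2 = N - t)) := by
    rcases S0.eq_empty_or_nonempty with h | h
    · exact ⟨x, 0, le_rfl, hxm, le_rfl, by linarith, by rw [h]; simp, Or.inl ⟨h, rfl, rfl⟩⟩
    · obtain ⟨r, hr, hmax⟩ := exists_max_image S0 (fun r => r.1) h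
      obtain ⟨r', hr', hmin⟩ := exists_min_image S0 (fun r => r.2) h
      have b1 := hP r (m0 r hr).1
      have b2 := hP r' (m0 r' hr').1
      exact ⟨r.1, N - r'.2, (m0 r hr).2.le, b1.2.1, by linarith, by linarith,
        fun u hu => ⟨hmax u hu, by have := hmin u hu; linarith⟩,
        Or.inr ⟨⟨r, hr, rfl⟩, r', hr', by ring⟩⟩
  obtain ⟨p, s, p1, p2, s1, s2, hb1, hc1⟩ := ex1
  obtain ⟨q, t, q1, q2, t2, t3, hb0, hc0⟩ := ex0
  -- the upper bounds for the family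
  have u1 : (S1.card : ℤ) ≤ (x - p + 1) * (s + 1) := by
    have e : S1 ⊆ Icc p x ×ˢ Icc m (m + s) := by
      intro r hr
      have b1 := hP r (m1 r hr).1
      rw [mem_product, mem_Icc, mem_Icc]
      exact ⟨⟨(hb1 r hr).1, (m1 r hr).2⟩, b1.2.2.1, (hb1 r hr).2⟩
    have e2 := card_le_card e
    rw [card_product, Int.card_Icc, Int.card_Icc] at e2
    have e3 : ((S1.card : ℕ) : ℤ) ≤ (((x + 1 - p).toNat * (m + s + 1 - m).toNat : ℕ) : ℤ) := by
      exact_mod_cast e2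
    rw [Nat.cast_mul, Int.toNat_of_nonneg (by linarith), Int.toNat_of_nonneg (by linarith)] at e3
    calc ((S1.card : ℕ) : ℤ) ≤ (x + 1 - p) * (m + s + 1 - m) := e3
      _ = (x - p + 1) * (s + 1) := by ring
  have u0 : (S0.card : ℤ) ≤ (q - x) * (t + 1) := by
    have e : S0 ⊆ Icc (x + 1) q ×ˢ Icc (N - t) (N : ℤ) := by
      intro r hr
      have b1 := hP r (m0 r hr).1
      have b2 := (m0 r hr).2
      rw [mem_product, mem_Icc, mem_Icc]
      exact ⟨⟨by linarith, (hb0 r hr).1⟩, (hb0 r hr).2, b1.2.2.2⟩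
    have e2 := card_le_card e
    rw [card_product, Int.card_Icc, Int.card_Icc] at e2
    have e3 : ((S0.card : ℕ) : ℤ) ≤ (((q + 1 - (x + 1)).toNat * ((N : ℤ) + 1 - (N - t)).toNat : ℕ) : ℤ) := by
      exact_mod_cast e2
    rw [Nat.cast_mul, Int.toNat_of_nonneg (by linarith), Int.toNat_of_nonneg (by linarith)] at e3
    calc ((S0.card : ℕ) : ℤ) ≤ (q + 1 - (x + 1)) * ((N : ℤ) + 1 - (N - t)) := e3
      _ = (q - x) * (t + 1) := by ring
  -- the pairs on the left side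
  obtain ⟨LL, hLL⟩ : ∃ LL, LL = cp2 x (p - 1) (q - 1) := ⟨_, rfl⟩
  have fLL : LL ⊆ FG := by
    rintro ⟨y, z⟩ hr
    rw [hLL, mem_cp2] at hr
    obtain ⟨⟨⟨a1, a2⟩, a4, a5⟩, a7, a3, a6, a8⟩ := hr
    dsimp only at a1 a2 a3 a4 a5 a6 a7 a8
    rw [hFG, mem_filter]
    refine ⟨?_, a8⟩
    rcases hc1 with ⟨-, b1, -⟩ | ⟨⟨r, hr1, hr2⟩, -⟩
    · rcases hc0 with ⟨-, b2, -⟩ | ⟨⟨r, hr1, hr2⟩, -⟩
      · exfalso
        linarith
      · have hy : x < y := lt_of_le_of_ne (by linarith) (Ne.symm a3)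
        exact h2 r (m0 r hr1).1 (m0 r hr1).2 y z hy a7 (by rw [hr2]; linarith)
    · have b3 := hP r (m1 r hr1).1
      exact h1 r (m1 r hr1).1 (m1 r hr1).2 y z a3 a6 (by rw [hr2]; linarith) a7 (by linarith)
  have mLL : ∀ r ∈ LL, r.1 < m ∧ r.2 < m := by
    intro r hr
    rw [hLL, mem_cp2] at hr
    exact ⟨by linarith [hr.1.1.2], by linarith [hr.1.2.2]⟩
  have cLL : 528 * (q - p) ^ 2 ≤ 2000 * (LL.card : ℤ) + 10 ^ 5 * N * (L + 1) := by
    have := tri N L hL x (p - 1) (q - 1) (by linarith) (by linarith)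
    rw [sub_sub_sub_cancel_right, ← hLL] at this
    exact this
  -- the pairs on the right side
  have exR : ∃ RR : Finset (ℤ × ℤ), RR ⊆ FG ∧ (∀ r ∈ RR, m < r.1 ∧ m < r.2) ∧
      528 * (max s t) ^ 2 ≤ 2000 * (RR.card : ℤ) + 10 ^ 5 * N * (L + 1) := by
    rcases le_total t s with h | h
    · refine ⟨cp2 x m (m + s), ?_, ?_, ?_⟩
      · rintro ⟨y, z⟩ hr
        rw [mem_cp2] at hr
        obtain ⟨⟨⟨a1, a2⟩, a4, a5⟩, a7, a3, a6, a8⟩ := hr
        dsimp only at a1 a2 a3 a4 a5 a6 a7 a8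
        rw [hFG, mem_filter]
        refine ⟨?_, a8⟩
        rcases hc1 with ⟨-, -, b1⟩ | ⟨-, ⟨r, hr1, hr2⟩⟩
        · exfalso
          linarith
        · have b3 := m1 r hr1
          exact h1 r b3.1 b3.2 y z a3 a6 (by linarith) a7 (by rw [hr2]; exact a5)
      · intro r hr
        rw [mem_cp2] at hr
        exact ⟨hr.1.1.1, hr.1.2.1⟩
      · rw [max_eq_left h]
        have := tri N L hL x m (m + s) (by linarith) (by linarith)
        rwa [add_sub_cancel_left] at this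
    · refine ⟨cp2 x (N - t) N, ?_, ?_, ?_⟩
      · rintro ⟨y, z⟩ hr
        rw [mem_cp2] at hr
        obtain ⟨⟨⟨a1, a2⟩, a4, a5⟩, a7, a3, a6, a8⟩ := hr
        dsimp only at a1 a2 a3 a4 a5 a6 a7 a8
        rw [hFG, mem_filter]
        refine ⟨?_, a8⟩
        rcases hc0 with ⟨-, -, b1⟩ | ⟨-, ⟨r, hr1, hr2⟩⟩
        · exfalso
          linarith
        · have b3 := m0 r hr1
          exact h3 r b3.1 b3.2 y z (by rw [hr2]; exact a1) a7 a5
      · intro r hr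
        rw [mem_cp2] at hr
        exact ⟨by linarith [hr.1.1.1], by linarith [hr.1.2.1]⟩
      · rw [max_eq_right h]
        have := tri N L hL x (N - t) N (by linarith) (by linarith)
        rwa [sub_sub_cancel] at this
  obtain ⟨RR, fRR, mRR, cRR⟩ := exR
  -- the four sets are disjoint
  have d1 : Disjoint T1 T0 := by
    rw [Finset.disjoint_left]
    intro r hr hr'
    have := (mT1 r hr).1
    have := (mT0 r hr').1
    linarith
  have d2 : Disjoint (T1 ∪ T0) LL := by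
    rw [Finset.disjoint_left]
    intro r hr hr'
    have b1 : m < r.2 := by
      rcases mem_union.1 hr with h | h
      · exact (mT1 r h).2
      · exact (mT0 r h).2.2
    have := (mLL r hr').2
    linarith
  have d3 : Disjoint (T1 ∪ T0 ∪ LL) RR := by
    rw [Finset.disjoint_left]
    intro r hr hr'
    have b2 := (mRR r hr').1
    rcases mem_union.1 hr with h | h
    · have b1 : r.1 ≤ m := by
        rcases mem_union.1 h with h | h
        · exact (mT1 r h).1.le.trans hxm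
        · exact (mT0 r h).2.1.le
      linarith
    · have := (mLL r h).1
      linarith
  have hFR : T1.card + T0.card + LL.card + RR.card ≤ FG.card := by
    rw [← card_union_of_disjoint d1, ← card_union_of_disjoint d2, ← card_union_of_disjoint d3]
    exact card_le_card (union_subset (union_subset (union_subset fT1 fT0) fLL) fRR)
  -- the numbers
  obtain ⟨E, hE⟩ : ∃ E, E = max s t := ⟨_, rfl⟩
  rw [← hE] at cRR
  have E1 : s ≤ E := by rw [hE]; exact le_max_left _ _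
  have E2 : t ≤ E := by rw [hE]; exact le_max_right _ _
  have E3 : E ≤ N := by rw [hE]; exact max_le (by linarith) (by linarith)
  have E0 : 0 ≤ E := s1.trans E1
  have v1 : (x - p + 1) * (s + 1) ≤ (x - p + 1) * (E + 1) :=
    mul_le_mul_of_nonneg_left (by linarith) (by linarith)
  have v2 : (q - x) * (t + 1) ≤ (q - x) * (E + 1) :=
    mul_le_mul_of_nonneg_left (by linarith) (by linarith)
  have w1 : (S1.card : ℤ) + S0.card ≤ (q - p + 1) * (E + 1) := by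
    calc (S1.card : ℤ) + S0.card ≤ (x - p + 1) * (E + 1) + (q - x) * (E + 1) := by linarith
      _ = (q - p + 1) * (E + 1) := by ring
  have w2 : 2 * ((q - p + 1) * (E + 1)) ≤ (q - p + 1) ^ 2 + (E + 1) ^ 2 := by
    nlinarith [sq_nonneg ((q - p + 1) - (E + 1))]
  have w3 : (P.card : ℤ) = S1.card + S0.card := by exact_mod_cast hcard.symm
  have w4 : (528 : ℤ) * S1.card ≤ 1000 * T1.card + 10 ^ 5 * N * (L + 1) + 10 ^ 5 := by
    exact_mod_cast cT1
  have w5 : (528 : ℤ) * S0.card ≤ 1000 * T0.card + 10 ^ 5 * N * (L + 1) + 10 ^ 5 := by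
    exact_mod_cast cT0
  have w6 : (T1.card : ℤ) + T0.card + LL.card + RR.card ≤ FG.card := by exact_mod_cast hFR
  have w7 : q - p ≤ N := by linarith
  have w8 : (1 : ℤ) ≤ N := by linarith
  have w9 : (q - p + 1) ^ 2 = (q - p) ^ 2 + 2 * (q - p) + 1 := by ring
  have w10 : (E + 1) ^ 2 = E ^ 2 + 2 * E + 1 := by ring
  have w11 : (N : ℤ) ≤ N * (L + 1) := by
    have h5 : (0 : ℤ) ≤ N * L := by positivity
    linarith [mul_add (N : ℤ) L 1]
  have w12 : (10 : ℤ) ^ 5 * N * (L + 1) = 10 ^ 5 * (N * (L + 1)) := by ring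
  have w13 : (10 : ℤ) ^ 6 * N * (L + 1) = 10 ^ 6 * (N * (L + 1)) := by ring
  rw [w12] at w4 w5 cLL cRR
  have goal : 1056 * (P.card : ℤ) ≤ 1000 * FG.card + 10 ^ 6 * N * (L + 1) := by
    rw [w13]
    linarith
  exact_mod_cast goal

end Pool.Agent.H3.AP
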