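import Pool.Agent.H3.AP.Cop
import Pool.Graph.R_pool_sql_team_seeded_620a6dc7.H483S.Near

/-!
The progressions through `0` against the pairs which they contain, with a gain: `T` progressions
contain at least `1.056 |T|` pairs, up to `O(N log N)`.
-/

set_option autoImplicit false

namespace Pool.Agent.H3.AP

open Finset Pool.Agent.H483S

/-- the square of side `J` -/
theorem down_sq (J : ℕ) : Down ((Icc 1 J) ×ˢ (Icc 1 J)) := by
  constructor
  · rintro ⟨p, q⟩ hp
    rw [mem_product, mem_Icc, mem_Icc] at hp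
    exact ⟨hp.1.1, hp.2.1⟩
  · rintro ⟨p, q⟩ hp a b h1 h2 h3 h4
    rw [mem_product, mem_Icc, mem_Icc] at hp ⊢
    dsimp only at hp h2 h4 ⊢
    exact ⟨⟨h1, by omega⟩, h3, by omega⟩

/-- the coprime pairs `1 ≤ p < q ≤ J` -/
def tri (J : ℕ) : Finset (ℕ × ℕ) :=
  ((Icc 1 J) ×ˢ (Icc 1 J)).filter (fun p => p.1 < p.2 ∧ Nat.Coprime p.1 p.2)

theorem card_tri (J : ℕ) : 528 * J ^ 2 ≤ 2000 * (tri J).card + 1000 := by
  classical
  have h := coprime_down (down_sq J)
  rw [card_product, Nat.card_Icc] at h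
  have hsub : ((Icc 1 J) ×ˢ (Icc 1 J)).filter (fun p => Nat.Coprime p.1 p.2) ⊆
      (tri J ∪ (tri J).image (fun p => (p.2, p.1))) ∪ {(1, 1)} := by
    rintro ⟨p, q⟩ hp
    obtain ⟨h1, h2⟩ := mem_filter.1 hp
    rcases lt_trichotomy p q with h3 | h3 | h3
    · exact mem_union_left _ (mem_union_left _ (mem_filter.2 ⟨h1, h3, h2⟩))
    · apply mem_union_right
      dsimp only at h2
      subst h3
      rw [Nat.coprime_self] at h2
      subst h2
      simp
    · refine mem_union_left _ (mem_union_right _ (mem_image.2 ⟨(q, p), mem_filter.2 ⟨?_, h3, h2.symm⟩, rfl⟩))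
      rw [mem_product] at h1 ⊢
      exact ⟨h1.2, h1.1⟩
  have h2 := (card_le_card hsub).trans ((card_union_le _ _).trans
    (Nat.add_le_add_right ((card_union_le _ _).trans (Nat.add_le_add_left card_image_le _)) _))
  rw [card_singleton] at h2
  have h3 : (J + 1 - 1) * (J + 1 - 1) = J ^ 2 := by rw [Nat.add_sub_cancel]; ring
  rw [h3] at h
  omega

open Classical in
/-- the coprime pairs in the progressions of a given difference -/
noncomputable def region (T : Finset (ℕ × ℕ)) : Finset (ℤ × ℤ) :=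
  (T.biUnion (fun p => prs (Icc (-(p.1 : ℤ)) p.2))).filter (fun q => Int.gcd q.1 q.2 = 1)

theorem mem_region {T : Finset (ℕ × ℕ)} {k l : ℤ} {i j : ℕ} (hij : (i, j) ∈ T)
    (hk : -(i : ℤ) ≤ k) (hl : l ≤ j) (hkl : k < l) (k0 : k ≠ 0) (l0 : l ≠ 0)
    (hg : Int.gcd k l = 1) : (k, l) ∈ region T := by
  classical
  refine mem_filter.2 ⟨mem_biUnion.2 ⟨(i, j), hij, mem_prs.2 ⟨⟨?_, ?_⟩, hkl, k0, l0⟩⟩, hg⟩
  · exact mem_Icc.2 ⟨hk, by dsimp only; linarith⟩
  · exact mem_Icc.2 ⟨by dsimp only; linarith, hl⟩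

/-- one difference: the gain -/
theorem card_region (T : Finset (ℕ × ℕ)) :
    1056 * (T.filter (fun p => 1 ≤ p.1 ∧ 1 ≤ p.2)).card ≤ 1000 * (region T).card + 1000 := by
  classical
  rcases T.eq_empty_or_nonempty with rfl | hT
  · simp
  set I := T.sup (fun p => p.1) with hI
  set J := T.sup (fun p => p.2) with hJ
  obtain ⟨pI, hpI, hpI'⟩ := exists_mem_eq_sup T hT (fun p => p.1)
  obtain ⟨pJ, hpJ, hpJ'⟩ := exists_mem_eq_sup T hT (fun p => p.2)
  rw [← hI] at hpI'
  rw [← hJ] at hpJ'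
  have hIle : ∀ p ∈ T, p.1 ≤ I := fun p hp => le_sup (f := fun p : ℕ × ℕ => p.1) hp
  have hJle : ∀ p ∈ T, p.2 ≤ J := fun p hp => le_sup (f := fun p : ℕ × ℕ => p.2) hp
  set S := T.filter (fun p => 1 ≤ p.1 ∧ 1 ≤ p.2) with hS
  set D := ((Icc 1 I) ×ˢ (Icc 1 J)).filter (fun q => ∃ p ∈ T, q.1 ≤ p.1 ∧ q.2 ≤ p.2) with hD
  have hDown : Down D := by
    constructor
    · rintro ⟨p, q⟩ hp
      have := (mem_filter.1 hp).1
      rw [mem_product, mem_Icc, mem_Icc] at this
      exact ⟨this.1.1, this.2.1⟩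
    · rintro ⟨p, q⟩ hp a b h1 h2 h3 h4
      obtain ⟨g1, r, hr, g2, g3⟩ := mem_filter.1 hp
      rw [mem_product, mem_Icc, mem_Icc] at g1
      dsimp only at g1 g2 g3 h2 h4
      refine mem_filter.2 ⟨?_, r, hr, by dsimp only; omega, by dsimp only; omega⟩
      rw [mem_product, mem_Icc, mem_Icc]
      dsimp only
      exact ⟨⟨h1, by omega⟩, h3, by omega⟩
  have hSD : S ⊆ D := by
    intro p hp
    obtain ⟨h1, h2, h3⟩ := mem_filter.1 hp
    refine mem_filter.2 ⟨mem_product.2 ⟨mem_Icc.2 ⟨h2, hIle p h1⟩, mem_Icc.2 ⟨h3, hJle p h1⟩⟩,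
      p, h1, le_rfl, le_rfl⟩
  have hSIJ : S.card ≤ I * J := by
    have : S ⊆ (Icc 1 I) ×ˢ (Icc 1 J) := hSD.trans (filter_subset _ _)
    have := card_le_card this
    rw [card_product, Nat.card_Icc, Nat.card_Icc] at this
    simpa using this
  have hcopD := coprime_down hDown
  have hSDc := card_le_card hSD
  -- the three parts of the region
  set A := (D.filter (fun p => Nat.Coprime p.1 p.2)).image
    (fun p : ℕ × ℕ => ((-(p.1 : ℤ), (p.2 : ℤ)) : ℤ × ℤ)) with hA
  set B := (tri J).image (fun p : ℕ × ℕ => (((p.1 : ℤ), (p.2 : ℤ)) : ℤ × ℤ)) with hB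
  set C := (tri I).image (fun p : ℕ × ℕ => ((-(p.2 : ℤ), -(p.1 : ℤ)) : ℤ × ℤ)) with hC
  have hAc : A.card = (D.filter (fun p => Nat.Coprime p.1 p.2)).card := by
    apply card_image_of_injective
    rintro ⟨p, q⟩ ⟨p', q'⟩ h
    obtain ⟨h1, h2⟩ := Prod.mk.inj h
    dsimp only at h1 h2
    have e1 : p = p' := by omega
    have e2 : q = q' := by omega
    rw [e1, e2]
  have hBc : B.card = (tri J).card := by
    apply card_image_of_injective
    rintro ⟨p, q⟩ ⟨p', q'⟩ h
    obtain ⟨h1, h2⟩ := Prod.mk.inj h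
    dsimp only at h1 h2
    have e1 : p = p' := by omega
    have e2 : q = q' := by omega
    rw [e1, e2]
  have hCc : C.card = (tri I).card := by
    apply card_image_of_injective
    rintro ⟨p, q⟩ ⟨p', q'⟩ h
    obtain ⟨h1, h2⟩ := Prod.mk.inj h
    dsimp only at h1 h2
    have e1 : p = p' := by omega
    have e2 : q = q' := by omega
    rw [e1, e2]
  have hAsub : A ⊆ region T := by
    intro q hq
    obtain ⟨⟨p1, p2⟩, hp, rfl⟩ := mem_image.1 hq
    obtain ⟨h1, h2⟩ := mem_filter.1 hp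
    obtain ⟨g1, ⟨i, j⟩, hr, g2, g3⟩ := mem_filter.1 h1
    rw [mem_product, mem_Icc, mem_Icc] at g1
    dsimp only at g1 g2 g3 h2 ⊢
    refine mem_region hr (by omega) (by omega) (by omega) (by omega) (by omega) ?_
    rw [Int.neg_gcd]
    exact h2
  have hBsub : B ⊆ region T := by
    intro q hq
    obtain ⟨⟨p1, p2⟩, hp, rfl⟩ := mem_image.1 hq
    obtain ⟨h1, h2, h3⟩ := mem_filter.1 hp
    rw [mem_product, mem_Icc, mem_Icc] at h1
    dsimp only at h1 h2 h3 ⊢
    refine mem_region (i := pJ.1) (j := pJ.2) hpJ (by omega) (by omega) (by omega) (by omega) (by omega) ?_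
    exact h3
  have hCsub : C ⊆ region T := by
    intro q hq
    obtain ⟨⟨p1, p2⟩, hp, rfl⟩ := mem_image.1 hq
    obtain ⟨h1, h2, h3⟩ := mem_filter.1 hp
    rw [mem_product, mem_Icc, mem_Icc] at h1
    dsimp only at h1 h2 h3 ⊢
    refine mem_region (i := pI.1) (j := pI.2) hpI (by omega) (by omega) (by omega) (by omega) (by omega) ?_
    rw [Int.neg_gcd, Int.gcd_neg, Int.gcd_comm]
    exact h3
  have hAneg : ∀ q ∈ A, q.1 < 0 ∧ 0 < q.2 := by
    intro q hq
    obtain ⟨⟨p1, p2⟩, hp, rfl⟩ := mem_image.1 hq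
    obtain ⟨h1, h2⟩ := mem_filter.1 hp
    have g1 := hDown.1 _ h1
    dsimp only at g1 ⊢
    omega
  have hBneg : ∀ q ∈ B, 0 < q.1 := by
    intro q hq
    obtain ⟨⟨p1, p2⟩, hp, rfl⟩ := mem_image.1 hq
    obtain ⟨h1, h2, h3⟩ := mem_filter.1 hp
    rw [mem_product, mem_Icc, mem_Icc] at h1
    dsimp only at h1 ⊢
    omega
  have hCneg : ∀ q ∈ C, q.2 < 0 := by
    intro q hq
    obtain ⟨⟨p1, p2⟩, hp, rfl⟩ := mem_image.1 hq
    obtain ⟨h1, h2, h3⟩ := mem_filter.1 hp
    rw [mem_product, mem_Icc, mem_Icc] at h1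
    dsimp only at h1 ⊢
    omega
  have hBC : ∀ q ∈ C, q.1 < 0 := by
    intro q hq
    obtain ⟨⟨p1, p2⟩, hp, rfl⟩ := mem_image.1 hq
    obtain ⟨h1, h2, h3⟩ := mem_filter.1 hp
    rw [mem_product, mem_Icc, mem_Icc] at h1
    dsimp only at h1 ⊢
    omega
  have hd1 : Disjoint A B := by
    rw [Finset.disjoint_left]
    intro q h1 h2
    have := hAneg q h1
    have := hBneg q h2
    omega
  have hd2 : Disjoint (A ∪ B) C := by
    rw [Finset.disjoint_left]
    intro q h1 h2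
    have e1 := hCneg q h2
    have e2 := hBC q h2
    rcases mem_union.1 h1 with h1 | h1
    · have := hAneg q h1; omega
    · have := hBneg q h1; omega
  have hall : A.card + B.card + C.card ≤ (region T).card := by
    rw [← card_union_of_disjoint hd1, ← card_union_of_disjoint hd2]
    exact card_le_card (union_subset (union_subset hAsub hBsub) hCsub)
  have hI2 := card_tri I
  have hJ2 := card_tri J
  have hIJ : 2 * (I * J) ≤ I ^ 2 + J ^ 2 := by
    have : (2 * ((I : ℤ) * J)) ≤ (I : ℤ) ^ 2 + (J : ℤ) ^ 2 := by nlinarith [sq_nonneg ((I : ℤ) - J)]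
    exact_mod_cast this
  rw [hAc, hBc, hCc] at hall
  omega

/-- the gain for all differences -/
theorem ap_gain (a b : ℕ) (T : Finset (ℕ × ℕ × ℕ))
    (hT : ∀ p ∈ T, 1 ≤ p.1 ∧ 1 ≤ p.2.1 + p.2.2 ∧ p.1 * p.2.1 ≤ a ∧ p.1 * p.2.2 ≤ b) :
    1056 * T.card ≤ 1000 * (T.biUnion (fun p => prs (prog p.1 p.2.1 p.2.2))).card +
      1056 * ∑ d ∈ Icc 1 (a + b), (a / d + b / d + 3) := by
  classical
  set U := T.biUnion (fun p => prs (prog p.1 p.2.1 p.2.2)) with hU
  set Td : ℕ → Finset (ℕ × ℕ) := fun d => (T.filter (fun p => p.1 = d)).image (fun p => p.2) with hTd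
  have hmem : ∀ d i j : ℕ, (i, j) ∈ Td d ↔ (d, i, j) ∈ T := by
    intro d i j
    constructor
    · intro h
      obtain ⟨⟨d', i', j'⟩, h1, h2⟩ := mem_image.1 h
      obtain ⟨h3, h4⟩ := mem_filter.1 h1
      dsimp only at h2 h4
      rw [h4, h2] at h3
      exact h3
    · intro h
      exact mem_image.2 ⟨(d, i, j), mem_filter.2 ⟨h, rfl⟩, rfl⟩
  -- all differences are at most `a + b`
  have hdle : ∀ p ∈ T, p.1 ∈ Icc 1 (a + b) := by
    rintro ⟨d, i, j⟩ hp
    obtain ⟨h1, h2, h3, h4⟩ := hT _ hp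
    dsimp only at h1 h2 h3 h4 ⊢
    refine mem_Icc.2 ⟨h1, ?_⟩
    have : d * 1 ≤ d * (i + j) := Nat.mul_le_mul_left _ h2
    rw [mul_add] at this
    omega
  -- T is the union of the groups
  have hTsum : T.card = ∑ d ∈ Icc 1 (a + b), (Td d).card := by
    rw [card_eq_sum_card_fiberwise (f := fun p : ℕ × ℕ × ℕ => p.1) (t := Icc 1 (a + b))
      (fun p hp => hdle p hp)]
    apply sum_congr rfl
    intro d hd
    rw [hTd]
    dsimp only
    rw [card_image_of_injOn]
    rintro ⟨d1, p1⟩ h1 ⟨d2, p2⟩ h2 h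
    have e1 := (mem_filter.1 (mem_coe.1 h1)).2
    have e2 := (mem_filter.1 (mem_coe.1 h2)).2
    dsimp only at h e1 e2
    rw [e1, e2, h]
  -- the coprime pairs, scaled, are different pairs
  have hUsum : ∑ d ∈ Icc 1 (a + b), (region (Td d)).card ≤ U.card := by
    rw [← card_sigma]
    apply card_le_card_of_injOn (fun s : (Σ _ : ℕ, ℤ × ℤ) => ((s.2.1 * (s.1 : ℤ), s.2.2 * (s.1 : ℤ)) : ℤ × ℤ))
    · rintro ⟨d, k, l⟩ hs
      rw [mem_coe, mem_sigma] at hs
      obtain ⟨h1, h2⟩ := hs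
      dsimp only at h1 h2 ⊢
      obtain ⟨h3, h4⟩ := mem_filter.1 h2
      obtain ⟨⟨i, j⟩, h5, h6⟩ := mem_biUnion.1 h3
      obtain ⟨⟨g1, g2⟩, g3, g4, g5⟩ := mem_prs.1 h6
      dsimp only at g1 g2 g3 g4 g5 h4
      have hd1 : 1 ≤ d := (mem_Icc.1 h1).1
      refine mem_biUnion.2 ⟨(d, i, j), (hmem d i j).1 h5, ?_⟩
      exact ap_count_prs hd1 (mem_Icc.1 g1).1 g3 (mem_Icc.1 g2).2 g4 g5
    · rintro ⟨d, k, l⟩ hs ⟨d', k', l'⟩ hs' heq
      rw [mem_coe, mem_sigma] at hs hs'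
      obtain ⟨h1, h2⟩ := hs
      obtain ⟨h1', h2'⟩ := hs'
      dsimp only at h1 h2 h1' h2' heq
      have hg := (mem_filter.1 h2).2
      have hg' := (mem_filter.1 h2').2
      dsimp only at hg hg'
      obtain ⟨e1, e2⟩ := Prod.mk.inj heq
      have hd0 : 1 ≤ d := (mem_Icc.1 h1).1
      have hdd : d = d' := by
        have f1 : Int.gcd (k * d) (l * d) = d := by
          rw [Int.gcd_mul_right, hg]; simp
        have f2 : Int.gcd (k' * d') (l' * d') = d' := by
          rw [Int.gcd_mul_right, hg']; simp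
        rw [← f1, ← f2, e1, e2]
      subst hdd
      have hd0' : (d : ℤ) ≠ 0 := by positivity
      have := mul_right_cancel₀ hd0' e1
      have := mul_right_cancel₀ hd0' e2
      subst k'; subst l'
      rfl
  -- one group
  have hone : ∀ d ∈ Icc 1 (a + b), 1056 * (Td d).card ≤
      1000 * (region (Td d)).card + 1056 * (a / d + b / d + 3) := by
    intro d hd
    have hd1 : 0 < d := (mem_Icc.1 hd).1
    have hI : ∀ p ∈ Td d, p.1 ≤ a / d ∧ p.2 ≤ b / d := by
      rintro ⟨i, j⟩ hp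
      obtain ⟨-, -, h3, h4⟩ := hT _ ((hmem d i j).1 hp)
      dsimp only at h3 h4 ⊢
      exact ⟨(Nat.le_div_iff_mul_le hd1).2 (by rw [mul_comm]; exact h3),
        (Nat.le_div_iff_mul_le hd1).2 (by rw [mul_comm]; exact h4)⟩
    have hreg := card_region (Td d)
    set S := (Td d).filter (fun p => 1 ≤ p.1 ∧ 1 ≤ p.2) with hS
    have hsub : Td d ⊆ S ∪ ((range (b / d + 1)).image (fun j => (0, j)) ∪
        (range (a / d + 1)).image (fun i => (i, 0))) := by
      rintro ⟨i, j⟩ hp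
      obtain ⟨h3, h4⟩ := hI _ hp
      dsimp only at h3 h4
      rcases Nat.eq_zero_or_pos i with hi | hi
      · apply mem_union_right
        apply mem_union_left
        exact mem_image.2 ⟨j, mem_range.2 (by omega), by rw [hi]⟩
      · rcases Nat.eq_zero_or_pos j with hj | hj
        · apply mem_union_right
          apply mem_union_right
          exact mem_image.2 ⟨i, mem_range.2 (by omega), by rw [hj]⟩
        · exact mem_union_left _ (mem_filter.2 ⟨hp, hi, hj⟩)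
    have h5 := (card_le_card hsub).trans ((card_union_le _ _).trans
      (Nat.add_le_add_left ((card_union_le _ _).trans (Nat.add_le_add card_image_le card_image_le)) _))
    rw [card_range, card_range] at h5
    omega
  calc 1056 * T.card = ∑ d ∈ Icc 1 (a + b), 1056 * (Td d).card := by rw [hTsum, mul_sum]
    _ ≤ ∑ d ∈ Icc 1 (a + b), (1000 * (region (Td d)).card + 1056 * (a / d + b / d + 3)) :=
        sum_le_sum hone
    _ = 1000 * ∑ d ∈ Icc 1 (a + b), (region (Td d)).card +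
        1056 * ∑ d ∈ Icc 1 (a + b), (a / d + b / d + 3) := by
        rw [sum_add_distrib, ← mul_sum, ← mul_sum]
    _ ≤ _ := Nat.add_le_add_right (Nat.mul_le_mul_left _ hUsum) _

end Pool.Agent.H3.AP
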