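import Pool.Agent.H3.AP.Assign

/-!
Small non-progressions through `x` against the interval members: assembly.
-/

set_option autoImplicit false

namespace Pool.Agent.H3.AP

open Finset Pool.Agent.H483S Pool.Agent.H21.AP

/-- the pairs `y < z` of a set -/
def opairs (X : Finset ℤ) : Finset (ℤ × ℤ) := (X ×ˢ X).filter (fun q => q.1 < q.2)

theorem card_opairs_le (X : Finset ℤ) : (opairs X).card ≤ X.card.choose 2 := by
  classical
  rw [← card_powersetCard]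
  refine card_le_card_of_injOn (fun q => ({q.1, q.2} : Finset ℤ)) ?_ ?_
  · intro q hq
    obtain ⟨h1, h2⟩ := mem_filter.1 (mem_coe.1 hq)
    obtain ⟨h3, h4⟩ := mem_product.1 h1
    rw [mem_coe, mem_powersetCard]
    refine ⟨?_, card_pair h2.ne⟩
    intro w hw
    rw [mem_insert, mem_singleton] at hw
    rcases hw with rfl | rfl
    · exact h3
    · exact h4
  · intro q hq r hr h
    have h3 := (mem_filter.1 (mem_coe.1 hq)).2
    have h3' := (mem_filter.1 (mem_coe.1 hr)).2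
    have h' : ({q.1, q.2} : Finset ℤ) = {r.1, r.2} := h
    have e1 : q.1 ∈ ({r.1, r.2} : Finset ℤ) := by rw [← h']; simp
    have e2 : q.2 ∈ ({r.1, r.2} : Finset ℤ) := by rw [← h']; simp
    rw [mem_insert, mem_singleton] at e1 e2
    apply Prod.ext
    · rcases e1 with e1 | e1 <;> rcases e2 with e2 | e2 <;> omega
    · rcases e1 with e1 | e1 <;> rcases e2 with e2 | e2 <;> omega

/-- non-progressions inside a given set -/
theorem sub_count (G : Finset (Finset ℤ))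
    (hint : ∀ A ∈ G, ∀ B ∈ G, A ≠ B → Pool.Agent.H483S.IsAP (A ∩ B))
    (hn : ∀ A ∈ G, ¬ Pool.Agent.H483S.IsAP A) {x : ℤ} (hx : ∀ A ∈ G, x ∈ A) (Z : Finset ℤ)
    (hZ : ∀ A ∈ G, ∀ w ∈ A, w ∈ Z) : G.card ≤ Z.card ^ 2 := by
  classical
  have hch : ∀ A : Finset ℤ, ∃ q : ℤ × ℤ, A ∈ G → q.1 ∈ A ∧ q.2 ∈ A ∧ Own A x q.1 q.2 := by
    intro A
    by_cases hA : A ∈ G
    · obtain ⟨y', h1, z', h2, -, -, -, h3⟩ := exists_own (hn A hA) (hx A hA)
      exact ⟨(y', z'), fun _ => ⟨h1, h2, h3⟩⟩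
    · exact ⟨(0, 0), fun h => absurd h hA⟩
  choose q hq using hch
  have : G.card ≤ (Z ×ˢ Z).card := by
    apply card_le_card_of_injOn q
    · intro A hA
      have hA' := mem_coe.1 hA
      exact mem_coe.2 (mem_product.2 ⟨hZ A hA' _ (hq A hA').1, hZ A hA' _ (hq A hA').2.1⟩)
    · intro A hA B hB h
      have hA' := mem_coe.1 hA
      have hB' := mem_coe.1 hB
      by_contra hne
      refine own_unique (hint A hA' B hB' hne) (hx A hA') (hq A hA').1 (hq A hA').2.1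
        (hx B hB') ?_ ?_ (hq A hA').2.2
      · rw [h]; exact (hq B hB').1
      · rw [h]; exact (hq B hB').2.1
  rw [card_product] at this
  rwa [pow_two]

/-- the exceptional members -/
theorem exc_count (N S : ℕ) (G : Finset (Finset ℤ))
    (hint : ∀ A ∈ G, ∀ B ∈ G, A ≠ B → Pool.Agent.H483S.IsAP (A ∩ B))
    (hn : ∀ A ∈ G, ¬ Pool.Agent.H483S.IsAP A) {x : ℤ} (hx : ∀ A ∈ G, x ∈ A)
    (hex : ∀ A ∈ G, ∃ y ∈ Icc 1 (N : ℤ), ∃ z ∈ Zs S x y, ∀ w ∈ A, w ∈ Zs S x y ∨ w ∈ Zs S x z) :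
    G.card ≤ 4 * N * (2 * S + 1) ^ 6 := by
  classical
  set T := (Icc 1 (N : ℤ)).sigma (fun y => Zs S x y) with hT
  set f : (Σ _ : ℤ, ℤ) → Finset (Finset ℤ) := fun t =>
    G.filter (fun A => ∀ w ∈ A, w ∈ Zs S x t.1 ∨ w ∈ Zs S x t.2) with hf
  have h1 : G ⊆ T.biUnion f := by
    intro A hA
    obtain ⟨y, hy, z, hz, h⟩ := hex A hA
    exact mem_biUnion.2 ⟨⟨y, z⟩, mem_sigma.2 ⟨hy, hz⟩, mem_filter.2 ⟨hA, h⟩⟩
  have h2 : ∀ t ∈ T, (f t).card ≤ 4 * (2 * S + 1) ^ 4 := by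
    intro t ht
    have h3 := sub_count (f t) (fun A hA B hB => hint A (mem_filter.1 hA).1 B (mem_filter.1 hB).1)
      (fun A hA => hn A (mem_filter.1 hA).1) (fun A hA => hx A (mem_filter.1 hA).1)
      (Zs S x t.1 ∪ Zs S x t.2) (by
        intro A hA w hw
        rcases (mem_filter.1 hA).2 w hw with h | h
        · exact mem_union_left _ h
        · exact mem_union_right _ h)
    have h4 : (Zs S x t.1 ∪ Zs S x t.2).card ≤ 2 * (2 * S + 1) ^ 2 := by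
      have a1 := card_Zs S x t.1
      have a2 := card_Zs S x t.2
      have := card_union_le (Zs S x t.1) (Zs S x t.2)
      omega
    calc (f t).card ≤ _ := h3
      _ ≤ (2 * (2 * S + 1) ^ 2) ^ 2 := Nat.pow_le_pow_left h4 2
      _ = _ := by ring
  have h3 : T.card ≤ N * (2 * S + 1) ^ 2 := by
    rw [hT, card_sigma]
    calc ∑ y ∈ Icc 1 (N : ℤ), (Zs S x y).card ≤ ∑ y ∈ Icc 1 (N : ℤ), (2 * S + 1) ^ 2 :=
          sum_le_sum (fun y _ => card_Zs S x y)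
      _ = N * (2 * S + 1) ^ 2 := by
          rw [sum_const, Int.card_Icc, smul_eq_mul]
          congr 1
          omega
  calc G.card ≤ (T.biUnion f).card := card_le_card h1
    _ ≤ ∑ t ∈ T, (f t).card := card_biUnion_le
    _ ≤ ∑ t ∈ T, 4 * (2 * S + 1) ^ 4 := sum_le_sum h2
    _ = T.card * (4 * (2 * S + 1) ^ 4) := by rw [sum_const, smul_eq_mul]
    _ ≤ (N * (2 * S + 1) ^ 2) * (4 * (2 * S + 1) ^ 4) := Nat.mul_le_mul_right _ h3
    _ = 4 * N * (2 * S + 1) ^ 6 := by ring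

theorem ivl_half
    (free_count : ∀ (N : ℕ) (x m : ℤ), 1 ≤ x → x ≤ m → m ≤ N → ∀ (P : Finset (ℤ × ℤ)),
      (∀ q ∈ P, 1 ≤ q.1 ∧ q.1 ≤ m ∧ m ≤ q.2 ∧ q.2 ≤ N) → ∀ (FR : Finset (ℤ × ℤ)),
      (∀ q ∈ P, q.1 ≤ x → ∀ y z : ℤ, y ≠ x → z ≠ x → q.1 ≤ y → y < z → z ≤ q.2 → (y, z) ∈ FR) →
      (∀ q ∈ P, x < q.1 → ∀ y z : ℤ, x < y → y < z → z < q.1 → (y, z) ∈ FR) →
      (∀ q ∈ P, x < q.1 → ∀ y z : ℤ, q.2 < y → y < z → z ≤ N → (y, z) ∈ FR) →
      (∀ q ∈ P, x < q.1 → ∀ k : ℤ, 1 ≤ k → (q.1 + k, q.2 - k) ∈ P → (q.1, q.2) ∈ FR) →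
      2 * P.card ≤ FR.card + 20 * N)
    (N S : ℕ) (hS1 : 1 ≤ S) (F : Finset (Finset ℤ)) (hsub : ∀ A ∈ F, A ⊆ Icc 1 (N : ℤ))
    (hint : ∀ A ∈ F, ∀ B ∈ F, A ≠ B → Pool.Agent.H483S.IsAP (A ∩ B)) (x : ℤ)
    (hxN : x ∈ Icc 1 (N : ℤ)) (G : Finset (Finset ℤ))
    (hG : ∀ A ∈ G, A ∈ F ∧ ¬ Pool.Agent.H483S.IsAP A ∧ x ∈ A ∧ A.card ≤ S) (m : ℤ)
    (hm : m ∈ Icc 1 (N : ℤ)) (hxm : x ≤ m) (P : Finset (ℤ × ℤ))
    (hP : ∀ q ∈ P, q.1 ≤ m ∧ m ≤ q.2 ∧ Icc q.1 q.2 ∈ F) :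
    G.card + 2 * P.card ≤ (N - 1).choose 2 + 10 * N * (2 * S + 1) ^ 6 + 40 * N := by
  classical
  have hx := mem_Icc.1 hxN
  have hm' := mem_Icc.1 hm
  have hPb : ∀ q ∈ P, 1 ≤ q.1 ∧ q.1 ≤ m ∧ m ≤ q.2 ∧ q.2 ≤ N := by
    intro q hq
    obtain ⟨h1, h2, h3⟩ := hP q hq
    have h4 := mem_Icc.1 (hsub _ h3 (mem_Icc.2 ⟨le_rfl, h1.trans h2⟩))
    have h5 := mem_Icc.1 (hsub _ h3 (mem_Icc.2 ⟨h1.trans h2, le_rfl⟩))
    exact ⟨h4.1, h1, h2, h5.2⟩
  set X := (Icc 1 (N : ℤ)).erase x with hX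
  have hXc : X.card = N - 1 := by
    rw [hX, card_erase_of_mem hxN, Int.card_Icc]; omega
  set FR := (opairs X).filter (fun r => (∃ q ∈ P, q.1 ≤ x ∧ x ≤ q.2 ∧ q.1 ≤ r.1 ∧ r.2 ≤ q.2) ∨
    (∃ q ∈ P, x < q.1 ∧ x < r.1 ∧ r.2 < q.1) ∨ (∃ q ∈ P, x < q.1 ∧ q.2 < r.1) ∨
    (r ∈ P ∧ x < r.1 ∧ ∃ k : ℤ, 1 ≤ k ∧ (r.1 + k, r.2 - k) ∈ P)) with hFR
  have hop : ∀ y z : ℤ, 1 ≤ y → y < z → z ≤ N → y ≠ x → z ≠ x → (y, z) ∈ opairs X := by
    intro y z h1 h2 h3 h4 h5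
    refine mem_filter.2 ⟨mem_product.2 ⟨mem_erase.2 ⟨h4, mem_Icc.2 ⟨h1, ?_⟩⟩,
      mem_erase.2 ⟨h5, mem_Icc.2 ⟨?_, h3⟩⟩⟩, h2⟩
    · dsimp only; omega
    · dsimp only; omega
  have hfree := free_count N x m hx.1 hxm hm'.2 P hPb FR
    (by
      intro q hq h1 y z hy hz h2 h3 h4
      have := hPb q hq
      refine mem_filter.2 ⟨hop y z (by omega) h3 (by omega) hy hz, Or.inl ⟨q, hq, h1, by omega, h2, h4⟩⟩)
    (by
      intro q hq h1 y z h2 h3 h4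
      have := hPb q hq
      refine mem_filter.2 ⟨hop y z (by omega) h3 (by omega) (by omega) (by omega),
        Or.inr (Or.inl ⟨q, hq, h1, h2, h4⟩)⟩)
    (by
      intro q hq h1 y z h2 h3 h4
      have := hPb q hq
      refine mem_filter.2 ⟨hop y z (by omega) h3 (by omega) (by omega) (by omega),
        Or.inr (Or.inr (Or.inl ⟨q, hq, h1, h2⟩))⟩)
    (by
      intro q hq h1 k h2 h3
      have := hPb q hq
      have h4 := hPb _ h3
      dsimp only at h4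
      refine mem_filter.2 ⟨hop _ _ (by omega) (by omega) (by omega) (by omega) (by omega),
        Or.inr (Or.inr (Or.inr ⟨hq, h1, k, h2, h3⟩))⟩)
  -- good and bad members
  set Q : Finset ℤ → Prop := fun B => ∃ y ∈ B, ∃ z ∈ B, y < z ∧ y ≠ x ∧ z ≠ x ∧ Own B x y z ∧
      (∀ q ∈ P, q.1 ≤ x → x ≤ q.2 → ¬ (q.1 ≤ y ∧ z ≤ q.2)) ∧
      (∀ q ∈ P, x < q.1 → ¬ (x < y ∧ z < q.1)) ∧ (∀ q ∈ P, x < q.1 → ¬ q.2 < y) ∧
      (∀ k : ℤ, 1 ≤ k → (y, z) ∈ P → x < y → (y + k, z - k) ∉ P) with hQ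
  set E : Finset ℤ → Prop := fun A => ∃ y ∈ Icc 1 (N : ℤ), ∃ z ∈ Zs S x y, ∀ w ∈ A,
    w ∈ Zs S x y ∨ w ∈ Zs S x z with hE
  have hGsplit : G ⊆ (G.filter Q ∪ G.filter (fun A => m ∈ A ∧ ¬ ∀ q ∈ P, q.1 ≤ x)) ∪ G.filter E := by
    intro B hB
    obtain ⟨h1, h2, h3, h4⟩ := hG B hB
    by_cases hEB : E B
    · exact mem_union_right _ (mem_filter.2 ⟨hB, hEB⟩)
    apply mem_union_left
    by_cases hmB : m ∈ B ∧ ¬ ∀ q ∈ P, q.1 ≤ x
    · exact mem_union_right _ (mem_filter.2 ⟨hB, hmB⟩)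
    · apply mem_union_left
      refine mem_filter.2 ⟨hB, ?_⟩
      refine good_pair hS1 hsub hint hxm P (fun q hq => (hP q hq).2.2)
        (fun q hq => ⟨(hP q hq).1, (hP q hq).2.1⟩) h1 h2 h3 h4 ?_ hEB
      by_cases h5 : m ∈ B
      · right
        by_contra h6
        exact hmB ⟨h5, h6⟩
      · exact Or.inl h5
  have hc := (card_le_card hGsplit).trans ((card_union_le _ _).trans
    (Nat.add_le_add_right (card_union_le _ _) _))
  -- the members through m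
  have hc1 : (G.filter (fun A => m ∈ A ∧ ¬ ∀ q ∈ P, q.1 ≤ x)).card ≤ N + (2 * S + 1) ^ 4 := by
    by_cases h0 : ∀ q ∈ P, q.1 ≤ x
    · have : G.filter (fun A => m ∈ A ∧ ¬ ∀ q ∈ P, q.1 ≤ x) = ∅ := by
        apply filter_eq_empty_iff.2
        rintro A - ⟨-, h⟩
        exact h h0
      rw [this]; simp
    · have hmx : m ≠ x := by
        push Not at h0
        obtain ⟨q, hq, h1⟩ := h0
        have := (hP q hq).1
        omega
      refine pair_deg N S _ ?_ ?_ ?_ ?_ hmx ?_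
      · intro A hA
        exact hsub A (hG A (mem_filter.1 hA).1).1
      · intro A hA B hB
        exact hint A (hG A (mem_filter.1 hA).1).1 B (hG B (mem_filter.1 hB).1).1
      · intro A hA
        exact (hG A (mem_filter.1 hA).1).2.1
      · intro A hA
        exact (hG A (mem_filter.1 hA).1).2.2.2
      · intro A hA
        exact ⟨(hG A (mem_filter.1 hA).1).2.2.1, (mem_filter.1 hA).2.1⟩
  -- the exceptional members
  have hc2 : (G.filter E).card ≤ 4 * N * (2 * S + 1) ^ 6 := by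
    refine exc_count N S (G.filter E) ?_ ?_ (x := x) ?_ ?_
    · intro A hA B hB
      exact hint A (hG A (mem_filter.1 hA).1).1 B (hG B (mem_filter.1 hB).1).1
    · intro A hA
      exact (hG A (mem_filter.1 hA).1).2.1
    · intro A hA
      exact (hG A (mem_filter.1 hA).1).2.2.1
    · intro A hA
      exact (mem_filter.1 hA).2
  -- the good members
  have hc3 : (G.filter Q).card + FR.card ≤ (N - 1).choose 2 := by
    have hch : ∀ A : Finset ℤ, ∃ r : ℤ × ℤ, A ∈ G.filter Q → r.1 ∈ A ∧ r.2 ∈ A ∧ r.1 < r.2 ∧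
        r.1 ≠ x ∧ r.2 ≠ x ∧ Own A x r.1 r.2 ∧ r ∉ FR := by
      intro A
      by_cases hA : A ∈ G.filter Q
      · obtain ⟨-, y, hy, z, hz, h1, h2, h3, h4, h5, h6, h7, h8⟩ := mem_filter.1 hA
        refine ⟨(y, z), fun _ => ⟨hy, hz, h1, h2, h3, h4, ?_⟩⟩
        intro h9
        rcases (mem_filter.1 h9).2 with ⟨q, hq, a1, a2, a3, a4⟩ | ⟨q, hq, a1, a2, a3⟩ |
          ⟨q, hq, a1, a2⟩ | ⟨a1, a2, k, a3, a4⟩
        · exact h5 q hq a1 a2 ⟨a3, a4⟩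
        · exact h6 q hq a1 ⟨a2, a3⟩
        · exact h7 q hq a1 a2
        · exact h8 k a3 a1 a2 a4
      · exact ⟨(0, 0), fun h => absurd h hA⟩
    choose r hr using hch
    have hinj : ((G.filter Q).image r).card = (G.filter Q).card := by
      apply card_image_of_injOn
      intro A hA B hB h
      have hA' := mem_coe.1 hA
      have hB' := mem_coe.1 hB
      have gA := hG A (mem_filter.1 hA').1
      have gB := hG B (mem_filter.1 hB').1
      obtain ⟨a1, a2, a3, a4, a5, a6, a7⟩ := hr A hA'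
      obtain ⟨b1, b2, b3, b4, b5, b6, b7⟩ := hr B hB'
      by_contra hne
      refine own_unique (hint A gA.1 B gB.1 hne) gA.2.2.1 a1 a2 gB.2.2.1 ?_ ?_ a6
      · rw [h]; exact b1
      · rw [h]; exact b2
    have hdisj : Disjoint ((G.filter Q).image r) FR := by
      rw [Finset.disjoint_left]
      intro q hq hq'
      obtain ⟨A, hA, rfl⟩ := mem_image.1 hq
      exact (hr A hA).2.2.2.2.2.2 hq'
    have hsubU : (G.filter Q).image r ∪ FR ⊆ opairs X := by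
      apply union_subset
      · intro q hq
        obtain ⟨A, hA, rfl⟩ := mem_image.1 hq
        obtain ⟨a1, a2, a3, a4, a5, a6, a7⟩ := hr A hA
        have gA := hG A (mem_filter.1 hA).1
        have e1 := mem_Icc.1 (hsub A gA.1 a1)
        have e2 := mem_Icc.1 (hsub A gA.1 a2)
        exact hop _ _ e1.1 a3 e2.2 a4 a5
      · exact filter_subset _ _
    have := card_le_card hsubU
    rw [card_union_of_disjoint hdisj, hinj] at this
    have h9 := card_opairs_le X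
    rw [hXc] at h9
    omega
  have hpow : (2 * S + 1) ^ 4 ≤ N * (2 * S + 1) ^ 6 := by
    have h1 : (2 * S + 1) ^ 4 ≤ (2 * S + 1) ^ 6 := Nat.pow_le_pow_right (by omega) (by norm_num)
    have h2 : (2 * S + 1) ^ 6 ≤ N * (2 * S + 1) ^ 6 := Nat.le_mul_of_pos_left _ (by omega)
    omega
  have e4 : 4 * N * (2 * S + 1) ^ 6 = 4 * (N * (2 * S + 1) ^ 6) := by ring
  have e10 : 10 * N * (2 * S + 1) ^ 6 = 10 * (N * (2 * S + 1) ^ 6) := by ring
  rw [e4] at hc2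
  rw [e10]
  omega

end Pool.Agent.H3.AP
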