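import Pool.Agent.H3.AP.Updn

/-!
The coprime pairs of an interval (helper82, after the paper proof of helper3).
-/

set_option autoImplicit false

namespace Pool.Agent.H3.AP

open Finset

open scoped Classical

/-- all the pairs `y < z` of a finite set -/
noncomputable def up (A : Finset ℤ) : Finset (ℤ × ℤ) := (A ×ˢ A).filter fun r => r.1 < r.2

theorem mem_up {A : Finset ℤ} {r : ℤ × ℤ} : r ∈ up A ↔ (r.1 ∈ A ∧ r.2 ∈ A) ∧ r.1 < r.2 := by
  unfold up
  rw [mem_filter, mem_product]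

theorem up_card (A : Finset ℤ) : 2 * (up A).card + A.card = A.card * A.card := by
  have h1 := card_filter_add_card_filter_not (s := A.offDiag) (fun r : ℤ × ℤ => r.1 < r.2)
  have h2 : (A.offDiag.filter fun r : ℤ × ℤ => r.1 < r.2) = up A := by
    ext ⟨y, z⟩
    rw [mem_up, mem_filter, mem_offDiag]
    dsimp only
    constructor
    · rintro ⟨⟨a, b, c⟩, d⟩
      exact ⟨⟨a, b⟩, d⟩
    · rintro ⟨⟨a, b⟩, d⟩
      exact ⟨⟨a, b, d.ne⟩, d⟩
  have h3 : (A.offDiag.filter fun r : ℤ × ℤ => ¬ r.1 < r.2) = (up A).image Prod.swap := by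
    ext ⟨y, z⟩
    rw [mem_image, mem_filter, mem_offDiag]
    dsimp only
    constructor
    · rintro ⟨⟨a, b, c⟩, d⟩
      exact ⟨(z, y), mem_up.2 ⟨⟨b, a⟩, lt_of_le_of_ne (not_lt.1 d) (Ne.symm c)⟩, rfl⟩
    · rintro ⟨⟨z', y'⟩, h, e⟩
      obtain ⟨⟨a, b⟩, d⟩ := mem_up.1 h
      dsimp only at a b d
      rw [Prod.swap_prod_mk, Prod.mk.injEq] at e
      obtain ⟨rfl, rfl⟩ := e
      exact ⟨⟨b, a, d.ne'⟩, not_lt.2 d.le⟩
  have h4 : A.offDiag.card = A.card * A.card - A.card := offDiag_card A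
  have h5 : A.card ≤ A.card * A.card := Nat.le_mul_self _
  rw [h2, h3, card_image_of_injective _ Prod.swap_injective, h4] at h1
  omega

/-- the class of `x` modulo `r` in an interval -/
theorem class_card (x a b : ℤ) (n r : ℕ) (hn : b - a ≤ n) (hr : 1 ≤ r) :
    ((Ioc a b).filter fun y => (r : ℤ) ∣ y - x).card ≤ n / r + 1 := by
  have hr0 : (0 : ℤ) < r := by exact_mod_cast hr
  have h := card_le_card_of_injOn (s := (Ioc a b).filter fun y => (r : ℤ) ∣ y - x)
    (t := range (n / r + 1)) (fun y => ((y - a - 1) / r).toNat) (by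
      intro y hy
      obtain ⟨h1, h2⟩ := mem_Ioc.1 (mem_filter.1 hy).1
      rw [mem_coe, mem_range]
      dsimp only
      have h3 : (y - a - 1) / (r : ℤ) ≤ (n : ℤ) / r := Int.ediv_le_ediv hr0 (by omega)
      have h4 : (n : ℤ) / r = ((n / r : ℕ) : ℤ) := by rw [Int.natCast_div]
      rw [h4] at h3
      have h5 : (0 : ℤ) ≤ ((n / r : ℕ) : ℤ) := Int.natCast_nonneg _
      obtain ⟨u, hu⟩ : ∃ u, u = (y - a - 1) / (r : ℤ) := ⟨_, rfl⟩
      obtain ⟨v, hv⟩ : ∃ v, v = n / r := ⟨_, rfl⟩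
      rw [← hu, ← hv] at h3
      rw [← hu, ← hv]
      omega) (by
      intro y hy y' hy' h
      obtain ⟨h1, h2⟩ := mem_Ioc.1 (mem_filter.1 hy).1
      obtain ⟨h1', h2'⟩ := mem_Ioc.1 (mem_filter.1 hy').1
      have h' : ((y - a - 1) / (r : ℤ)).toNat = ((y' - a - 1) / (r : ℤ)).toNat := h
      have p1 : 0 ≤ (y - a - 1) / (r : ℤ) := Int.ediv_nonneg (by omega) hr0.le
      have p2 : 0 ≤ (y' - a - 1) / (r : ℤ) := Int.ediv_nonneg (by omega) hr0.le
      have h'' : (y - a - 1) / (r : ℤ) = (y' - a - 1) / (r : ℤ) := by omega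
      have e : (r : ℤ) ∣ (y' - a - 1) - (y - a - 1) := by
        have := dvd_sub (mem_filter.1 hy').2 (mem_filter.1 hy).2
        have e : y' - a - 1 - (y - a - 1) = y' - x - (y - x) := by ring
        rw [e]
        exact this
      have e1 : (y - a - 1) % (r : ℤ) = (y' - a - 1) % (r : ℤ) := Int.modEq_iff_dvd.2 e
      have e2 := Int.emod_add_mul_ediv (y - a - 1) r
      have e3 := Int.emod_add_mul_ediv (y' - a - 1) r
      rw [h'', e1, e3] at e2
      omega)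
  rwa [card_range] at h

theorem tri_int : TriInt := by
  intro N L hL x a b hab hbN
  obtain ⟨n, hn⟩ : ∃ n : ℕ, (n : ℤ) = b - a := ⟨(b - a).toNat, Int.toNat_of_nonneg (by linarith)⟩
  have hnN : n ≤ N := by
    have : (n : ℤ) ≤ N := by rw [hn]; exact hbN
    exact_mod_cast this
  obtain ⟨A, hA⟩ : ∃ A, A = Ioc a b := ⟨_, rfl⟩
  have hAc : A.card = n := by
    rw [hA, Int.card_Ioc, ← hn]
    rfl
  obtain ⟨C, hC⟩ : ∃ C, C = cp2 x a b := ⟨_, rfl⟩
  rw [← hC]
  obtain ⟨Z, hZ⟩ : ∃ Z, Z = (up A).filter fun r => r.1 ≠ x ∧ r.2 ≠ x ∧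
    ¬ Int.gcd (r.1 - x) (r.2 - x) = 1 := ⟨_, rfl⟩
  obtain ⟨E, hE⟩ : ∃ E : ℕ → Finset (ℤ × ℤ), E = fun r : ℕ => (up A).filter
    fun p => (r : ℤ) ∣ p.1 - x ∧ (r : ℤ) ∣ p.2 - x := ⟨_, rfl⟩
  have mE : ∀ r p, p ∈ E r ↔ p ∈ up A ∧ (r : ℤ) ∣ p.1 - x ∧ (r : ℤ) ∣ p.2 - x := by
    intro r p
    rw [hE]
    exact mem_filter
  have hcov : up A ⊆ (C ∪ Z) ∪ (A.image (fun y => (y, x)) ∪ A.image (fun y => (x, y))) := by
    intro p hp
    obtain ⟨⟨h1, h2⟩, h3⟩ := mem_up.1 hp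
    by_cases c1 : p.1 = x
    · refine mem_union_right _ (mem_union_right _ (mem_image.2 ⟨p.2, h2, ?_⟩))
      rw [← c1]
    · by_cases c2 : p.2 = x
      · refine mem_union_right _ (mem_union_left _ (mem_image.2 ⟨p.1, h1, ?_⟩))
        rw [← c2]
      · refine mem_union_left _ ?_
        by_cases c3 : Int.gcd (p.1 - x) (p.2 - x) = 1
        · refine mem_union_left _ ?_
          rw [hC, mem_cp2]
          rw [hA, mem_Ioc] at h1 h2
          exact ⟨⟨h1, h2⟩, h3, c1, c2, c3⟩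
        · refine mem_union_right _ ?_
          rw [hZ, mem_filter]
          exact ⟨hp, c1, c2, c3⟩
  have hcov' : (up A).card ≤ (C.card + Z.card) + (n + n) := by
    refine (card_le_card hcov).trans ((card_union_le _ _).trans ?_)
    refine Nat.add_le_add (card_union_le _ _) ((card_union_le _ _).trans ?_)
    refine Nat.add_le_add (card_image_le.trans hAc.le) (card_image_le.trans hAc.le)
  have hup := up_card A
  rw [hAc] at hup
  have hEc : ∀ r : ℕ, 1 ≤ r → 2 * ((E r).card : ℚ) ≤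
      (n : ℚ) ^ 2 * (1 / (r : ℚ) ^ 2) + ((n / r : ℕ) : ℚ) := by
    intro r hr
    have hsub : E r ⊆ up (A.filter fun y => (r : ℤ) ∣ y - x) := by
      intro p hp
      obtain ⟨h1, h2, h3⟩ := (mE r p).1 hp
      obtain ⟨⟨h4, h5⟩, h6⟩ := mem_up.1 h1
      exact mem_up.2 ⟨⟨mem_filter.2 ⟨h4, h2⟩, mem_filter.2 ⟨h5, h3⟩⟩, h6⟩
    have h1 := card_le_card hsub
    have h2 := up_card (A.filter fun y => (r : ℤ) ∣ y - x)
    have h3 : (A.filter fun y => (r : ℤ) ∣ y - x).card ≤ n / r + 1 := by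
      rw [hA]
      exact class_card x a b n r hn.ge hr
    obtain ⟨c, hc⟩ : ∃ c, c = (A.filter fun y => (r : ℤ) ∣ y - x).card := ⟨_, rfl⟩
    rw [← hc] at h2 h3
    have h4 : 2 * (E r).card ≤ (n / r) * (n / r) + n / r := by
      have h5 : c * c ≤ c * (n / r + 1) := Nat.mul_le_mul_left _ h3
      have h6 : c * (n / r) ≤ (n / r + 1) * (n / r) := Nat.mul_le_mul_right _ h3
      have h7 : c * (n / r + 1) = c * (n / r) + c := by ring
      have h8 : (n / r + 1) * (n / r) = (n / r) * (n / r) + n / r := by ring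
      omega
    have hr0 : (0 : ℚ) < (r : ℚ) := by exact_mod_cast hr
    have h5 : ((n / r : ℕ) : ℚ) ≤ n / r := Nat.cast_div_le
    have h6 : (0 : ℚ) ≤ ((n / r : ℕ) : ℚ) := Nat.cast_nonneg _
    have h7 : ((n / r : ℕ) : ℚ) * ((n / r : ℕ) : ℚ) ≤ ((n : ℚ) / r) * ((n : ℚ) / r) :=
      mul_le_mul h5 h5 h6 (h6.trans h5)
    have h8 : ((n : ℚ) / r) * ((n : ℚ) / r) = (n : ℚ) ^ 2 * (1 / (r : ℚ) ^ 2) := by
      field_simp
    rw [← h8]
    have h9 : 2 * ((E r).card : ℚ) ≤ ((n / r : ℕ) : ℚ) * ((n / r : ℕ) : ℚ) + ((n / r : ℕ) : ℚ) := by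
      exact_mod_cast h4
    linarith
  have hZsub : Z ⊆ ((E 2 ∪ E 3) ∪ (E 5 ∪ E 7)) ∪
      (Ico 5 (5 + n)).biUnion (fun k => E (2 * k + 1)) := by
    intro p hp
    rw [hZ, mem_filter] at hp
    obtain ⟨hpD, hpx, -, hpn⟩ := hp
    obtain ⟨⟨b1, b2⟩, b3⟩ := mem_up.1 hpD
    rw [hA, mem_Ioc] at b1 b2
    obtain ⟨r, hr, hr1⟩ := Nat.exists_prime_and_dvd hpn
    have g1 : (r : ℤ) ∣ p.1 - x :=
      (Int.natCast_dvd_natCast.2 hr1).trans (Int.gcd_dvd_left ..)
    have g2 : (r : ℤ) ∣ p.2 - x :=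
      (Int.natCast_dvd_natCast.2 hr1).trans (Int.gcd_dvd_right ..)
    have hmem : p ∈ E r := (mE r p).2 ⟨hpD, g1, g2⟩
    have hrM : r ≤ n := by
      have h5 : (r : ℤ) ∣ p.2 - p.1 := by
        have := dvd_sub g2 g1
        rwa [sub_sub_sub_cancel_right] at this
      have h6 := Int.le_of_dvd (by omega) h5
      omega
    by_cases h11 : r < 11
    · apply mem_union_left
      interval_cases r
      · exact absurd hr (by norm_num)
      · exact absurd hr (by norm_num)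
      · exact mem_union_left _ (mem_union_left _ hmem)
      · exact mem_union_left _ (mem_union_right _ hmem)
      · exact absurd hr (by norm_num)
      · exact mem_union_right _ (mem_union_left _ hmem)
      · exact absurd hr (by norm_num)
      · exact mem_union_right _ (mem_union_right _ hmem)
      · exact absurd hr (by norm_num)
      · exact absurd hr (by norm_num)
      · exact absurd hr (by norm_num)
    · apply mem_union_right
      have hodd : r % 2 = 1 := by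
        rcases hr.eq_two_or_odd with h | h
        · omega
        · exact h
      refine mem_biUnion.2 ⟨r / 2, mem_Ico.2 ⟨by omega, by omega⟩, ?_⟩
      have : 2 * (r / 2) + 1 = r := by omega
      rw [this]
      exact hmem
  have herr : ∑ k ∈ Ico 5 (5 + n), n / (2 * k + 1) ≤ n * (L + 1) := by
    have h1 := harm_le' n L (hnN.trans_lt hL)
    refine le_trans ?_ h1
    have h2 : ∑ k ∈ Ico 5 (5 + n), n / (2 * k + 1) =
        ∑ d ∈ (Ico 5 (5 + n)).image (fun k => 2 * k + 1), n / d := by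
      rw [sum_image]
      intro a _ b _ h
      have h' : 2 * a + 1 = 2 * b + 1 := h
      omega
    rw [h2]
    have h3 : ∑ d ∈ (Ico 5 (5 + n)).image (fun k => 2 * k + 1), n / d =
        ∑ d ∈ ((Ico 5 (5 + n)).image (fun k => 2 * k + 1)).filter (fun d => d ≤ n),
          n / d := by
      rw [sum_filter]
      refine sum_congr rfl fun d _ => ?_
      split_ifs with h
      · rfl
      · exact Nat.div_eq_of_lt (not_le.1 h)
    rw [h3]
    refine sum_le_sum_of_subset fun d hd => ?_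
    obtain ⟨h4, h5⟩ := mem_filter.1 hd
    obtain ⟨k, hk, rfl⟩ := mem_image.1 h4
    rw [mem_Icc]
    exact ⟨by omega, h5⟩
  have hZc : 2 * (Z.card : ℚ) ≤ (n : ℚ) ^ 2 * (472 / 1000) + (n * (L + 1) + 4 * n) := by
    have h1 : Z.card ≤ ((E 2).card + (E 3).card + ((E 5).card + (E 7).card)) +
        ∑ k ∈ Ico 5 (5 + n), (E (2 * k + 1)).card := by
      refine (card_le_card hZsub).trans ((card_union_le _ _).trans ?_)
      refine Nat.add_le_add ((card_union_le _ _).trans ?_) card_biUnion_le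
      exact Nat.add_le_add (card_union_le _ _) (card_union_le _ _)
    have h2 : (Z.card : ℚ) ≤ (((E 2).card : ℚ) + (E 3).card + ((E 5).card + (E 7).card)) +
        ∑ k ∈ Ico 5 (5 + n), ((E (2 * k + 1)).card : ℚ) := by exact_mod_cast h1
    have h3 : 2 * ∑ k ∈ Ico 5 (5 + n), ((E (2 * k + 1)).card : ℚ) ≤
        (n : ℚ) ^ 2 * (1 / 20) + (n * (L + 1)) := by
      calc 2 * ∑ k ∈ Ico 5 (5 + n), ((E (2 * k + 1)).card : ℚ)
          = ∑ k ∈ Ico 5 (5 + n), 2 * ((E (2 * k + 1)).card : ℚ) := by rw [mul_sum]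
        _ ≤ ∑ k ∈ Ico 5 (5 + n), ((n : ℚ) ^ 2 * (1 / ((2 * k + 1 : ℕ) : ℚ) ^ 2) +
            ((n / (2 * k + 1) : ℕ) : ℚ)) := sum_le_sum (fun k _ => hEc _ (by omega))
        _ = (n : ℚ) ^ 2 * (∑ k ∈ Ico 5 (5 + n), (1 : ℚ) / ((2 * k + 1 : ℕ) : ℚ) ^ 2) +
            ((∑ k ∈ Ico 5 (5 + n), n / (2 * k + 1) : ℕ) : ℚ) := by
            rw [sum_add_distrib, mul_sum, Nat.cast_sum]
        _ ≤ (n : ℚ) ^ 2 * (1 / 20) + (n * (L + 1)) := by
            refine add_le_add ?_ ?_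
            · refine mul_le_mul_of_nonneg_left ?_ (by positivity)
              have := tail_sum n
              have h0 : (0 : ℚ) ≤ 1 / (4 * ((5 + n : ℕ) : ℚ)) := by positivity
              linarith
            · exact_mod_cast herr
    have e2 := hEc 2 (by norm_num)
    have e3 := hEc 3 (by norm_num)
    have e5 := hEc 5 (by norm_num)
    have e7 := hEc 7 (by norm_num)
    have kk : ∀ r : ℕ, ((n / r : ℕ) : ℚ) ≤ n := fun r => by exact_mod_cast Nat.div_le_self n r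
    have k2 := kk 2
    have k3 := kk 3
    have k5 := kk 5
    have k7 := kk 7
    have hD0 : (0 : ℚ) ≤ (n : ℚ) ^ 2 := by positivity
    have f2 : (1 : ℚ) / ((2 : ℕ) : ℚ) ^ 2 = 1 / 4 := by norm_num
    have f3 : (1 : ℚ) / ((3 : ℕ) : ℚ) ^ 2 = 1 / 9 := by norm_num
    have f5 : (1 : ℚ) / ((5 : ℕ) : ℚ) ^ 2 = 1 / 25 := by norm_num
    have f7 : (1 : ℚ) / ((7 : ℕ) : ℚ) ^ 2 = 1 / 49 := by norm_num
    rw [f2] at e2
    rw [f3] at e3
    rw [f5] at e5
    rw [f7] at e7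
    linarith
  have q1 : 2 * ((up A).card : ℚ) + n = (n : ℚ) ^ 2 := by
    have : 2 * ((up A).card : ℚ) + n = (n : ℚ) * n := by exact_mod_cast hup
    rw [this]
    ring
  have q2 : ((up A).card : ℚ) ≤ (C.card + Z.card) + (n + n) := by exact_mod_cast hcov'
  have q3 : (n : ℚ) ≤ N := by exact_mod_cast hnN
  have q4 : (n : ℚ) * L ≤ N * L := mul_le_mul_of_nonneg_right q3 (Nat.cast_nonneg _)
  have q5 : (0 : ℚ) ≤ (n : ℚ) * L := by positivity
  have q6 : (0 : ℚ) ≤ (n : ℚ) := Nat.cast_nonneg _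
  have goal : (528 : ℚ) * (n : ℚ) ^ 2 ≤ 2000 * (C.card : ℚ) + 10 ^ 5 * N * (L + 1) := by
    have hexp : (10 : ℚ) ^ 5 * N * (L + 1) = 10 ^ 5 * (N * L) + 10 ^ 5 * N := by ring
    have hexp2 : (n : ℚ) * (L + 1) + 4 * n = n * L + 5 * n := by ring
    rw [hexp2] at hZc
    rw [hexp]
    linarith
  rw [← hn]
  exact_mod_cast goal

end Pool.Agent.H3.AP
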