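import Pool.Agent.H3.AP.Diff

/-!
Progressions with difference 2, some of which avoid a given point.
-/

set_option autoImplicit false

namespace Pool.Agent.H3.AP

open Finset

theorem two_count (N α : ℕ) (x : ℤ) (G : Finset (Finset ℤ)) (hsub : ∀ A ∈ G, A ⊆ Icc 1 (N : ℤ))
    (hG : ∀ A ∈ G, ∃ (a : ℤ) (l : ℕ), 1 ≤ l ∧ A = stp 2 a l)
    (hint : ∀ A ∈ G, ∀ B ∈ G, (A ∩ B).Nonempty)
    (hα1 : 1 ≤ α) (hα : ∀ A ∈ G, x ∉ A → α ≤ A.card)
    (A0 : Finset ℤ) (hA0 : A0 ∈ G) (hx0 : x ∉ A0) :
    G.card ≤ (N / 2 + 2 - α) ^ 2 + (N / 2 + 2 - α) * (N / 2 + 2) := by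
  classical
  choose! a l hl hA using hG
  set e : Finset ℤ → ℤ := fun A => a A + ((l A - 1 : ℕ) : ℤ) * 2 with he
  -- parity
  have hpar : ∀ A ∈ G, ∀ w ∈ A, ∃ i : ℕ, i ≤ l A - 1 ∧ w = a A + 2 * i := by
    intro A hAG w hw
    rw [hA A hAG] at hw
    obtain ⟨i, hi, ei⟩ := mem_stp.1 hw
    exact ⟨i, by omega, by rw [← ei]; push_cast; ring⟩
  have hpar2 : ∀ A ∈ G, a A % 2 = a A0 % 2 := by
    intro A hAG
    obtain ⟨w, hw⟩ := hint A hAG A0 hA0
    obtain ⟨hw1, hw2⟩ := mem_inter.1 hw
    obtain ⟨i, hi, ei⟩ := hpar A hAG w hw1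
    obtain ⟨j, hj, ej⟩ := hpar A0 hA0 w hw2
    omega
  have hab : ∀ A ∈ G, 1 ≤ a A ∧ e A ≤ N ∧ a A ≤ e A := by
    intro A hAG
    have h1 := mem_Icc.1 (hsub A hAG (by rw [hA A hAG]; exact start_mem (hl A hAG)))
    have h2 := mem_Icc.1 (hsub A hAG (by rw [hA A hAG]; exact end_mem (hl A hAG)))
    refine ⟨h1.1, ?_, ?_⟩
    · have := h2.2
      rw [he]; dsimp only
      push_cast at this ⊢
      exact this
    · rw [he]; dsimp only; omega
  have hlα : ∀ A ∈ G, x ∉ A → α ≤ l A := by
    intro A hAG hx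
    have h1 := hα A hAG hx
    have h2 : A.card ≤ l A := by
      conv_lhs => rw [hA A hAG]
      exact card_stp_le _ _ _
    omega
  have hinj : ∀ A ∈ G, ∀ B ∈ G, (a A).toNat / 2 = (a B).toNat / 2 → (e A).toNat / 2 = (e B).toNat / 2 →
      A = B := by
    intro A hAG B hBG h1 h2
    have p1 := hpar2 A hAG
    have p2 := hpar2 B hBG
    obtain ⟨b1, b2, b3⟩ := hab A hAG
    obtain ⟨c1, c2, c3⟩ := hab B hBG
    have ea : a A = a B := by omega
    have ee : e A = e B := by
      have q1 : e A % 2 = a A % 2 := by rw [he]; dsimp only; omega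
      have q2 : e B % 2 = a B % 2 := by rw [he]; dsimp only; omega
      omega
    have el : l A = l B := by
      rw [he] at ee
      dsimp only at ee
      have := hl A hAG
      have := hl B hBG
      omega
    rw [hA A hAG, hA B hBG, ea, el]
  have hsplit : (G.filter (fun A => x ∈ A)).card + (G.filter (fun A => ¬ x ∈ A)).card = G.card :=
    card_filter_add_card_filter_not _
  -- the members that avoid x
  have c0 : (G.filter (fun A => ¬ x ∈ A)).card ≤ (N / 2 + 2 - α) ^ 2 := by
    have : (G.filter (fun A => ¬ x ∈ A)).card ≤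
        ((range (N / 2 + 2 - α)) ×ˢ (Ico (α - 1) (N / 2 + 1))).card := by
      apply card_le_card_of_injOn (fun A => ((a A).toNat / 2, (e A).toNat / 2))
      · intro A hAG
        obtain ⟨h1, h2⟩ := mem_filter.1 (mem_coe.1 hAG)
        have h3 := hlα A h1 h2
        obtain ⟨b1, b2, b3⟩ := hab A h1
        rw [he] at b2
        dsimp only at b2
        rw [mem_coe, mem_product, mem_range, mem_Ico, he]
        dsimp only
        refine ⟨by omega, by omega, by omega⟩
      · intro A hAG B hBG h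
        obtain ⟨h1, h2⟩ := Prod.mk.inj h
        exact hinj A (mem_filter.1 (mem_coe.1 hAG)).1 B (mem_filter.1 (mem_coe.1 hBG)).1 h1 h2
    rw [card_product, card_range, Nat.card_Ico] at this
    calc _ ≤ _ := this
      _ ≤ (N / 2 + 2 - α) * (N / 2 + 2 - α) := Nat.mul_le_mul_left _ (by omega)
      _ = (N / 2 + 2 - α) ^ 2 := by ring
  -- the members through x
  have c1 : (G.filter (fun A => x ∈ A)).card ≤ (N / 2 + 2 - α) * (N / 2 + 2) := by
    rcases (G.filter (fun A => x ∈ A)).eq_empty_or_nonempty with h0 | ⟨A1, hA1⟩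
    · rw [h0]; simp
    obtain ⟨hA1G, hxA1⟩ := mem_filter.1 hA1
    have hlA0 := hlα A0 hA0 hx0
    obtain ⟨b1, b2, b3⟩ := hab A0 hA0
    have b2' := b2
    rw [he] at b2'
    dsimp only at b2'
    obtain ⟨i1, hi1, ei1⟩ := hpar A1 hA1G x hxA1
    have p1 := hpar2 A1 hA1G
    have hxr : x < a A0 ∨ e A0 < x := by
      by_contra hc
      push Not at hc
      obtain ⟨hc1, hc2⟩ := hc
      apply hx0
      rw [hA A0 hA0]
      rw [he] at hc2
      dsimp only at hc2
      refine mem_stp.2 ⟨((x - a A0) / 2).toNat, by omega, ?_⟩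
      have : (((x - a A0) / 2).toNat : ℤ) = (x - a A0) / 2 := Int.toNat_of_nonneg (by omega)
      rw [this]
      push_cast
      omega
    have hmem : ∀ A ∈ G.filter (fun A => x ∈ A), A ∈ G ∧ a A ≤ x ∧ x ≤ e A := by
      intro A hAx
      obtain ⟨h1, h2⟩ := mem_filter.1 hAx
      obtain ⟨i, hi, ei⟩ := hpar A h1 x h2
      refine ⟨h1, by omega, ?_⟩
      rw [he]; dsimp only; omega
    rcases hxr with hxr | hxr
    · have : (G.filter (fun A => x ∈ A)).card ≤
          ((range (N / 2 + 2 - α)) ×ˢ (range (N / 2 + 2))).card := by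
        apply card_le_card_of_injOn (fun A => ((a A).toNat / 2, (e A).toNat / 2))
        · intro A hAG
          obtain ⟨h1, h2, h3⟩ := hmem A (mem_coe.1 hAG)
          obtain ⟨d1, d2, d3⟩ := hab A h1
          rw [mem_coe, mem_product, mem_range, mem_range]
          dsimp only
          refine ⟨by omega, by omega⟩
        · intro A hAG B hBG h
          obtain ⟨h1, h2⟩ := Prod.mk.inj h
          exact hinj A (hmem A (mem_coe.1 hAG)).1 B (hmem B (mem_coe.1 hBG)).1 h1 h2
      rwa [card_product, card_range, card_range] at this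
    · have : (G.filter (fun A => x ∈ A)).card ≤
          ((range (N / 2 + 2)) ×ˢ (Ico α (N / 2 + 1))).card := by
        apply card_le_card_of_injOn (fun A => ((a A).toNat / 2, (e A).toNat / 2))
        · intro A hAG
          obtain ⟨h1, h2, h3⟩ := hmem A (mem_coe.1 hAG)
          obtain ⟨d1, d2, d3⟩ := hab A h1
          have q1 : e A0 % 2 = a A0 % 2 := by rw [he]; dsimp only; omega
          have hge : 2 * (α : ℤ) - 1 ≤ e A0 := by rw [he]; dsimp only; omega
          rw [mem_coe, mem_product, mem_range, mem_Ico]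
          dsimp only
          refine ⟨by omega, by omega, by omega⟩
        · intro A hAG B hBG h
          obtain ⟨h1, h2⟩ := Prod.mk.inj h
          exact hinj A (hmem A (mem_coe.1 hAG)).1 B (hmem B (mem_coe.1 hBG)).1 h1 h2
      rw [card_product, card_range, Nat.card_Ico] at this
      calc _ ≤ _ := this
        _ ≤ (N / 2 + 2) * (N / 2 + 2 - α) := Nat.mul_le_mul_left _ (by omega)
        _ = _ := by ring
  omega

end Pool.Agent.H3.AP
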