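import Pool.Agent.H3.AP.Cop
import Pool.Agent.H3.AP.Free2

/-!
The count for an UP-DOWN region (helper82, after the paper proof of helper3).
-/

set_option autoImplicit false

namespace Pool.Agent.H3.AP

open Finset

open scoped Classical

theorem harm_le' (N L : ℕ) (hL : N < 2 ^ L) : ∑ d ∈ Icc 1 N, N / d ≤ N * (L + 1) := by
  rcases Nat.eq_zero_or_pos N with rfl | hN
  · simp
  have h1 : ((∑ d ∈ Icc 1 N, N / d : ℕ) : ℝ) ≤ N * (harmonic N : ℝ) := by
    rw [harmonic_eq_sum_Icc]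
    push_cast
    rw [mul_sum]
    apply sum_le_sum
    intro d hd
    have := @Nat.cast_div_le ℝ _ _ _ N d
    rw [div_eq_mul_inv] at this
    exact this
  have h2 := harmonic_le_one_add_log N
  have h3 : Real.log N ≤ L := by
    have h4 : (N : ℝ) ≤ 2 ^ L := by exact_mod_cast hL.le
    have h5 : Real.log N ≤ Real.log (2 ^ L) := Real.log_le_log (by exact_mod_cast hN) h4
    rw [Real.log_pow] at h5
    have h6 : Real.log 2 ≤ 1 := by
      have := Real.log_two_lt_d9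
      linarith
    have h7 : (0 : ℝ) ≤ L := Nat.cast_nonneg L
    nlinarith
  have h8 : ((∑ d ∈ Icc 1 N, N / d : ℕ) : ℝ) ≤ ((N * (L + 1) : ℕ) : ℝ) := by
    refine h1.trans ?_
    push_cast
    have h9 : (0 : ℝ) ≤ N := Nat.cast_nonneg N
    have : (harmonic N : ℝ) ≤ L + 1 := by linarith
    exact mul_le_mul_of_nonneg_left this h9
  exact_mod_cast h8

/-- the UP-DOWN region of `S` -/
noncomputable def UD (N : ℕ) (S : Finset (ℕ × ℕ)) : Finset (ℕ × ℕ) :=
  (Icc 1 N ×ˢ Icc 1 N).filter fun r => (∃ s ∈ S, s.1 < r.1 ∧ s.2 < r.2) ∧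
    ∃ s ∈ S, r.1 ≤ s.1 ∧ r.2 ≤ s.2

theorem mem_UD {N : ℕ} {S : Finset (ℕ × ℕ)} (hS : ∀ s ∈ S, s.1 ≤ N ∧ s.2 ≤ N) {r : ℕ × ℕ} :
    r ∈ UD N S ↔ (∃ s ∈ S, s.1 < r.1 ∧ s.2 < r.2) ∧ ∃ s ∈ S, r.1 ≤ s.1 ∧ r.2 ≤ s.2 := by
  unfold UD
  rw [mem_filter, mem_product, mem_Icc, mem_Icc]
  constructor
  · exact fun h => h.2
  · intro h
    refine ⟨?_, h⟩
    obtain ⟨⟨s, hs, h1, h2⟩, s', hs', h3, h4⟩ := h
    have := hS s' hs'
    omega

/-- the diagonals -/
theorem UD_card {N : ℕ} {S : Finset (ℕ × ℕ)} (hS : ∀ s ∈ S, s.1 ≤ N ∧ s.2 ≤ N) :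
    S.card ≤ (UD N S).card + (2 * N + 1) := by
  have h1 := card_filter_add_card_filter_not (s := S) (fun s : ℕ × ℕ => s ∈ UD N S)
  have h2 : (S.filter fun s => s ∈ UD N S).card ≤ (UD N S).card :=
    card_le_card fun s hs => (mem_filter.1 hs).2
  have h3 : (S.filter fun s => ¬ s ∈ UD N S).card ≤ (range (2 * N + 1)).card := by
    refine card_le_card_of_injOn (fun s => s.1 + N - s.2) ?_ ?_
    · intro s hs
      have := hS s (mem_filter.1 hs).1
      rw [mem_coe, mem_range]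
      dsimp only
      omega
    · have key : ∀ s ∈ S.filter (fun s => ¬ s ∈ UD N S), ∀ s' ∈ S.filter (fun s => ¬ s ∈ UD N S),
          s.1 + N - s.2 = s'.1 + N - s'.2 → ¬ s.1 < s'.1 := by
        intro s hs s' hs' h hlt
        have b1 := hS s (mem_filter.1 hs).1
        have b2 := hS s' (mem_filter.1 hs').1
        apply (mem_filter.1 hs').2
        rw [mem_UD hS]
        exact ⟨⟨s, (mem_filter.1 hs).1, hlt, by omega⟩, s', (mem_filter.1 hs').1, le_rfl, le_rfl⟩
      intro s hs s' hs' h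
      have h' : s.1 + N - s.2 = s'.1 + N - s'.2 := h
      have a1 := key s hs s' hs' h'
      have a2 := key s' hs' s hs h'.symm
      have b1 := hS s (mem_filter.1 hs).1
      have b2 := hS s' (mem_filter.1 hs').1
      exact Prod.ext (by omega) (by omega)
  rw [card_range] at h3
  omega

/-- the points of the region in a class modulo `r` -/
noncomputable def Er (N D : ℕ) (S : Finset (ℕ × ℕ)) (r : ℕ) : Finset (ℕ × ℕ) :=
  (UD N S).filter fun p => (r : ℤ) ∣ (D : ℤ) - p.1 ∧ (r : ℤ) ∣ (D : ℤ) + p.2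

theorem res_count' (N r : ℕ) (hr : 1 ≤ r) (c : ℤ) :
    ((range (2 * N + 1)).filter fun k : ℕ => (r : ℤ) ∣ (k : ℤ) - c).card ≤ 2 * N / r + 1 := by
  have h := card_le_card_of_injOn (s := (range (2 * N + 1)).filter fun k : ℕ => (r : ℤ) ∣ (k : ℤ) - c)
    (t := range (2 * N / r + 1)) (fun k => k / r) (by
      intro k hk
      have hk1 := mem_range.1 (mem_filter.1 hk).1
      rw [mem_coe, mem_range]
      dsimp only
      have : k / r ≤ 2 * N / r := Nat.div_le_div_right (by omega)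
      omega) (by
      intro k hk k' hk' h
      have h' : k / r = k' / r := h
      have e : (r : ℤ) ∣ (k : ℤ) - k' := by
        have := dvd_sub (mem_filter.1 hk).2 (mem_filter.1 hk').2
        rwa [sub_sub_sub_cancel_right] at this
      have e1 : k % r = k' % r := by
        have := (Int.emod_emod_of_dvd (k : ℤ) (dvd_refl (r : ℤ)))
        have h5 : (k : ℤ) ≡ k' [ZMOD r] := (Int.modEq_iff_dvd.2 (by
          have := (dvd_neg.2 e)
          rwa [neg_sub] at this))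
        exact_mod_cast h5
      have e2 := Nat.div_add_mod k r
      have e3 := Nat.div_add_mod k' r
      rw [h', e1] at e2
      omega)
  rwa [card_range] at h

theorem Er_card {N : ℕ} {S : Finset (ℕ × ℕ)} (hS : ∀ s ∈ S, s.1 ≤ N ∧ s.2 ≤ N) (D r : ℕ)
    (hr : 1 ≤ r) :
    (Er N D S r).card * r ^ 2 ≤ (UD N S).card + (2 * N / r + 1) * r ^ 2 := by
  -- the points with a full block
  obtain ⟨B, hB⟩ : ∃ B, B = (Er N D S r).filter
    (fun p => ∃ s ∈ S, s.1 + r ≤ p.1 ∧ s.2 + r ≤ p.2) := ⟨_, rfl⟩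
  have mE : ∀ p ∈ Er N D S r, p ∈ UD N S ∧ (r : ℤ) ∣ (D : ℤ) - p.1 ∧ (r : ℤ) ∣ (D : ℤ) + p.2 :=
    fun p hp => mem_filter.1 hp
  have hsplit := card_filter_add_card_filter_not (s := Er N D S r)
    (fun p : ℕ × ℕ => ∃ s ∈ S, s.1 + r ≤ p.1 ∧ s.2 + r ≤ p.2)
  rw [← hB] at hsplit
  have h1 : (B ×ˢ (range r ×ˢ range r)).card ≤ (UD N S).card := by
    refine card_le_card_of_injOn (fun t => (t.1.1 - t.2.1, t.1.2 - t.2.2)) ?_ ?_
    · rintro ⟨⟨p, q⟩, a, b⟩ ht
      rw [mem_coe, mem_product, mem_product, mem_range, mem_range, hB, mem_filter] at ht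
      obtain ⟨⟨h2, s, hs, h3, h4⟩, h5, h6⟩ := ht
      dsimp only at h2 h3 h4 h5 h6
      have h7 := (mem_UD hS).1 (mE _ h2).1
      obtain ⟨-, s', hs', h8, h9⟩ := h7
      dsimp only at h8 h9
      rw [mem_coe, mem_UD hS]
      dsimp only
      exact ⟨⟨s, hs, by omega, by omega⟩, s', hs', by omega, by omega⟩
    · rintro ⟨⟨p, q⟩, a, b⟩ ht ⟨⟨p', q'⟩, a', b'⟩ ht' heq
      rw [mem_coe, mem_product, mem_product, mem_range, mem_range, hB, mem_filter] at ht ht'
      obtain ⟨⟨h2, s, hs, h3, h4⟩, h5, h6⟩ := ht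
      obtain ⟨⟨h2', s', hs', h3', h4'⟩, h5', h6'⟩ := ht'
      dsimp only at h2 h3 h4 h5 h6 h2' h3' h4' h5' h6' heq
      obtain ⟨e1, e2⟩ := Prod.mk.inj heq
      obtain ⟨-, g1, g2⟩ := mE _ h2
      obtain ⟨-, g1', g2'⟩ := mE _ h2'
      dsimp only at g1 g2 g1' g2'
      have step : ∀ u v c d : ℕ, (r : ℤ) ∣ (u : ℤ) - v → r ≤ u → r ≤ v → c < r → d < r →
          u - c = v - d → u = v ∧ c = d := by
        intro u v c d hdv hu hv hc hd h
        have h10 : (u : ℤ) - v = (c : ℤ) - d := by omega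
        have h11 : (c : ℤ) - d = 0 := by
          rw [h10] at hdv
          refine Int.eq_zero_of_abs_lt_dvd hdv ?_
          rw [abs_lt]
          constructor <;> omega
        omega
      have d1 : (r : ℤ) ∣ (p : ℤ) - p' := by
        have := dvd_sub g1' g1
        rwa [sub_sub_sub_cancel_left] at this
      have d2 : (r : ℤ) ∣ (q : ℤ) - q' := by
        have := dvd_sub g2 g2'
        rwa [add_sub_add_left_eq_sub] at this
      obtain ⟨f1, f2⟩ := step p p' a a' d1 (by omega) (by omega) h5 h5' e1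
      obtain ⟨f3, f4⟩ := step q q' b b' d2 (by omega) (by omega) h6 h6' e2
      subst f1; subst f2; subst f3; subst f4
      rfl
  have h2 : ((Er N D S r).filter
      (fun p => ¬ ∃ s ∈ S, s.1 + r ≤ p.1 ∧ s.2 + r ≤ p.2)).card ≤ 2 * N / r + 1 := by
    refine le_trans ?_ (res_count' N r hr (2 * D + N))
    refine card_le_card_of_injOn (fun p => p.1 + N - p.2) ?_ ?_
    · intro p hp
      have hp1 := mE p (mem_filter.1 hp).1
      obtain ⟨⟨s, hs, b1, b2⟩, s', hs', b3, b4⟩ := (mem_UD hS).1 hp1.1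
      have b5 := hS s' hs'
      rw [mem_coe, mem_filter, mem_range]
      dsimp only
      refine ⟨by omega, ?_⟩
      have e : ((p.1 + N - p.2 : ℕ) : ℤ) - (2 * D + N) = -(((D : ℤ) - p.1) + ((D : ℤ) + p.2)) := by
        rw [Nat.cast_sub (by omega)]
        push_cast
        ring
      rw [e]
      exact (dvd_neg.2 (dvd_add hp1.2.1 hp1.2.2))
    · have key : ∀ p ∈ (Er N D S r).filter (fun p => ¬ ∃ s ∈ S, s.1 + r ≤ p.1 ∧ s.2 + r ≤ p.2),
          ∀ p' ∈ (Er N D S r).filter (fun p => ¬ ∃ s ∈ S, s.1 + r ≤ p.1 ∧ s.2 + r ≤ p.2),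
          p.1 + N - p.2 = p'.1 + N - p'.2 → ¬ p.1 < p'.1 := by
        intro p hp p' hp' h hlt
        have hp1 := mE p (mem_filter.1 hp).1
        have hp1' := mE p' (mem_filter.1 hp').1
        obtain ⟨⟨s, hs, b1, b2⟩, s2, hs2, b3, b4⟩ := (mem_UD hS).1 hp1.1
        obtain ⟨-, s3, hs3, b5, b6⟩ := (mem_UD hS).1 hp1'.1
        have b7 := hS s2 hs2
        have b8 := hS s3 hs3
        apply (mem_filter.1 hp').2
        have d1 : (r : ℤ) ∣ (p'.1 : ℤ) - p.1 := by
          have := dvd_sub hp1.2.1 hp1'.2.1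
          rwa [sub_sub_sub_cancel_left] at this
        have h12 : (r : ℤ) ≤ (p'.1 : ℤ) - p.1 := Int.le_of_dvd (by omega) d1
        exact ⟨s, hs, by omega, by omega⟩
      intro p hp p' hp' h
      have h' : p.1 + N - p.2 = p'.1 + N - p'.2 := h
      have a1 := key p hp p' hp' h'
      have a2 := key p' hp' p hp h'.symm
      obtain ⟨-, s2, hs2, b3, b4⟩ := (mem_UD hS).1 (mE p (mem_filter.1 hp).1).1
      obtain ⟨-, s3, hs3, b5, b6⟩ := (mem_UD hS).1 (mE p' (mem_filter.1 hp').1).1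
      have b7 := hS s2 hs2
      have b8 := hS s3 hs3
      exact Prod.ext (by omega) (by omega)
  rw [card_product, card_product, card_range] at h1
  rw [← hsplit, add_mul]
  refine Nat.add_le_add ?_ (Nat.mul_le_mul_right _ h2)
  calc B.card * r ^ 2 = B.card * (r * r) := by ring
    _ ≤ _ := h1

theorem updn : Updn := by
  intro N L D hL S hS R hR
  obtain ⟨Z, hZ⟩ : ∃ Z, Z = (UD N S).filter
    (fun r => ¬ Int.gcd ((D : ℤ) - r.1) ((D : ℤ) + r.2) = 1) := ⟨_, rfl⟩
  have hsplit := card_filter_add_card_filter_not (s := UD N S)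
    (fun r : ℕ × ℕ => Int.gcd ((D : ℤ) - r.1) ((D : ℤ) + r.2) = 1)
  rw [← hZ] at hsplit
  have hsub : (UD N S).filter (fun r => Int.gcd ((D : ℤ) - r.1) ((D : ℤ) + r.2) = 1) ⊆
      R.filter (fun r => Int.gcd ((D : ℤ) - r.1) ((D : ℤ) + r.2) = 1) := by
    intro r hr
    obtain ⟨h1, h2⟩ := mem_filter.1 hr
    obtain ⟨⟨s, hs, b1, b2⟩, s', hs', b3, b4⟩ := (mem_UD hS).1 h1
    exact mem_filter.2 ⟨hR s hs s' hs' r.1 r.2 b1 b2 b3 b4, h2⟩
  have hEc : ∀ r : ℕ, 1 ≤ r → ((Er N D S r).card : ℚ) ≤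
      (UD N S).card * (1 / (r : ℚ) ^ 2) + ((2 * N / r + 1 : ℕ) : ℚ) := by
    intro r hr
    have h := Er_card hS D r hr
    have hr0 : (0 : ℚ) < (r : ℚ) ^ 2 := by
      have : (0 : ℚ) < r := by exact_mod_cast hr
      positivity
    have h' : ((Er N D S r).card : ℚ) * (r : ℚ) ^ 2 ≤
        (UD N S).card + ((2 * N / r + 1 : ℕ) : ℚ) * (r : ℚ) ^ 2 := by exact_mod_cast h
    have h'' : (UD N S).card * (1 / (r : ℚ) ^ 2) + ((2 * N / r + 1 : ℕ) : ℚ) =
        ((UD N S).card + ((2 * N / r + 1 : ℕ) : ℚ) * (r : ℚ) ^ 2) / (r : ℚ) ^ 2 := by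
      field_simp
    rw [h'', le_div_iff₀ hr0]
    exact h'
  have hZsub : Z ⊆ ((Er N D S 2 ∪ Er N D S 3) ∪ (Er N D S 5 ∪ Er N D S 7)) ∪
      (Ico 5 (5 + 2 * N)).biUnion (fun k => Er N D S (2 * k + 1)) := by
    intro p hp
    rw [hZ, mem_filter] at hp
    obtain ⟨hpD, hpn⟩ := hp
    obtain ⟨⟨s, hs, b1, b2⟩, s', hs', b3, b4⟩ := (mem_UD hS).1 hpD
    have b5 := hS s' hs'
    obtain ⟨r, hr, hr1⟩ := Nat.exists_prime_and_dvd hpn
    have g1 : (r : ℤ) ∣ (D : ℤ) - p.1 :=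
      (Int.natCast_dvd_natCast.2 hr1).trans (Int.gcd_dvd_left ..)
    have g2 : (r : ℤ) ∣ (D : ℤ) + p.2 :=
      (Int.natCast_dvd_natCast.2 hr1).trans (Int.gcd_dvd_right ..)
    have hmem : p ∈ Er N D S r := mem_filter.2 ⟨hpD, g1, g2⟩
    have hrM : r ≤ 2 * N := by
      have h5 : (r : ℤ) ∣ ((p.1 + p.2 : ℕ) : ℤ) := by
        have := dvd_sub g2 g1
        have e : (D : ℤ) + p.2 - ((D : ℤ) - p.1) = ((p.1 + p.2 : ℕ) : ℤ) := by
          push_cast
          ring
        rwa [e] at this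
      have h6 := Nat.le_of_dvd (by omega) (Int.natCast_dvd_natCast.1 h5)
      omega
    by_cases h11 : r < 11
    · apply mem_union_left
      interval_cases r
      · exact absurd hr (by norm_num)
      · exact absurd hr (by norm_num)
      · exact mem_union_left _ (mem_union_left _ hmem)
      · exact mem_union_left _ (mem_union_right _ hmem)
      · exact absurd hr (by norm_num)
      · exact mem_union_right _ (mem_union_left _ hmem)
      · exact absurd hr (by norm_num)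
      · exact mem_union_right _ (mem_union_right _ hmem)
      · exact absurd hr (by norm_num)
      · exact absurd hr (by norm_num)
      · exact absurd hr (by norm_num)
    · apply mem_union_right
      have hodd : r % 2 = 1 := by
        rcases hr.eq_two_or_odd with h | h
        · omega
        · exact h
      refine mem_biUnion.2 ⟨r / 2, mem_Ico.2 ⟨by omega, by omega⟩, ?_⟩
      have : 2 * (r / 2) + 1 = r := by omega
      rw [this]
      exact hmem
  -- the sum of the error terms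
  have herr : ∑ k ∈ Ico 5 (5 + 2 * N), (2 * N / (2 * k + 1) + 1) ≤ 2 * N * (L + 2) + 2 * N := by
    rw [sum_add_distrib, sum_const, Nat.card_Ico, smul_eq_mul, mul_one, Nat.add_sub_cancel_left]
    refine Nat.add_le_add_right ?_ _
    have h1 := harm_le' (2 * N) (L + 1) (by rw [pow_succ]; omega)
    refine le_trans ?_ h1
    have h2 : ∑ k ∈ Ico 5 (5 + 2 * N), 2 * N / (2 * k + 1) =
        ∑ d ∈ (Ico 5 (5 + 2 * N)).image (fun k => 2 * k + 1), 2 * N / d := by
      rw [sum_image]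
      intro a _ b _ h
      have h' : 2 * a + 1 = 2 * b + 1 := h
      omega
    rw [h2]
    have h3 : ∑ d ∈ (Ico 5 (5 + 2 * N)).image (fun k => 2 * k + 1), 2 * N / d =
        ∑ d ∈ ((Ico 5 (5 + 2 * N)).image (fun k => 2 * k + 1)).filter (fun d => d ≤ 2 * N),
          2 * N / d := by
      rw [sum_filter]
      refine sum_congr rfl fun d _ => ?_
      split_ifs with h
      · rfl
      · exact Nat.div_eq_of_lt (not_le.1 h)
    rw [h3]
    refine sum_le_sum_of_subset fun d hd => ?_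
    obtain ⟨h4, h5⟩ := mem_filter.1 hd
    obtain ⟨k, hk, rfl⟩ := mem_image.1 h4
    rw [mem_Icc]
    exact ⟨by omega, h5⟩
  have hZc : (Z.card : ℚ) ≤ (UD N S).card * (472 / 1000) + (2 * N * (L + 2) + 10 * N + 4) := by
    have h1 : Z.card ≤ ((Er N D S 2).card + (Er N D S 3).card +
        ((Er N D S 5).card + (Er N D S 7).card)) +
        ∑ k ∈ Ico 5 (5 + 2 * N), (Er N D S (2 * k + 1)).card := by
      refine (card_le_card hZsub).trans ((card_union_le _ _).trans ?_)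
      refine Nat.add_le_add ((card_union_le _ _).trans ?_) card_biUnion_le
      exact Nat.add_le_add (card_union_le _ _) (card_union_le _ _)
    have h2 : (Z.card : ℚ) ≤ (((Er N D S 2).card : ℚ) + (Er N D S 3).card +
        ((Er N D S 5).card + (Er N D S 7).card)) +
        ∑ k ∈ Ico 5 (5 + 2 * N), ((Er N D S (2 * k + 1)).card : ℚ) := by exact_mod_cast h1
    have h3 : ∑ k ∈ Ico 5 (5 + 2 * N), ((Er N D S (2 * k + 1)).card : ℚ) ≤
        (UD N S).card * (1 / 20) + (2 * N * (L + 2) + 2 * N) := by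
      calc ∑ k ∈ Ico 5 (5 + 2 * N), ((Er N D S (2 * k + 1)).card : ℚ)
          ≤ ∑ k ∈ Ico 5 (5 + 2 * N), (((UD N S).card : ℚ) * (1 / ((2 * k + 1 : ℕ) : ℚ) ^ 2) +
            ((2 * N / (2 * k + 1) + 1 : ℕ) : ℚ)) := sum_le_sum (fun k _ => hEc _ (by omega))
        _ = (UD N S).card * (∑ k ∈ Ico 5 (5 + 2 * N), (1 : ℚ) / ((2 * k + 1 : ℕ) : ℚ) ^ 2) +
            ((∑ k ∈ Ico 5 (5 + 2 * N), (2 * N / (2 * k + 1) + 1) : ℕ) : ℚ) := by
            rw [sum_add_distrib, mul_sum, Nat.cast_sum]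
        _ ≤ (UD N S).card * (1 / 20) + (2 * N * (L + 2) + 2 * N) := by
            refine add_le_add ?_ ?_
            · refine mul_le_mul_of_nonneg_left ?_ (Nat.cast_nonneg _)
              have := tail_sum (2 * N)
              have h0 : (0 : ℚ) ≤ 1 / (4 * ((5 + 2 * N : ℕ) : ℚ)) := by positivity
              linarith
            · exact_mod_cast herr
    have e2 := hEc 2 (by norm_num)
    have e3 := hEc 3 (by norm_num)
    have e5 := hEc 5 (by norm_num)
    have e7 := hEc 7 (by norm_num)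
    have k2 : ((2 * N / 2 + 1 : ℕ) : ℚ) ≤ 2 * N + 1 := by
      have : 2 * N / 2 + 1 ≤ 2 * N + 1 := by omega
      exact_mod_cast this
    have k3 : ((2 * N / 3 + 1 : ℕ) : ℚ) ≤ 2 * N + 1 := by
      have : 2 * N / 3 + 1 ≤ 2 * N + 1 := by omega
      exact_mod_cast this
    have k5 : ((2 * N / 5 + 1 : ℕ) : ℚ) ≤ 2 * N + 1 := by
      have : 2 * N / 5 + 1 ≤ 2 * N + 1 := by omega
      exact_mod_cast this
    have k7 : ((2 * N / 7 + 1 : ℕ) : ℚ) ≤ 2 * N + 1 := by
      have : 2 * N / 7 + 1 ≤ 2 * N + 1 := by omega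
      exact_mod_cast this
    have hD0 : (0 : ℚ) ≤ (UD N S).card := Nat.cast_nonneg _
    have f2 : (1 : ℚ) / ((2 : ℕ) : ℚ) ^ 2 = 1 / 4 := by norm_num
    have f3 : (1 : ℚ) / ((3 : ℕ) : ℚ) ^ 2 = 1 / 9 := by norm_num
    have f5 : (1 : ℚ) / ((5 : ℕ) : ℚ) ^ 2 = 1 / 25 := by norm_num
    have f7 : (1 : ℚ) / ((7 : ℕ) : ℚ) ^ 2 = 1 / 49 := by norm_num
    rw [f2] at e2
    rw [f3] at e3
    rw [f5] at e5
    rw [f7] at e7
    linarith
  have hU := UD_card hS
  have hC := card_le_card hsub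
  have q1 : ((S.card : ℕ) : ℚ) ≤ (UD N S).card + (2 * N + 1) := by exact_mod_cast hU
  have q2 : (((UD N S).filter (fun r => Int.gcd ((D : ℤ) - r.1) ((D : ℤ) + r.2) = 1)).card : ℚ) ≤
      ((R.filter (fun r => Int.gcd ((D : ℤ) - r.1) ((D : ℤ) + r.2) = 1)).card : ℚ) := by
    exact_mod_cast hC
  have q3 : (((UD N S).filter (fun r => Int.gcd ((D : ℤ) - r.1) ((D : ℤ) + r.2) = 1)).card : ℚ) +
      Z.card = (UD N S).card := by exact_mod_cast hsplit
  have hNL : (0 : ℚ) ≤ (N : ℚ) * L := by positivity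
  have hN0 : (0 : ℚ) ≤ (N : ℚ) := Nat.cast_nonneg _
  have goal : (528 : ℚ) * S.card ≤
      1000 * ((R.filter (fun r => Int.gcd ((D : ℤ) - r.1) ((D : ℤ) + r.2) = 1)).card : ℚ) +
      10 ^ 5 * N * (L + 1) + 10 ^ 5 := by
    have hexp : (10 : ℚ) ^ 5 * N * (L + 1) = 10 ^ 5 * (N * L) + 10 ^ 5 * N := by ring
    have hexp2 : 2 * (N : ℚ) * (L + 2) + 10 * N + 4 = 2 * (N * L) + 14 * N + 4 := by ring
    rw [hexp2] at hZc
    rw [hexp]
    linarith
  exact_mod_cast goal

end Pool.Agent.H3.AP
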