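import Pool.Agent.H3.AP.Half
import Pool.Agent.H3.AP.Assign2
import Pool.Agent.H3.AP.Free2
import Pool.Agent.H3.AP.Gain

/-!
Small non-progressions through `x` against all interval members and the other progressions through `x`.
-/

set_option autoImplicit false

namespace Pool.Agent.H3.AP

open Finset Pool.Agent.H483S Pool.Agent.H21.AP

theorem harm_le' (N L : ℕ) (hL : N < 2 ^ L) : ∑ d ∈ Icc 1 N, N / d ≤ N * (L + 1) := by
  rcases Nat.eq_zero_or_pos N with rfl | hN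
  · simp
  have h1 : ((∑ d ∈ Icc 1 N, N / d : ℕ) : ℝ) ≤ N * (harmonic N : ℝ) := by
    rw [harmonic_eq_sum_Icc]
    push_cast
    rw [mul_sum]
    apply sum_le_sum
    intro d hd
    have := @Nat.cast_div_le ℝ _ _ _ N d
    rw [div_eq_mul_inv] at this
    exact this
  have h2 := harmonic_le_one_add_log N
  have h3 : Real.log N ≤ L := by
    have h4 : (N : ℝ) ≤ 2 ^ L := by exact_mod_cast hL.le
    have h5 : Real.log N ≤ Real.log (2 ^ L) := Real.log_le_log (by exact_mod_cast hN) h4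
    rw [Real.log_pow] at h5
    have h6 : Real.log 2 ≤ 1 := by
      have := Real.log_two_lt_d9
      linarith
    have h7 : (0 : ℝ) ≤ L := Nat.cast_nonneg L
    nlinarith
  have h8 : ((∑ d ∈ Icc 1 N, N / d : ℕ) : ℝ) ≤ ((N * (L + 1) : ℕ) : ℝ) := by
    refine h1.trans ?_
    push_cast
    have h9 : (0 : ℝ) ≤ N := Nat.cast_nonneg N
    have : (harmonic N : ℝ) ≤ L + 1 := by linarith
    exact mul_le_mul_of_nonneg_left this h9
  exact_mod_cast h8

/-- the non-interval progression members through `x` -/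
def NIT (F : Finset (Finset ℤ)) (x : ℤ) (A : Finset ℤ) : Prop :=
  A ∈ F ∧ x ∈ A ∧ Pool.Agent.H483S.IsAP A ∧ ¬ ∃ a b : ℤ, a ≤ b ∧ A = Icc a b

theorem nit_triple {A : Finset ℤ} {x : ℤ} {N : ℕ} (hsub : A ⊆ Icc 1 (N : ℤ)) (hx : x ∈ A)
    (hAP : Pool.Agent.H483S.IsAP A) (hn : ¬ ∃ a b : ℤ, a ≤ b ∧ A = Icc a b) :
    ∃ d i j : ℕ, 2 ≤ d ∧ 1 ≤ i + j ∧ (∀ w : ℤ, w ∈ A ↔ w - x ∈ prog d i j) ∧
      d * i ≤ (x - 1).toNat ∧ d * j ≤ ((N : ℤ) - x).toNat := by
  obtain ⟨a, d, l, hd, hl, hA⟩ := hAP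
  have hl2 : 2 ≤ l := by
    by_contra hc
    have hl1 : l = 1 := by omega
    apply hn
    refine ⟨a, a, le_rfl, ?_⟩
    rw [hA, hl1]
    simp
  have hd2 : 2 ≤ d := by
    by_contra hc
    have hd1 : d = 1 := by omega
    apply hn
    refine ⟨a, a + l - 1, by omega, ?_⟩
    rw [hA, hd1]
    ext w
    rw [mem_image, mem_Icc]
    constructor
    · rintro ⟨i, hi, rfl⟩
      rw [mem_range] at hi
      constructor <;> omega
    · rintro ⟨h1, h2⟩
      exact ⟨(w - a).toNat, mem_range.2 (by omega), by omega⟩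
  obtain ⟨i, hi, ei⟩ := mem_image.1 (hA ▸ hx : x ∈ (range l).image (fun i : ℕ => a + i * d))
  rw [mem_range] at hi
  have hd' : ((d.toNat : ℕ) : ℤ) = d := Int.toNat_of_nonneg (by omega)
  have ha : a ∈ A := by
    rw [hA]
    exact mem_image.2 ⟨0, mem_range.2 (by omega), by simp⟩
  have he : a + ((l - 1 : ℕ) : ℤ) * d ∈ A := by
    rw [hA]
    exact mem_image.2 ⟨l - 1, mem_range.2 (by omega), rfl⟩
  have ha' := mem_Icc.1 (hsub ha)
  have he' := mem_Icc.1 (hsub he)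
  have hcast : ((l - 1 - i : ℕ) : ℤ) = ((l - 1 : ℕ) : ℤ) - i := by omega
  refine ⟨d.toNat, i, l - 1 - i, by omega, by omega, ?_, ?_, ?_⟩
  · intro w
    rw [mem_prog, hd', hcast, hA, mem_image]
    constructor
    · rintro ⟨k, hk, rfl⟩
      rw [mem_range] at hk
      refine ⟨(k : ℤ) - i, ⟨by omega, by omega⟩, ?_⟩
      rw [← ei]; ring
    · rintro ⟨k, ⟨h1, h2⟩, h3⟩
      refine ⟨(k + i).toNat, mem_range.2 (by omega), ?_⟩
      have : (((k + i).toNat : ℕ) : ℤ) = k + i := Int.toNat_of_nonneg (by omega)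
      rw [this]
      linarith
  · have h1 : ((d.toNat * i : ℕ) : ℤ) ≤ (((x - 1).toNat : ℕ) : ℤ) := by
      push_cast
      rw [hd', Int.toNat_of_nonneg (by have := (mem_Icc.1 (hsub hx)).1; omega)]
      linarith [ha'.1, mul_comm d (i : ℤ)]
    exact_mod_cast h1
  · have h1 : ((d.toNat * (l - 1 - i) : ℕ) : ℤ) ≤ ((((N : ℤ) - x).toNat : ℕ) : ℤ) := by
      push_cast
      rw [hd', hcast, Int.toNat_of_nonneg (by have := (mem_Icc.1 (hsub hx)).2; omega)]
      have : d * (((l - 1 : ℕ) : ℤ) - i) = ((l - 1 : ℕ) : ℤ) * d - i * d := by ring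
      rw [this]
      linarith [he'.2]
    exact_mod_cast h1

/-- the general inequality, with `x` to the left of the common point of the intervals -/
theorem za_half (updn : Updn) (tri : TriInt)
    (N S L : ℕ) (hL : N < 2 ^ L) (hS1 : 1 ≤ S) (F : Finset (Finset ℤ))
    (hsub : ∀ A ∈ F, A ⊆ Icc 1 (N : ℤ))
    (hint : ∀ A ∈ F, ∀ B ∈ F, A ≠ B → Pool.Agent.H483S.IsAP (A ∩ B)) (x : ℤ)
    (hxN : x ∈ Icc 1 (N : ℤ)) (G : Finset (Finset ℤ))
    (hG : ∀ A ∈ G, A ∈ F ∧ ¬ Pool.Agent.H483S.IsAP A ∧ x ∈ A ∧ A.card ≤ S) (m : ℤ)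
    (hm : m ∈ Icc 1 (N : ℤ)) (hxm : x ≤ m) (P : Finset (ℤ × ℤ))
    (hP : ∀ q ∈ P, q.1 ≤ m ∧ m ≤ q.2 ∧ Icc q.1 q.2 ∈ F)
    (T : Finset (Finset ℤ)) (hT : ∀ A ∈ T, NIT F x A) :
    1000 * G.card + 1056 * (P.card + T.card) ≤
      1000 * (N - 1).choose 2 + 6000 * (N * (2 * S + 1) ^ 6) + 1010000 * (N * (L + 1)) := by
  classical
  have hx := mem_Icc.1 hxN
  have hm' := mem_Icc.1 hm
  have hPb : ∀ q ∈ P, 1 ≤ q.1 ∧ q.1 ≤ m ∧ m ≤ q.2 ∧ q.2 ≤ N := by
    intro q hq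
    obtain ⟨h1, h2, h3⟩ := hP q hq
    have h4 := mem_Icc.1 (hsub _ h3 (mem_Icc.2 ⟨le_rfl, h1.trans h2⟩))
    have h5 := mem_Icc.1 (hsub _ h3 (mem_Icc.2 ⟨h1.trans h2, le_rfl⟩))
    exact ⟨h4.1, h1, h2, h5.2⟩
  set X := (Icc 1 (N : ℤ)).erase x with hX
  have hXc : X.card = N - 1 := by
    rw [hX, card_erase_of_mem hxN, Int.card_Icc]; omega
  set FR := (opairs X).filter (fun r => (∃ q ∈ P, q.1 ≤ x ∧ x ≤ q.2 ∧ q.1 ≤ r.1 ∧ r.2 ≤ q.2) ∨
    (∃ q ∈ P, x < q.1 ∧ x < r.1 ∧ r.2 < q.1) ∨ (∃ q ∈ P, x < q.1 ∧ q.2 < r.1) ∨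
    (∃ q ∈ P, ∃ q' ∈ P, x < q.1 ∧ x < q'.1 ∧ r.1 < q.1 ∧ q.2 < r.2 ∧ q'.1 ≤ r.1 ∧ r.2 ≤ q'.2)) with hFR
  have hop : ∀ y z : ℤ, 1 ≤ y → y < z → z ≤ N → y ≠ x → z ≠ x → (y, z) ∈ opairs X := by
    intro y z h1 h2 h3 h4 h5
    refine mem_filter.2 ⟨mem_product.2 ⟨mem_erase.2 ⟨h4, mem_Icc.2 ⟨h1, ?_⟩⟩,
      mem_erase.2 ⟨h5, mem_Icc.2 ⟨?_, h3⟩⟩⟩, h2⟩
    · dsimp only; omega
    · dsimp only; omega
  set FR1 := FR.filter (fun r => Int.gcd (r.1 - x) (r.2 - x) = 1) with hFR1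
  have hfree : 1056 * P.card ≤ 1000 * FR1.card + 10 ^ 6 * N * (L + 1) := by
    have := free_count2 updn tri N L hL x m hx.1 hxm hm'.2 P hPb FR
      (by
        intro q hq h1 y z hy hz h2 h3 h4
        have := hPb q hq
        refine mem_filter.2 ⟨hop y z (by omega) h3 (by omega) hy hz, Or.inl ⟨q, hq, h1, by omega, h2, h4⟩⟩)
      (by
        intro q hq h1 y z h2 h3 h4
        have := hPb q hq
        refine mem_filter.2 ⟨hop y z (by omega) h3 (by omega) (by omega) (by omega),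
          Or.inr (Or.inl ⟨q, hq, h1, h2, h4⟩)⟩)
      (by
        intro q hq h1 y z h2 h3 h4
        have := hPb q hq
        refine mem_filter.2 ⟨hop y z (by omega) h3 (by omega) (by omega) (by omega),
          Or.inr (Or.inr (Or.inl ⟨q, hq, h1, h2⟩))⟩)
      (by
        intro q hq q' hq' h1 h1' y z h2 h3 h4 h5
        have := hPb q hq
        have := hPb q' hq'
        refine mem_filter.2 ⟨hop y z (by omega) (by omega) (by omega) (by omega) (by omega),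
          Or.inr (Or.inr (Or.inr ⟨q, hq, q', hq', h1, h1', h2, h3, h4, h5⟩))⟩)
    rw [hFR1]
    convert this using 3
  -- the pairs covered by the progressions in T
  have hch : ∀ A : Finset ℤ, ∃ t : ℕ × ℕ × ℕ, A ∈ T → 2 ≤ t.1 ∧ 1 ≤ t.2.1 + t.2.2 ∧
      (∀ w : ℤ, w ∈ A ↔ w - x ∈ prog t.1 t.2.1 t.2.2) ∧ t.1 * t.2.1 ≤ (x - 1).toNat ∧
      t.1 * t.2.2 ≤ ((N : ℤ) - x).toNat := by
    intro A
    by_cases hA : A ∈ T
    · obtain ⟨h1, h2, h3, h4⟩ := hT A hA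
      obtain ⟨d, i, j, g⟩ := nit_triple (hsub A h1) h2 h3 h4
      exact ⟨(d, i, j), fun _ => g⟩
    · exact ⟨(0, 0, 0), fun h => absurd h hA⟩
  choose t ht using hch
  have htinj : (T.image t).card = T.card := by
    apply card_image_of_injOn
    intro A hA B hB h
    ext w
    rw [(ht A (mem_coe.1 hA)).2.2.1 w, (ht B (mem_coe.1 hB)).2.2.1 w, h]
  set U := (T.image t).biUnion (fun p => prs (prog p.1 p.2.1 p.2.2)) with hU
  have hgain := ap_gain (x - 1).toNat ((N : ℤ) - x).toNat (T.image t) (by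
    intro p hp
    obtain ⟨A, hA, rfl⟩ := mem_image.1 hp
    obtain ⟨g1, g2, g3, g4, g5⟩ := ht A hA
    exact ⟨by omega, g2, g4, g5⟩)
  rw [htinj, ← hU] at hgain
  set KT := U.image (fun q : ℤ × ℤ => (q.1 + x, q.2 + x)) with hKT
  have hKTc : KT.card = U.card := by
    apply card_image_of_injective
    rintro ⟨a, b⟩ ⟨a', b'⟩ h
    obtain ⟨h1, h2⟩ := Prod.mk.inj h
    dsimp only at h1 h2
    have e1 : a = a' := by omega
    have e2 : b = b' := by omega
    rw [e1, e2]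
  have hKTmem : ∀ r ∈ KT, ∃ A ∈ T, r.1 ∈ A ∧ r.2 ∈ A ∧ r.1 < r.2 ∧ r.1 ≠ x ∧ r.2 ≠ x ∧
      Int.gcd (r.1 - x) (r.2 - x) ≠ 1 := by
    intro r hr
    obtain ⟨q, hq, rfl⟩ := mem_image.1 hr
    obtain ⟨p, hp, hq2⟩ := mem_biUnion.1 hq
    obtain ⟨A, hA, rfl⟩ := mem_image.1 hp
    obtain ⟨⟨a1, a2⟩, a3, a4, a5⟩ := mem_prs.1 hq2
    obtain ⟨g1, g2, g3, g4, g5⟩ := ht A hA
    refine ⟨A, hA, ?_, ?_, ?_, ?_, ?_, ?_⟩
    · rw [g3]; dsimp only; rwa [add_sub_cancel_right]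
    · rw [g3]; dsimp only; rwa [add_sub_cancel_right]
    · dsimp only; linarith
    · dsimp only; intro h; exact a4 (by linarith)
    · dsimp only; intro h; exact a5 (by linarith)
    · dsimp only
      rw [add_sub_cancel_right, add_sub_cancel_right]
      obtain ⟨k, -, hk⟩ := mem_prog.1 a1
      obtain ⟨k', -, hk'⟩ := mem_prog.1 a2
      intro h
      have h2 : (((t A).1 : ℕ) : ℤ) ∣ ((Int.gcd q.1 q.2 : ℕ) : ℤ) :=
        Int.dvd_coe_gcd ⟨k, by rw [← hk]; ring⟩ ⟨k', by rw [← hk']; ring⟩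
      rw [h] at h2
      have h3 : (t A).1 ∣ 1 := by exact_mod_cast h2
      have := Nat.le_of_dvd one_pos h3
      omega
  -- good and bad members
  set Q : Finset ℤ → Prop := fun B => ∃ y ∈ B, ∃ z ∈ B, y < z ∧ y ≠ x ∧ z ≠ x ∧ Own B x y z ∧
      (∀ q ∈ P, q.1 ≤ x → x ≤ q.2 → ¬ (q.1 ≤ y ∧ z ≤ q.2)) ∧
      (∀ q ∈ P, x < q.1 → ¬ (x < y ∧ z < q.1)) ∧ (∀ q ∈ P, x < q.1 → ¬ q.2 < y) ∧
      (∀ q ∈ P, ∀ q' ∈ P, x < q.1 → x < q'.1 → ¬ (y < q.1 ∧ q.2 < z ∧ q'.1 ≤ y ∧ z ≤ q'.2)) with hQ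
  set E : Finset ℤ → Prop := fun A => ∃ y ∈ Icc 1 (N : ℤ), ∃ z ∈ Zs S x y, ∀ w ∈ A,
    w ∈ Zs S x y ∨ w ∈ Zs S x z with hE
  have hGsplit : G ⊆ (G.filter Q ∪ G.filter (fun A => m ∈ A ∧ ¬ ∀ q ∈ P, q.1 ≤ x)) ∪ G.filter E := by
    intro B hB
    obtain ⟨h1, h2, h3, h4⟩ := hG B hB
    by_cases hEB : E B
    · exact mem_union_right _ (mem_filter.2 ⟨hB, hEB⟩)
    apply mem_union_left
    by_cases hmB : m ∈ B ∧ ¬ ∀ q ∈ P, q.1 ≤ x
    · exact mem_union_right _ (mem_filter.2 ⟨hB, hmB⟩)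
    · apply mem_union_left
      refine mem_filter.2 ⟨hB, ?_⟩
      refine good_pair2 hS1 hsub hint hxm P (fun q hq => (hP q hq).2.2)
        (fun q hq => ⟨(hP q hq).1, (hP q hq).2.1⟩) h1 h2 h3 h4 ?_ hEB
      by_cases h5 : m ∈ B
      · right
        by_contra h6
        exact hmB ⟨h5, h6⟩
      · exact Or.inl h5
  have hc := (card_le_card hGsplit).trans ((card_union_le _ _).trans
    (Nat.add_le_add_right (card_union_le _ _) _))
  -- the members through m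
  have hc1 : (G.filter (fun A => m ∈ A ∧ ¬ ∀ q ∈ P, q.1 ≤ x)).card ≤ N + (2 * S + 1) ^ 4 := by
    by_cases h0 : ∀ q ∈ P, q.1 ≤ x
    · have : G.filter (fun A => m ∈ A ∧ ¬ ∀ q ∈ P, q.1 ≤ x) = ∅ := by
        apply filter_eq_empty_iff.2
        rintro A - ⟨-, h⟩
        exact h h0
      rw [this]; simp
    · have hmx : m ≠ x := by
        push Not at h0
        obtain ⟨q, hq, h1⟩ := h0
        have := (hP q hq).1
        omega
      refine pair_deg N S _ ?_ ?_ ?_ ?_ hmx ?_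
      · intro A hA
        exact hsub A (hG A (mem_filter.1 hA).1).1
      · intro A hA B hB
        exact hint A (hG A (mem_filter.1 hA).1).1 B (hG B (mem_filter.1 hB).1).1
      · intro A hA
        exact (hG A (mem_filter.1 hA).1).2.1
      · intro A hA
        exact (hG A (mem_filter.1 hA).1).2.2.2
      · intro A hA
        exact ⟨(hG A (mem_filter.1 hA).1).2.2.1, (mem_filter.1 hA).2.1⟩
  -- the exceptional members
  have hc2 : (G.filter E).card ≤ 4 * N * (2 * S + 1) ^ 6 := by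
    refine exc_count N S (G.filter E) ?_ ?_ (x := x) ?_ ?_
    · intro A hA B hB
      exact hint A (hG A (mem_filter.1 hA).1).1 B (hG B (mem_filter.1 hB).1).1
    · intro A hA
      exact (hG A (mem_filter.1 hA).1).2.1
    · intro A hA
      exact (hG A (mem_filter.1 hA).1).2.2.1
    · intro A hA
      exact (mem_filter.1 hA).2
  -- the good members
  have hc3 : (G.filter Q).card + (FR1.card + KT.card) ≤ (N - 1).choose 2 := by
    have hch : ∀ A : Finset ℤ, ∃ r : ℤ × ℤ, A ∈ G.filter Q → r.1 ∈ A ∧ r.2 ∈ A ∧ r.1 < r.2 ∧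
        r.1 ≠ x ∧ r.2 ≠ x ∧ Own A x r.1 r.2 ∧ r ∉ FR := by
      intro A
      by_cases hA : A ∈ G.filter Q
      · obtain ⟨-, y, hy, z, hz, h1, h2, h3, h4, h5, h6, h7, h8⟩ := mem_filter.1 hA
        refine ⟨(y, z), fun _ => ⟨hy, hz, h1, h2, h3, h4, ?_⟩⟩
        intro h9
        rcases (mem_filter.1 h9).2 with ⟨q, hq, a1, a2, a3, a4⟩ | ⟨q, hq, a1, a2, a3⟩ |
          ⟨q, hq, a1, a2⟩ | ⟨q, hq, q', hq', a1, a2, a3, a4, a5, a6⟩
        · exact h5 q hq a1 a2 ⟨a3, a4⟩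
        · exact h6 q hq a1 ⟨a2, a3⟩
        · exact h7 q hq a1 a2
        · exact h8 q hq q' hq' a1 a2 ⟨a3, a4, a5, a6⟩
      · exact ⟨(0, 0), fun h => absurd h hA⟩
    choose r hr using hch
    have hinj : ((G.filter Q).image r).card = (G.filter Q).card := by
      apply card_image_of_injOn
      intro A hA B hB h
      have hA' := mem_coe.1 hA
      have hB' := mem_coe.1 hB
      have gA := hG A (mem_filter.1 hA').1
      have gB := hG B (mem_filter.1 hB').1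
      obtain ⟨a1, a2, a3, a4, a5, a6, a7⟩ := hr A hA'
      obtain ⟨b1, b2, b3, b4, b5, b6, b7⟩ := hr B hB'
      by_contra hne
      refine own_unique (hint A gA.1 B gB.1 hne) gA.2.2.1 a1 a2 gB.2.2.1 ?_ ?_ a6
      · rw [h]; exact b1
      · rw [h]; exact b2
    have hd12 : Disjoint FR1 KT := by
      rw [Finset.disjoint_left]
      intro q hq hq'
      obtain ⟨A, hA, -, -, -, -, -, h⟩ := hKTmem q hq'
      exact h (mem_filter.1 hq).2
    have hdisj : Disjoint ((G.filter Q).image r) (FR1 ∪ KT) := by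
      rw [Finset.disjoint_left]
      intro q hq hq'
      obtain ⟨A, hA, rfl⟩ := mem_image.1 hq
      obtain ⟨a1, a2, a3, a4, a5, a6, a7⟩ := hr A hA
      have gA := hG A (mem_filter.1 hA).1
      rcases mem_union.1 hq' with h | h
      · exact a7 (mem_filter.1 h).1
      · obtain ⟨B, hB, b1, b2, -⟩ := hKTmem _ h
        obtain ⟨t1, t2, t3, t4⟩ := hT B hB
        have hne : A ≠ B := by
          rintro rfl
          exact gA.2.1 t3
        exact own_unique (hint A gA.1 B t1 hne) gA.2.2.1 a1 a2 t2 b1 b2 a6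
    have hsubU : (G.filter Q).image r ∪ (FR1 ∪ KT) ⊆ opairs X := by
      apply union_subset
      · intro q hq
        obtain ⟨A, hA, rfl⟩ := mem_image.1 hq
        obtain ⟨a1, a2, a3, a4, a5, a6, a7⟩ := hr A hA
        have gA := hG A (mem_filter.1 hA).1
        have e1 := mem_Icc.1 (hsub A gA.1 a1)
        have e2 := mem_Icc.1 (hsub A gA.1 a2)
        exact hop _ _ e1.1 a3 e2.2 a4 a5
      · apply union_subset
        · exact (filter_subset _ _).trans (filter_subset _ _)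
        · intro q hq
          obtain ⟨B, hB, b1, b2, b3, b4, b5, -⟩ := hKTmem q hq
          obtain ⟨t1, t2, t3, t4⟩ := hT B hB
          have e1 := mem_Icc.1 (hsub B t1 b1)
          have e2 := mem_Icc.1 (hsub B t1 b2)
          exact hop _ _ e1.1 b3 e2.2 b4 b5
    have := card_le_card hsubU
    rw [card_union_of_disjoint hdisj, card_union_of_disjoint hd12, hinj] at this
    have h9 := card_opairs_le X
    rw [hXc] at h9
    omega
  -- the harmonic sum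
  have hharm : ∑ d ∈ Icc 1 ((x - 1).toNat + ((N : ℤ) - x).toNat),
      ((x - 1).toNat / d + ((N : ℤ) - x).toNat / d + 3) ≤ N * (L + 1) + 3 * N := by
    have hab : (x - 1).toNat + ((N : ℤ) - x).toNat ≤ N := by omega
    calc ∑ d ∈ Icc 1 ((x - 1).toNat + ((N : ℤ) - x).toNat),
        ((x - 1).toNat / d + ((N : ℤ) - x).toNat / d + 3)
        ≤ ∑ d ∈ Icc 1 N, (N / d + 3) := by
          refine (sum_le_sum_of_subset (Icc_subset_Icc_right hab)).trans (sum_le_sum ?_)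
          intro d hd
          have h1 : (x - 1).toNat / d + ((N : ℤ) - x).toNat / d ≤
              ((x - 1).toNat + ((N : ℤ) - x).toNat) / d := Nat.div_add_div_le_add_div
          have h2 := Nat.div_le_div_right (c := d) hab
          omega
      _ = ∑ d ∈ Icc 1 N, N / d + 3 * N := by
          rw [sum_add_distrib, sum_const, Nat.card_Icc, smul_eq_mul]
          congr 1
          omega
      _ ≤ N * (L + 1) + 3 * N := Nat.add_le_add_right (harm_le' N L hL) _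
  have hpow : (2 * S + 1) ^ 4 ≤ N * (2 * S + 1) ^ 6 := by
    have h1 : (2 * S + 1) ^ 4 ≤ (2 * S + 1) ^ 6 := Nat.pow_le_pow_right (by omega) (by norm_num)
    have h2 : (2 * S + 1) ^ 6 ≤ N * (2 * S + 1) ^ 6 := Nat.le_mul_of_pos_left _ (by omega)
    omega
  have e4 : 4 * N * (2 * S + 1) ^ 6 = 4 * (N * (2 * S + 1) ^ 6) := by ring
  have e6 : 10 ^ 6 * N * (L + 1) = 10 ^ 6 * (N * (L + 1)) := by ring
  have hNL : N ≤ N * (L + 1) := Nat.le_mul_of_pos_right _ (by omega)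
  have hNa : N ≤ N * (2 * S + 1) ^ 6 := Nat.le_mul_of_pos_right _ (by positivity)
  rw [e4] at hc2
  rw [e6] at hfree
  rw [hKTc] at hc3
  omega

end Pool.Agent.H3.AP
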