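import Pool.Agent.H3.AP.ZA
import Pool.Agent.H3.AP.IvlRefl

/-!
The general inequality, on both sides.
-/

set_option autoImplicit false

namespace Pool.Agent.H3.AP

open Finset Pool.Agent.H483S Pool.Agent.H21.AP

theorem za_both (updn : Updn) (tri : TriInt)
    (N S L : ℕ) (hL : N < 2 ^ L) (hS1 : 1 ≤ S) (F : Finset (Finset ℤ))
    (hsub : ∀ A ∈ F, A ⊆ Icc 1 (N : ℤ))
    (hint : ∀ A ∈ F, ∀ B ∈ F, A ≠ B → Pool.Agent.H483S.IsAP (A ∩ B)) (x : ℤ)
    (hxN : x ∈ Icc 1 (N : ℤ)) (G : Finset (Finset ℤ))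
    (hG : ∀ A ∈ G, A ∈ F ∧ ¬ Pool.Agent.H483S.IsAP A ∧ x ∈ A ∧ A.card ≤ S) (m : ℤ)
    (hmN : m ∈ Icc 1 (N : ℤ)) (P : Finset (ℤ × ℤ))
    (hP : ∀ q ∈ P, q.1 ≤ m ∧ m ≤ q.2 ∧ Icc q.1 q.2 ∈ F)
    (T : Finset (Finset ℤ)) (hT : ∀ A ∈ T, NIT F x A) :
    1000 * G.card + 1056 * (P.card + T.card) ≤
      1000 * (N - 1).choose 2 + 6000 * (N * (2 * S + 1) ^ 6) + 1010000 * (N * (L + 1)) := by
  classical
  rcases le_or_gt x m with hxm | hxm
  · exact za_half updn tri N S L hL hS1 F hsub hint x hxN G hG m hmN hxm P hP T hT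
  obtain ⟨c, hc⟩ : ∃ c : ℤ, c = N + 1 := ⟨_, rfl⟩
  have hinj : Function.Injective (fun y : ℤ => c - y) := fun y z h => by
    have : c - y = c - z := h
    linarith
  have hinj2 : Function.Injective (fun A : Finset ℤ => A.image (fun y => c - y)) :=
    Finset.image_injective hinj
  have hinv : ∀ A : Finset ℤ, (A.image (fun y => c - y)).image (fun y => c - y) = A := by
    intro A
    ext w
    rw [refl_mem, refl_mem, sub_sub_cancel]
  have hG1 : (G.image (fun A => A.image (fun y => c - y))).card = G.card :=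
    card_image_of_injective _ hinj2
  have hT1 : (T.image (fun A => A.image (fun y => c - y))).card = T.card :=
    card_image_of_injective _ hinj2
  have hP1 : (P.image (fun q : ℤ × ℤ => (c - q.2, c - q.1))).card = P.card := by
    refine card_image_of_injective _ ?_
    rintro ⟨u, v⟩ ⟨u', v'⟩ h
    obtain ⟨e1, e2⟩ := Prod.mk.inj h
    dsimp only at e1 e2
    exact Prod.ext (by dsimp only; linarith) (by dsimp only; linarith)
  rw [← hG1, ← hP1, ← hT1]
  have hx := mem_Icc.1 hxN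
  have hm := mem_Icc.1 hmN
  have hIcc : ∀ a b : ℤ, Icc (c - b) (c - a) = (Icc a b).image (fun y => c - y) := by
    intro a b
    ext w
    rw [refl_mem, mem_Icc, mem_Icc]
    constructor
    · rintro ⟨h1, h2⟩
      exact ⟨by linarith, by linarith⟩
    · rintro ⟨h1, h2⟩
      exact ⟨by linarith, by linarith⟩
  refine za_half updn tri N S L hL hS1 (F.image (fun A => A.image (fun y => c - y))) ?_ ?_ (c - x)
    (mem_Icc.2 ⟨by linarith, by linarith⟩) _ ?_ (c - m)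
    (mem_Icc.2 ⟨by linarith, by linarith⟩) (by linarith) _ ?_ _ ?_
  · intro A hA w hw
    obtain ⟨B, hB, rfl⟩ := mem_image.1 hA
    have := mem_Icc.1 (hsub B hB ((refl_mem B w).1 hw))
    rw [mem_Icc]
    constructor <;> linarith
  · intro A hA B hB hne
    obtain ⟨A', hA', rfl⟩ := mem_image.1 hA
    obtain ⟨B', hB', rfl⟩ := mem_image.1 hB
    rw [← image_inter _ _ hinj]
    exact Pool.Agent.H21.AP.IsAP.refl' (hint A' hA' B' hB' (fun h => hne (by rw [h]))) c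
  · intro A hA
    obtain ⟨A', hA', rfl⟩ := mem_image.1 hA
    obtain ⟨g1, g2, g3, g4⟩ := hG A' hA'
    refine ⟨mem_image_of_mem _ g1, ?_, ?_, ?_⟩
    · intro h
      apply g2
      have := Pool.Agent.H21.AP.IsAP.refl' h c
      rwa [hinv] at this
    · rw [refl_mem, sub_sub_cancel]
      exact g3
    · rw [card_image_of_injective _ hinj]
      exact g4
  · intro q hq
    obtain ⟨q', hq', rfl⟩ := mem_image.1 hq
    obtain ⟨g1, g2, g3⟩ := hP q' hq'
    refine ⟨by dsimp only; linarith, by dsimp only; linarith, ?_⟩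
    dsimp only
    rw [hIcc]
    exact mem_image_of_mem _ g3
  · intro A hA
    obtain ⟨A', hA', rfl⟩ := mem_image.1 hA
    obtain ⟨g1, g2, g3, g4⟩ := hT A' hA'
    refine ⟨mem_image_of_mem _ g1, ?_, Pool.Agent.H21.AP.IsAP.refl' g3 c, ?_⟩
    · rw [refl_mem, sub_sub_cancel]
      exact g2
    · rintro ⟨a, b, hab, h⟩
      apply g4
      refine ⟨c - b, c - a, by linarith, ?_⟩
      rw [hIcc, ← h, hinv]

theorem za_count_aux (updn : Updn) (tri : TriInt)
    (N S L : ℕ) (hL : N < 2 ^ L) (F : Finset (Finset ℤ)) (hsub : ∀ A ∈ F, A ⊆ Icc 1 (N : ℤ))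
    (hint : ∀ A ∈ F, ∀ B ∈ F, A ≠ B → Pool.Agent.H483S.IsAP (A ∩ B)) (x : ℤ)
    (hxN : x ∈ Icc 1 (N : ℤ)) (G : Finset (Finset ℤ))
    (hG : ∀ A ∈ G, A ∈ F ∧ ¬ Pool.Agent.H483S.IsAP A ∧ x ∈ A ∧ A.card ≤ S)
    (I : Finset (Finset ℤ)) (hI : ∀ J ∈ I, J ∈ F ∧ ∃ a b : ℤ, a ≤ b ∧ J = Icc a b)
    (T : Finset (Finset ℤ))
    (hT : ∀ A ∈ T, A ∈ F ∧ Pool.Agent.H483S.IsAP A ∧ x ∈ A ∧ ¬ ∃ a b : ℤ, a ≤ b ∧ A = Icc a b) :
    1000 * G.card + 1056 * (I.card + T.card) ≤
      1000 * (N - 1).choose 2 + 10 ^ 7 * (N * (L + 1) * (2 * S + 1) ^ 6) := by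
  classical
  have hx := mem_Icc.1 hxN
  have hN : 1 ≤ N := by
    have : (1 : ℤ) ≤ N := hx.1.trans hx.2
    exact_mod_cast this
  obtain ⟨m, P, hm, hP, hc⟩ := exists_common N hN F hsub hint I hI
  rw [← hc]
  have hT' : ∀ A ∈ T, NIT F x A := fun A hA => ⟨(hT A hA).1, (hT A hA).2.2.1, (hT A hA).2.1,
    (hT A hA).2.2.2⟩
  rcases Nat.eq_zero_or_pos S with hS | hS
  · have hG0 : G = ∅ := by
      rw [eq_empty_iff_forall_notMem]
      intro A hA
      obtain ⟨-, -, g3, g4⟩ := hG A hA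
      rw [hS, Nat.le_zero, card_eq_zero] at g4
      rw [g4] at g3
      exact notMem_empty x g3
    have h := za_both updn tri N 1 L hL le_rfl F hsub hint x hxN ∅
      (fun A hA => absurd hA (notMem_empty A)) m hm P hP T hT'
    rw [hG0, hS]
    have hNL : N ≤ N * (L + 1) := Nat.le_mul_of_pos_right _ (by omega)
    norm_num at h ⊢
    omega
  · have h := za_both updn tri N S L hL hS F hsub hint x hxN G hG m hm P hP T hT'
    have h1 : N * (2 * S + 1) ^ 6 ≤ N * (L + 1) * (2 * S + 1) ^ 6 := by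
      rw [mul_assoc]
      exact Nat.mul_le_mul_left _ (Nat.le_mul_of_pos_left _ (by omega))
    have h2 : N * (L + 1) ≤ N * (L + 1) * (2 * S + 1) ^ 6 :=
      Nat.le_mul_of_pos_right _ (by positivity)
    omega

end Pool.Agent.H3.AP
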