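import Pool.Agent.H3.AP.ZACount
import Pool.Agent.H3.AP.TriInt

/-!
The general inequality, unconditional.
-/

set_option autoImplicit false

namespace Pool.Agent.H21.AP

open Finset Pool.Agent.H483S

theorem za_count (N S L : ℕ) (hL : N < 2 ^ L) (F : Finset (Finset ℤ)) (hsub : ∀ A ∈ F, A ⊆ Icc 1 (N : ℤ))
    (hint : ∀ A ∈ F, ∀ B ∈ F, A ≠ B → IsAP (A ∩ B)) (x : ℤ) (hxN : x ∈ Icc 1 (N : ℤ))
    (G : Finset (Finset ℤ)) (hG : ∀ A ∈ G, A ∈ F ∧ ¬ IsAP A ∧ x ∈ A ∧ A.card ≤ S)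
    (I : Finset (Finset ℤ)) (hI : ∀ J ∈ I, J ∈ F ∧ ∃ a b : ℤ, a ≤ b ∧ J = Icc a b)
    (T : Finset (Finset ℤ)) (hT : ∀ A ∈ T, A ∈ F ∧ IsAP A ∧ x ∈ A ∧ ¬ ∃ a b : ℤ, a ≤ b ∧ A = Icc a b) :
    1000 * G.card + 1056 * (I.card + T.card) ≤
      1000 * (N - 1).choose 2 + 10 ^ 7 * (N * (L + 1) * (2 * S + 1) ^ 6) :=
  Pool.Agent.H3.AP.za_count_aux Pool.Agent.H3.AP.updn Pool.Agent.H3.AP.tri_int N S L hL F hsub hint x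
    hxN G hG I hI T hT

end Pool.Agent.H21.AP
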